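import Pool.Agent.TH801.TU.Clus
import Pool.Agent.H452R4.LI.COR

set_option autoImplicit false

/-!
# Short blocks with many elements
-/

namespace Pool.Agent.TH801.TU

open Complex Filter Topology MeasureTheory Set
open Pool.Agent.H452R4.LI
open Pool.Agent.H452R4.LI.CORaux

/-- pigeonhole principle for intervals -/
lemma pig (S : Finset ℝ) (a l : ℝ) (hl : 0 < l) (N : ℕ) (hN : 1 ≤ N)
    (hS : ∀ x ∈ S, a < x ∧ x ≤ a + N * l) : ∃ x0 : ℝ, a ≤ x0 ∧ x0 ≤ a + N * l ∧
      (S.card : ℝ) ≤ N * ((S.filter (fun x => x0 < x ∧ x ≤ x0 + l)).card : ℝ) := by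
  classical
  by_contra hcon
  push Not at hcon
  have hmaps : ∀ x ∈ S, ⌈(x - a) / l⌉₊ - 1 ∈ Finset.range N := by
    intro x hx
    obtain ⟨h1, h2⟩ := hS x hx
    have h3 : (x - a) / l ≤ N := by rw [div_le_iff₀ hl]; linarith
    have h4 : ⌈(x - a) / l⌉₊ ≤ N := Nat.ceil_le.2 h3
    rw [Finset.mem_range]
    omega
  have hcard := Finset.card_eq_sum_card_fiberwise hmaps
  have hfib : ∀ j ∈ Finset.range N,
      (N : ℝ) * ((S.filter (fun x => ⌈(x - a) / l⌉₊ - 1 = j)).card : ℝ) < S.card := by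
    intro j hj
    rw [Finset.mem_range] at hj
    have hjN : (j : ℝ) ≤ N := by exact_mod_cast hj.le
    have h1 := hcon (a + j * l) (by nlinarith [Nat.cast_nonneg (α := ℝ) j])
      (by nlinarith)
    refine lt_of_le_of_lt ?_ h1
    have h2 : (S.filter (fun x => ⌈(x - a) / l⌉₊ - 1 = j)) ⊆
        (S.filter (fun x => a + j * l < x ∧ x ≤ a + j * l + l)) := by
      intro x hx
      rw [Finset.mem_filter] at hx ⊢
      obtain ⟨hxS, hxj⟩ := hx
      obtain ⟨h3, h4⟩ := hS x hxS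
      have h5 : 0 < (x - a) / l := div_pos (by linarith) hl
      have h6 : 0 < ⌈(x - a) / l⌉₊ := Nat.ceil_pos.2 h5
      have h7 : ⌈(x - a) / l⌉₊ = j + 1 := by omega
      have h8 : (x - a) / l ≤ (j : ℝ) + 1 := by
        have := Nat.le_ceil ((x - a) / l)
        rw [h7] at this
        push_cast at this
        exact this
      have h9 : (j : ℝ) < (x - a) / l := by
        by_contra h
        push Not at h
        have h10 : ⌈(x - a) / l⌉₊ ≤ j := Nat.ceil_le.2 h
        omega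
      rw [div_le_iff₀ hl] at h8
      rw [lt_div_iff₀ hl] at h9
      exact ⟨hxS, by linarith, by linarith⟩
    apply mul_le_mul_of_nonneg_left _ (Nat.cast_nonneg _)
    exact_mod_cast Finset.card_le_card h2
  have hsum : ∑ j ∈ Finset.range N,
      (N : ℝ) * ((S.filter (fun x => ⌈(x - a) / l⌉₊ - 1 = j)).card : ℝ) <
      ∑ _j ∈ Finset.range N, (S.card : ℝ) := by
    apply Finset.sum_lt_sum_of_nonempty _ hfib
    rw [Finset.nonempty_range_iff]
    omega
  rw [← Finset.mul_sum, Finset.sum_const, Finset.card_range, nsmul_eq_mul] at hsum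
  have h11 : (∑ j ∈ Finset.range N,
      ((S.filter (fun x => ⌈(x - a) / l⌉₊ - 1 = j)).card : ℝ)) = S.card := by
    rw [hcard]; push_cast; rfl
  rw [h11] at hsum
  exact lt_irrefl _ hsum

lemma log_two_mul (M : ℝ) (hM : 1 ≤ M) (T : ℝ) (hT : M ≤ T) : Real.log (M * T) ≤ 2 * Real.log T := by
  rw [Real.log_mul (by linarith) (by linarith)]
  have := Real.log_le_log (by linarith) hT
  linarith

/-- a block of the first set, avoiding the neighbourhood of `-v1` or of `-v2` -/
lemma blockA (K κ : ℝ) (hK : 1 ≤ K) (hκ : 0 < κ) :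
    ∃ η2 : ℝ, 0 < η2 ∧ ∀ T : ℝ, 0 < T → ∀ A : Finset ℝ, (∀ a ∈ A, |a| ≤ K * T) →
      ∀ v1 v2 : ℝ, 20 * κ * T ≤ |v1 - v2| →
      ∃ A1 ⊆ A, ∃ α : ℝ, (∀ a ∈ A1, |a - α| ≤ κ * T) ∧
        ((∀ a ∈ A1, 10 * κ * T ≤ |a + v1|) ∨ (∀ a ∈ A1, 10 * κ * T ≤ |a + v2|)) ∧
        η2 * A.card ≤ A1.card := by
  classical
  obtain ⟨N, hN⟩ : ∃ N : ℕ, N = ⌈3 * K / κ⌉₊ := ⟨_, rfl⟩
  have hN1 : 3 * K / κ ≤ N := by rw [hN]; exact Nat.le_ceil _
  have hN0 : (0 : ℝ) < N := lt_of_lt_of_le (by positivity) hN1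
  have hNpos : 1 ≤ N := by exact_mod_cast hN0
  refine ⟨1 / (2 * N), by positivity, ?_⟩
  intro T hT0 A hA v1 v2 hv
  have hκT : 0 < κ * T := by positivity
  have main : ∀ v : ℝ, (A.card : ℝ) / 2 ≤ (A.filter (fun a => 10 * κ * T ≤ |a + v|)).card →
      ∃ A1 ⊆ A, ∃ α : ℝ, (∀ a ∈ A1, |a - α| ≤ κ * T) ∧
        (∀ a ∈ A1, 10 * κ * T ≤ |a + v|) ∧ 1 / (2 * N) * A.card ≤ (A1.card : ℝ) := by
    intro v hv2
    set A' := A.filter (fun a => 10 * κ * T ≤ |a + v|) with hA'
    obtain ⟨x0, -, -, hx0⟩ := pig A' (-(2 * K * T)) (κ * T) (by positivity) N hNpos (by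
      intro x hx
      rw [hA', Finset.mem_filter] at hx
      have h1 := abs_le.1 (hA x hx.1)
      have h2 : 0 < K * T := by positivity
      have h3 : 3 * (K * T) ≤ N * (κ * T) := by
        rw [div_le_iff₀ hκ] at hN1
        calc 3 * (K * T) = (3 * K) * T := by ring
          _ ≤ (N * κ) * T := by gcongr
          _ = _ := by ring
      constructor
      · linarith
      · linarith)
    refine ⟨A'.filter (fun x => x0 < x ∧ x ≤ x0 + κ * T), ?_, x0, ?_, ?_, ?_⟩
    · exact (Finset.filter_subset _ _).trans (Finset.filter_subset _ _)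
    · intro a ha
      rw [Finset.mem_filter] at ha
      rw [abs_le]
      constructor <;> linarith [ha.2.1, ha.2.2]
    · intro a ha
      rw [Finset.mem_filter, hA', Finset.mem_filter] at ha
      exact ha.1.2
    · have h1 : (A.card : ℝ) / 2 ≤ N * ((A'.filter (fun x => x0 < x ∧ x ≤ x0 + κ * T)).card : ℝ) :=
        hv2.trans hx0
      calc 1 / (2 * N) * (A.card : ℝ) = ((A.card : ℝ) / 2) / N := by field_simp
        _ ≤ _ := by rw [div_le_iff₀ hN0]; linarith
  have hun : A ⊆ A.filter (fun a => 10 * κ * T ≤ |a + v1|) ∪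
      A.filter (fun a => 10 * κ * T ≤ |a + v2|) := by
    intro a ha
    rw [Finset.mem_union, Finset.mem_filter, Finset.mem_filter]
    by_contra hcon
    push Not at hcon
    have h1 := hcon.1 ha
    have h2 := hcon.2 ha
    have h3 : v1 - v2 = (a + v1) - (a + v2) := by ring
    rw [h3] at hv
    have h4 : |(a + v1) - (a + v2)| ≤ |a + v1| + |a + v2| := by
      have := norm_sub_le (a + v1) (a + v2)
      simpa [Real.norm_eq_abs] using this
    linarith
  have hc1 := (Finset.card_le_card hun).trans (Finset.card_union_le _ _)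
  have hc2 : (A.card : ℝ) ≤ ((A.filter (fun a => 10 * κ * T ≤ |a + v1|)).card : ℝ) +
      ((A.filter (fun a => 10 * κ * T ≤ |a + v2|)).card : ℝ) := by exact_mod_cast hc1
  rcases le_total ((A.filter (fun a => 10 * κ * T ≤ |a + v1|)).card : ℝ)
    ((A.filter (fun a => 10 * κ * T ≤ |a + v2|)).card : ℝ) with h | h
  · obtain ⟨A1, h1, α, h2, h3, h4⟩ := main v2 (by linarith)
    exact ⟨A1, h1, α, h2, Or.inr h3, h4⟩
  · obtain ⟨A1, h1, α, h2, h3, h4⟩ := main v1 (by linarith)
    exact ⟨A1, h1, α, h2, Or.inl h3, h4⟩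

/-- a block of the set of zeros, without clusters -/
lemma blockB (K η s κ : ℝ) (hK : 1 ≤ K) (hη : 0 < η) (hs : s ≠ 0) (hκ : 0 < κ) :
    ∃ K1 η1 T1 : ℝ, 1 ≤ K1 ∧ 0 < η1 ∧ ∀ T : ℝ, T1 ≤ T → ∀ B : Finset ℝ,
      (∀ b ∈ B, 0 < b ∧ b ≤ K * T ∧ riemannZeta (1 / 2 + I * (b : ℂ)) = 0) →
      η * T * Real.log T ≤ B.card →
      ∃ B1 ⊆ B, ∃ β : ℝ, (∀ b ∈ B1, |s * b - β| ≤ κ * T) ∧ η1 * T * Real.log T ≤ B1.card ∧
        ∀ X : ℝ, κ * T ≤ X → ∀ y : ℝ,
          ((B1.filter (fun b => |s * b - y| ≤ 1 / Real.log X)).card : ℝ) ≤ K1 := by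
  classical
  obtain ⟨C5, hC5, hzc⟩ := Pool.Agent.H452R4.LI.zc
  obtain ⟨ε0, hε0⟩ : ∃ ε0 : ℝ, ε0 = η / (8 * C5) := ⟨_, rfl⟩
  have hε0p : 0 < ε0 := by rw [hε0]; positivity
  have hs0 : 0 < |s| := abs_pos.2 hs
  obtain ⟨l, hl⟩ : ∃ l : ℝ, l = min ε0 (κ / |s|) := ⟨_, rfl⟩
  have hl0 : 0 < l := by rw [hl]; exact lt_min hε0p (by positivity)
  have hl1 : l ≤ ε0 := by rw [hl]; exact min_le_left _ _
  have hl2 : |s| * l ≤ κ := by
    have h1 : l ≤ κ / |s| := by rw [hl]; exact min_le_right _ _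
    rw [le_div_iff₀ hs0] at h1
    linarith
  obtain ⟨N, hN⟩ : ∃ N : ℕ, N = ⌈K / l⌉₊ := ⟨_, rfl⟩
  have hN1 : K / l ≤ N := by rw [hN]; exact Nat.le_ceil _
  have hN2 : (N : ℝ) ≤ K / l + 1 := by rw [hN]; exact (Nat.ceil_lt_add_one (by positivity)).le
  have hN0 : (0 : ℝ) < N := lt_of_lt_of_le (by positivity) hN1
  have hNpos : 1 ≤ N := by exact_mod_cast hN0
  obtain ⟨K3, hK3⟩ : ∃ K3 : ℝ, K3 = K + 2 * ε0 := ⟨_, rfl⟩
  have hK31 : 1 ≤ K3 := by rw [hK3]; linarith
  have hK3N : ε0 + N * l ≤ K3 := by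
    have h1 : N * l ≤ K + l := by
      calc (N : ℝ) * l ≤ (K / l + 1) * l := by gcongr
        _ = K + l := by field_simp
    rw [hK3]; linarith
  obtain ⟨R, hR⟩ : ∃ R : ℝ, R = max 1 (8 / |s|) := ⟨_, rfl⟩
  have hR1 : 1 ≤ R := by rw [hR]; exact le_max_left _ _
  have hR2 : 8 / |s| ≤ R := by rw [hR]; exact le_max_right _ _
  obtain ⟨K1, T0, hK1, hclus⟩ := clus R (η / (8 * N * K3)) hR1 (by positivity)
  refine ⟨K1, η / (4 * N), max (max (max K 3) (max K3 (T0 / ε0))) (max (Real.exp 1 / ε0)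
    (max (1 / κ ^ 2) (Real.exp 1))), hK1, by positivity, ?_⟩
  intro T hT B hB cB
  have hTK : K ≤ T := (le_max_left _ _).trans ((le_max_left _ _).trans ((le_max_left _ _).trans hT))
  have hT3 : 3 ≤ T := (le_max_right _ _).trans ((le_max_left _ _).trans ((le_max_left _ _).trans hT))
  have hTK3 : K3 ≤ T :=
    (le_max_left _ _).trans ((le_max_right _ _).trans ((le_max_left _ _).trans hT))
  have hTT0 : T0 / ε0 ≤ T :=
    (le_max_right _ _).trans ((le_max_right _ _).trans ((le_max_left _ _).trans hT))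
  have hTε : Real.exp 1 / ε0 ≤ T := (le_max_left _ _).trans ((le_max_right _ _).trans hT)
  have hTκ : 1 / κ ^ 2 ≤ T :=
    (le_max_left _ _).trans ((le_max_right _ _).trans ((le_max_right _ _).trans hT))
  have hTe : Real.exp 1 ≤ T :=
    (le_max_right _ _).trans ((le_max_right _ _).trans ((le_max_right _ _).trans hT))
  have hT0 : 0 < T := by linarith
  have hL : 1 ≤ Real.log T := (Real.le_log_iff_exp_le hT0).2 hTe
  set L := Real.log T with hLd
  have hL0 : 0 < L := by linarith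
  have hεTe : Real.exp 1 ≤ ε0 * T := by
    rw [div_le_iff₀ hε0p] at hTε; linarith
  have hεT : 1 ≤ ε0 * T := (Real.one_le_exp (by norm_num)).trans hεTe
  have hKT : 3 ≤ K * T := by nlinarith
  have dB := hzc (K * T) B hKT hB
  have hlogKT : Real.log (K * T) ≤ 2 * L := log_two_mul K hK T hTK
  -- remove the low zeros
  set B' := B.filter (fun b => ε0 * T < b) with hB'
  have hrem : ((B.filter (fun b => ¬ ε0 * T < b)).card : ℝ) ≤ η / 2 * T * L := by
    have h1 := dens_interval dB 0 (ε0 * T) (by positivity)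
    have h2 : (B.filter (fun b => ¬ ε0 * T < b)) ⊆ B.filter (fun a => 0 ≤ a ∧ a ≤ 0 + ε0 * T) := by
      intro b hb
      rw [Finset.mem_filter] at hb ⊢
      obtain ⟨h3, h4⟩ := hb
      push Not at h4
      exact ⟨h3, (hB b h3).1.le, by linarith⟩
    have h3 : ((B.filter (fun b => ¬ ε0 * T < b)).card : ℝ) ≤
        C5 * Real.log (K * T) * (ε0 * T + 1) := le_trans (by exact_mod_cast Finset.card_le_card h2) h1
    refine h3.trans ?_
    calc C5 * Real.log (K * T) * (ε0 * T + 1) ≤ C5 * (2 * L) * (ε0 * T + ε0 * T) := by gcongr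
      _ = 4 * C5 * ε0 * (T * L) := by ring
      _ = η / 2 * T * L := by rw [hε0]; field_simp; ring
  have hcard : (B.card : ℝ) = B'.card + (B.filter (fun b => ¬ ε0 * T < b)).card := by
    rw [hB']
    exact_mod_cast (Finset.card_filter_add_card_filter_not (s := B) (fun b => ε0 * T < b)).symm
  have hB'c : η / 2 * T * L ≤ B'.card := by linarith
  obtain ⟨x0, hx0a, hx0b, hx0⟩ := pig B' (ε0 * T) (l * T) (by positivity) N hNpos (by
    intro x hx
    rw [hB', Finset.mem_filter] at hx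
    have h1 := (hB x hx.1).2.1
    have h3 : K * T ≤ N * (l * T) := by
      rw [div_le_iff₀ hl0] at hN1
      calc K * T ≤ (N * l) * T := by gcongr
        _ = _ := by ring
    refine ⟨hx.2, ?_⟩
    have : 0 < ε0 * T := by positivity
    linarith)
  have hx0pos : 0 < x0 := lt_of_lt_of_le (by positivity) hx0a
  have hx0K : x0 ≤ K3 * T := by
    refine hx0b.trans ?_
    calc ε0 * T + N * (l * T) = (ε0 + N * l) * T := by ring
      _ ≤ K3 * T := by gcongr
  have hx0T0 : T0 ≤ x0 := by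
    refine le_trans ?_ hx0a
    rw [div_le_iff₀ hε0p] at hTT0
    linarith
  have hx0one : 1 ≤ x0 := hεT.trans hx0a
  have hlx : 0 < Real.log x0 := by
    have h1 : 1 ≤ Real.log x0 := (Real.le_log_iff_exp_le hx0pos).2 (hεTe.trans hx0a)
    linarith
  have hlogx0 : Real.log x0 ≤ 2 * L :=
    (Real.log_le_log hx0pos hx0K).trans (log_two_mul K3 hK31 T hTK3)
  set B2 := B'.filter (fun x => x0 < x ∧ x ≤ x0 + l * T) with hB2
  have hB2B : ∀ b ∈ B2, b ∈ B ∧ x0 < b ∧ b ≤ x0 + l * T := by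
    intro b hb
    rw [hB2, Finset.mem_filter, hB', Finset.mem_filter] at hb
    exact ⟨hb.1.1, hb.2.1, hb.2.2⟩
  have hB2c : η / (2 * N) * T * L ≤ B2.card := by
    have h1 : η / 2 * T * L ≤ N * (B2.card : ℝ) := hB'c.trans hx0
    calc η / (2 * N) * T * L = (η / 2 * T * L) / N := by field_simp
      _ ≤ _ := by rw [div_le_iff₀ hN0]; linarith
  have hcl := hclus x0 hx0T0 B2 (by
    intro b hb
    obtain ⟨h1, h2, h3⟩ := hB2B b hb
    refine ⟨h2, ?_, (hB b h1).2.2⟩
    have : l * T ≤ ε0 * T := by gcongr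
    linarith)
  set B1 := B2.filter (fun γ => ¬ K1 <
    ((B2.filter (fun γ' => |γ' - γ| ≤ R / Real.log x0)).card : ℝ)) with hB1
  have hcard2 : (B2.card : ℝ) = (B2.filter (fun γ => K1 <
      ((B2.filter (fun γ' => |γ' - γ| ≤ R / Real.log x0)).card : ℝ))).card + B1.card := by
    rw [hB1]
    exact_mod_cast (Finset.card_filter_add_card_filter_not (s := B2) _).symm
  have hcl2 : η / (8 * N * K3) * x0 * Real.log x0 ≤ η / (4 * N) * T * L := by
    calc η / (8 * N * K3) * x0 * Real.log x0 ≤ η / (8 * N * K3) * (K3 * T) * (2 * L) := by gcongr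
      _ = η / (4 * N) * T * L := by field_simp; ring
  refine ⟨B1, ?_, s * x0, ?_, ?_, ?_⟩
  · intro b hb
    rw [hB1, Finset.mem_filter] at hb
    exact (hB2B b hb.1).1
  · intro b hb
    rw [hB1, Finset.mem_filter] at hb
    obtain ⟨h1, h2, h3⟩ := hB2B b hb.1
    rw [← mul_sub, abs_mul, abs_of_pos (by linarith : 0 < b - x0)]
    calc |s| * (b - x0) ≤ |s| * (l * T) := by gcongr; linarith
      _ = (|s| * l) * T := by ring
      _ ≤ κ * T := by gcongr
  · have h5 : η / (2 * N) * T * L = η / (4 * N) * T * L + η / (4 * N) * T * L := by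
      field_simp; ring
    linarith
  · intro X hX y
    have hκT : 0 < κ * T := by positivity
    have hX0 : 0 < X := hκT.trans_le hX
    have hlogX : L ≤ 2 * Real.log X := by
      have h1 : Real.log (κ * T) ≤ Real.log X := Real.log_le_log hκT hX
      rw [Real.log_mul hκ.ne' hT0.ne'] at h1
      have h2 : Real.log (1 / κ ^ 2) ≤ L := Real.log_le_log (by positivity) hTκ
      rw [one_div, Real.log_inv, Real.log_pow] at h2
      push_cast at h2
      linarith
    have hlogX0 : 0 < Real.log X := by linarith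
    rcases (B1.filter (fun b => |s * b - y| ≤ 1 / Real.log X)).eq_empty_or_nonempty with he | ⟨b0, hb0⟩
    · rw [he]; simp; linarith
    · rw [Finset.mem_filter] at hb0
      have hb01 := hb0.1
      rw [hB1, Finset.mem_filter] at hb01
      have h1 := hb01.2
      push Not at h1
      refine le_trans ?_ h1
      have h2 : (B1.filter (fun b => |s * b - y| ≤ 1 / Real.log X)) ⊆
          (B2.filter (fun γ' => |γ' - b0| ≤ R / Real.log x0)) := by
        intro b hb
        rw [Finset.mem_filter] at hb ⊢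
        have hb1 := hb.1
        rw [hB1, Finset.mem_filter] at hb1
        refine ⟨hb1.1, ?_⟩
        have h3 : |s| * |b - b0| ≤ 2 / Real.log X := by
          rw [← abs_mul]
          have h4 : s * (b - b0) = (s * b - y) - (s * b0 - y) := by ring
          rw [h4]
          refine (abs_sub _ _).trans ?_
          calc |s * b - y| + |s * b0 - y| ≤ 1 / Real.log X + 1 / Real.log X :=
                add_le_add hb.2 hb0.2
            _ = 2 / Real.log X := by ring
        have h5 : |b - b0| ≤ (8 / |s|) / Real.log x0 := by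
          rw [div_div, le_div_iff₀ (by positivity)]
          calc |b - b0| * (|s| * Real.log x0) = (|s| * |b - b0|) * Real.log x0 := by ring
            _ ≤ (2 / Real.log X) * (4 * Real.log X) := by
              apply mul_le_mul h3 _ hlx.le (by positivity)
              linarith
            _ = 8 := by field_simp; norm_num
        refine h5.trans ?_
        gcongr
      exact_mod_cast Finset.card_le_card h2

/-- two such blocks at a positive distance -/
lemma blockBB (K η s : ℝ) (hK : 1 ≤ K) (hη : 0 < η) (hs : s ≠ 0) :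
    ∃ κ K1 η1 T1 : ℝ, 0 < κ ∧ 1 ≤ K1 ∧ 0 < η1 ∧ ∀ T : ℝ, T1 ≤ T → ∀ B : Finset ℝ,
      (∀ b ∈ B, 0 < b ∧ b ≤ K * T ∧ riemannZeta (1 / 2 + I * (b : ℂ)) = 0) →
      η * T * Real.log T ≤ B.card →
      ∃ β1 β2 : ℝ, 20 * κ * T ≤ |β1 - β2| ∧ ∀ β : ℝ, (β = β1 ∨ β = β2) → ∃ B1 ⊆ B,
        (∀ b ∈ B1, |s * b - β| ≤ κ * T) ∧ η1 * T * Real.log T ≤ B1.card ∧
        ∀ X : ℝ, κ * T ≤ X → ∀ y : ℝ,
          ((B1.filter (fun b => |s * b - y| ≤ 1 / Real.log X)).card : ℝ) ≤ K1 := by
  classical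
  obtain ⟨C5, hC5, hzc⟩ := Pool.Agent.H452R4.LI.zc
  have hs0 : 0 < |s| := abs_pos.2 hs
  obtain ⟨κ, hκ⟩ : ∃ κ : ℝ, κ = η * |s| / (180 * C5) := ⟨_, rfl⟩
  have hκ0 : 0 < κ := by rw [hκ]; positivity
  obtain ⟨K1, η1, T1, hK1, hη1, h1⟩ := blockB K η s κ hK hη hs hκ0
  obtain ⟨K2, η2, T2, hK2, hη2, h2⟩ := blockB K (η / 2) s κ hK (by positivity) hs hκ0
  refine ⟨κ, max K1 K2, min η1 η2, max (max T1 T2) (max (max K 3) (|s| / κ)), hκ0,
    hK1.trans (le_max_left _ _), lt_min hη1 hη2, ?_⟩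
  intro T hT B hB cB
  have hTT1 : T1 ≤ T := (le_max_left _ _).trans ((le_max_left _ _).trans hT)
  have hTT2 : T2 ≤ T := (le_max_right _ _).trans ((le_max_left _ _).trans hT)
  have hTK : K ≤ T := (le_max_left _ _).trans ((le_max_left _ _).trans ((le_max_right _ _).trans hT))
  have hT3 : 3 ≤ T := (le_max_right _ _).trans ((le_max_left _ _).trans ((le_max_right _ _).trans hT))
  have hTκ : |s| / κ ≤ T := (le_max_right _ _).trans ((le_max_right _ _).trans hT)
  have hT0 : 0 < T := by linarith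
  have hL : 0 < Real.log T := Real.log_pos (by linarith)
  set L := Real.log T with hLd
  have hTL : 0 < T * L := by positivity
  have hKT : 3 ≤ K * T := hT3.trans (le_mul_of_one_le_left hT0.le hK)
  obtain ⟨B1, hB1B, β1, hβ1, cB1, hcl1⟩ := h1 T hTT1 B hB cB
  obtain ⟨B', hB'⟩ : ∃ B' : Finset ℝ, B' = B.filter (fun b => 22 * κ * T ≤ |s * b - β1|) := ⟨_, rfl⟩
  have hrem : ((B.filter (fun b => ¬ 22 * κ * T ≤ |s * b - β1|)).card : ℝ) ≤ η / 2 * T * L := by
    have dB := hzc (K * T) B hKT hB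
    have hlogKT : Real.log (K * T) ≤ 2 * L := log_two_mul K hK T hTK
    have e1 := dens_interval dB (β1 / s - 22 * κ * T / |s|) (44 * κ * T / |s|) (by positivity)
    have e2 : (B.filter (fun b => ¬ 22 * κ * T ≤ |s * b - β1|)) ⊆
        B.filter (fun a => β1 / s - 22 * κ * T / |s| ≤ a ∧
          a ≤ β1 / s - 22 * κ * T / |s| + 44 * κ * T / |s|) := by
      intro b hb
      rw [Finset.mem_filter] at hb ⊢
      obtain ⟨h3, h4⟩ := hb
      push Not at h4
      have h5 : |b - β1 / s| ≤ 22 * κ * T / |s| := by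
        rw [le_div_iff₀ hs0, ← abs_mul]
        have : (b - β1 / s) * s = s * b - β1 := by field_simp
        rw [this]; exact h4.le
      have h6 := abs_le.1 h5
      have h7 : 44 * κ * T / |s| = 22 * κ * T / |s| + 22 * κ * T / |s| := by ring
      exact ⟨h3, by linarith, by linarith⟩
    have e3 : ((B.filter (fun b => ¬ 22 * κ * T ≤ |s * b - β1|)).card : ℝ) ≤
        C5 * Real.log (K * T) * (44 * κ * T / |s| + 1) :=
      le_trans (by exact_mod_cast Finset.card_le_card e2) e1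
    refine e3.trans ?_
    have e4 : 1 ≤ κ * T / |s| := by
      rw [div_le_iff₀ hκ0] at hTκ
      rw [le_div_iff₀ hs0]; linarith
    calc C5 * Real.log (K * T) * (44 * κ * T / |s| + 1)
        ≤ C5 * (2 * L) * (44 * κ * T / |s| + κ * T / |s|) := by gcongr
      _ = 90 * C5 * κ / |s| * (T * L) := by ring
      _ = η / 2 * T * L := by rw [hκ]; field_simp; ring
  have hcard : (B.card : ℝ) = B'.card + (B.filter (fun b => ¬ 22 * κ * T ≤ |s * b - β1|)).card := by
    rw [hB']
    exact_mod_cast (Finset.card_filter_add_card_filter_not (s := B)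
      (fun b => 22 * κ * T ≤ |s * b - β1|)).symm
  have hB'B : B' ⊆ B := by rw [hB']; exact Finset.filter_subset _ _
  obtain ⟨B2, hB2B, β2, hβ2, cB2, hcl2⟩ := h2 T hTT2 B' (fun b hb => hB b (hB'B hb)) (by
    rw [← hLd]
    have : η * T * L = η / 2 * T * L + η / 2 * T * L := by ring
    linarith)
  rw [← hLd] at cB1 cB2
  have hB2pos : 0 < (B2.card : ℝ) := lt_of_lt_of_le (by positivity) cB2
  obtain ⟨b0, hb0⟩ : B2.Nonempty := Finset.card_pos.1 (by exact_mod_cast hB2pos)
  refine ⟨β1, β2, ?_, ?_⟩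
  · have h3 := hB2B hb0
    rw [hB', Finset.mem_filter] at h3
    have h4 := h3.2
    have h5 := hβ2 b0 hb0
    have h6 : s * b0 - β1 = (s * b0 - β2) - (β1 - β2) := by ring
    rw [h6] at h4
    have h7 : |(s * b0 - β2) - (β1 - β2)| ≤ |s * b0 - β2| + |β1 - β2| := by
      have := norm_sub_le (s * b0 - β2) (β1 - β2)
      simpa [Real.norm_eq_abs] using this
    have h8 : 0 < κ * T := by positivity
    linarith
  · intro β hβ
    rcases hβ with rfl | rfl
    · refine ⟨B1, hB1B, hβ1, ?_, ?_⟩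
      · refine le_trans ?_ cB1
        gcongr
        exact min_le_left _ _
      · intro X hX y
        exact (hcl1 X hX y).trans (le_max_left _ _)
    · refine ⟨B2, hB2B.trans hB'B, hβ2, ?_, ?_⟩
      · refine le_trans ?_ cB2
        gcongr
        exact min_le_right _ _
      · intro X hX y
        exact (hcl2 X hX y).trans (le_max_right _ _)

end Pool.Agent.TH801.TU
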