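import Pool.Agent.W571.SD.Dy
import Pool.Agent.W186.SD.MainD
import Pool.Agent.W655.SD.SC2
import Pool.Agent.W688.SD.SHar
import Pool.Agent.W261.SD.SSq
import Pool.Agent.W32.SD.SCount
import Pool.Agent.W347.SD.SB2
import Pool.Agent.H452R4.LI.ZC

set_option autoImplicit false

/-!
# Few zeros of the zeta function lie in clusters

For every `ε` there is `K` such that at most `ε T log T` zeros on the critical line with ordinate in
`(T, 2T]` have more than `K` such zeros within `R / log T`.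
-/

namespace Pool.Agent.TH801.TU

open Complex Filter Topology MeasureTheory Set
open Pool.Agent.H24R2.JP (XX HH Om)
open Pool.Agent.H24R2.DZ
open Pool.Agent.W571.SD

lemma XX_zero (γ : ℝ) (hγ : 0 < γ) (hz : riemannZeta (1 / 2 + I * (γ : ℂ)) = 0) :
    XX (I * (γ : ℂ)) = 0 := by
  have him : 0 < (I * (γ : ℂ)).im := by simpa using hγ
  rw [Pool.Agent.H24R2.JP.zetaS.1 _ him, hz, mul_zero]

lemma emb_inj : Function.Injective (fun γ : ℝ => I * (γ : ℂ)) := by
  intro a b h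
  have := congrArg Complex.im h
  simpa using this

lemma arith_aux (a b c r q : ℝ) (h2 : a ≤ b + c) (h5 : b ≤ q) (h3 : q ≤ r / 2)
    (h6 : c ≤ r / 100) (h4 : 0 < r) : a ≤ r := by linarith

/-- counting zeros near a good point -/
lemma near_count {η C4 : ℝ} (hcount : ∀ (a r t0 : ℝ) (n : ℕ) (f : ℂ → ℂ), 1 ≤ a → (n : ℝ) ≤ a →
    0 < r → Differentiable ℂ f → NN a η (fun z => f (I * t0 + r * z)) → ∀ S : Finset ℂ,
    (∀ s ∈ S, ‖s - I * t0‖ ≤ 6 * r ∧ iteratedDeriv n f s = 0) →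
    ∑ s ∈ S, (analyticOrderNatAt (iteratedDeriv n f) s : ℝ) ≤ C4 * a)
    (T t' a : ℝ) (ha : 1 ≤ a) (hr : 0 < ra T a)
    (hN : NN a η (fun z => XX (I * t' + ra T a * z))) (A : Finset ℝ)
    (hA : ∀ γ ∈ A, 0 < γ ∧ riemannZeta (1 / 2 + I * (γ : ℂ)) = 0 ∧ |γ - t'| ≤ ra T a) :
    (A.card : ℝ) ≤ C4 * a := by
  have h1 := hcount a (ra T a) t' 0 XX ha (by simp; linarith) hr XX_diff hN
    (A.image (fun γ : ℝ => I * (γ : ℂ))) (by
      intro s hs
      obtain ⟨γ, hγ, rfl⟩ := Finset.mem_image.1 hs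
      obtain ⟨h2, h3, h4⟩ := hA γ hγ
      constructor
      · rw [← mul_sub, norm_mul, Complex.norm_I, one_mul, ← Complex.ofReal_sub, Complex.norm_real,
          Real.norm_eq_abs]
        linarith
      · rw [iteratedDeriv_zero]
        exact XX_zero γ h2 h3)
  refine le_trans ?_ h1
  rw [Finset.sum_image (fun a _ b _ h => emb_inj h)]
  calc (A.card : ℝ) = ∑ _γ ∈ A, (1 : ℝ) := by rw [Finset.sum_const, nsmul_eq_mul, mul_one]
    _ ≤ _ := Finset.sum_le_sum fun γ hγ => by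
      obtain ⟨h2, h3, h4⟩ := hA γ hγ
      exact one_le_wt 0 (I * (γ : ℂ)) (by rw [iteratedDeriv_zero]; exact XX_zero γ h2 h3)

theorem clus (R ε : ℝ) (hR : 1 ≤ R) (hε : 0 < ε) : ∃ K T0 : ℝ, 1 ≤ K ∧ ∀ T : ℝ, T0 ≤ T →
    ∀ A : Finset ℝ, (∀ γ ∈ A, T < γ ∧ γ ≤ 2 * T ∧ riemannZeta (1 / 2 + I * (γ : ℂ)) = 0) →
    ((A.filter (fun γ => K < ((A.filter (fun γ' => |γ' - γ| ≤ R / Real.log T)).card : ℝ))).card : ℝ) ≤
      ε * T * Real.log T := by
  classical
  obtain ⟨η, C4, hη, hC4, hcount⟩ := Pool.Agent.W32.SD.scount Pool.Agent.W347.SD.sb2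
  obtain ⟨η1, ε1, hη1, hε1, hsc2⟩ :=
    Pool.Agent.W655.SD.sc2 Pool.Agent.W261.SD.ssq Pool.Agent.W688.SD.shar η hη
  obtain ⟨θ, c1, C1, a1, T1, hθ, hθ', hc1, hC1, ha1, hT1, hsc1⟩ :=
    Pool.Agent.W186.SD.sc1 η1 ε1 hη1 hε1
  obtain ⟨a2, T2, hsc2'⟩ := hsc2 θ hθ hθ'
  obtain ⟨C5, hC5, hzc⟩ := Pool.Agent.H452R4.LI.zc
  have hq1 : Real.exp (-c1) < 1 := Real.exp_lt_one_iff.2 (by linarith)
  set Q : ℝ := 1 / (1 - Real.exp (-c1)) with hQ
  have hQ0 : 0 < Q := by rw [hQ]; apply one_div_pos.2; linarith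
  set E0 : ℝ := 20000 * C5 * C1 + 50 * C4 * C1 * Q with hE0
  have hE0p : 0 < E0 := by positivity
  obtain ⟨n, hn⟩ := exists_nat_ge (E0 / (ε * c1) + |a1| + |a2| + R + 1)
  have hq0 : 0 < E0 / (ε * c1) := by positivity
  have habs1 := abs_nonneg a1
  have habs2 := abs_nonneg a2
  have hnE : E0 / (ε * c1) ≤ n := by linarith
  have hna1 : a1 ≤ n := by linarith [le_abs_self a1]
  have hna2 : a2 ≤ n := by linarith [le_abs_self a2]
  have hnR : R ≤ n := by linarith
  have hn1' : (1 : ℝ) ≤ n := by linarith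
  have hn1 : 1 ≤ n := by exact_mod_cast hn1'
  have hexp : E0 * Real.exp (-(c1 * n)) ≤ ε := by
    have h1 : c1 * n ≤ Real.exp (c1 * n) := by
      have := Real.add_one_le_exp (c1 * n)
      linarith
    rw [div_le_iff₀ (by positivity)] at hnE
    rw [Real.exp_neg, ← div_eq_mul_inv, div_le_iff₀ (Real.exp_pos _)]
    calc E0 ≤ n * (ε * c1) := hnE
      _ = ε * (c1 * n) := by ring
      _ ≤ ε * Real.exp (c1 * n) := mul_le_mul_of_nonneg_left h1 hε.le
  refine ⟨max 1 (C4 * n), max (max T1 T2) (max (Real.exp (400 * n)) 1000), le_max_left _ _, ?_⟩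
  intro T hT A hA
  have hTT1 : T1 ≤ T := ((le_max_left _ _).trans (le_max_left _ _)).trans hT
  have hTT2 : T2 ≤ T := ((le_max_right _ _).trans (le_max_left _ _)).trans hT
  have hTe : Real.exp (400 * n) ≤ T := ((le_max_left _ _).trans (le_max_right _ _)).trans hT
  have hT1000 : 1000 ≤ T := ((le_max_right _ _).trans (le_max_right _ _)).trans hT
  have hT0 : 0 < T := by linarith
  have hnL400 : 400 * (n : ℝ) ≤ Real.log T := (Real.le_log_iff_exp_le hT0).2 hTe
  set L := Real.log T with hL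
  have hnL : (n : ℝ) ≤ L / 400 := by linarith
  have hL400 : 400 ≤ L := by linarith
  have hL0 : 0 < L := by linarith
  have hlog2 : Real.log (2 * T) ≤ 2 * L := by
    rw [Real.log_mul (by norm_num) hT0.ne']
    have : Real.log 2 ≤ 1 := by
      have := Real.log_le_sub_one_of_pos (show (0 : ℝ) < 2 by norm_num)
      linarith
    linarith
  have hdens := hzc (2 * T) A (by linarith) (fun γ hγ => ⟨by linarith [(hA γ hγ).1], (hA γ hγ).2.1,
    (hA γ hγ).2.2⟩)
  obtain ⟨J, hJ1, hJ2, hJ3⟩ := exists_J hn1 hnL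
  have hr : ∀ j : ℕ, ra T (2 ^ j * n) = 2 * (2 ^ j * n) / L := fun j => ra_eq _ _
  have hrpos : ∀ j : ℕ, 0 < ra T (2 ^ j * n) := by
    intro j; rw [hr]; positivity
  have hrJ1 : ra T (2 ^ J * n) ≤ 1 / 100 := by
    rw [hr, div_le_iff₀ hL0]; linarith
  have hrJ2 : 1 / 200 < ra T (2 ^ J * n) := by
    rw [hr, lt_div_iff₀ hL0]; linarith
  have hpow : ∀ j : ℕ, j ≤ J → (2 : ℝ) ^ j * n ≤ L / 200 := by
    intro j hj
    refine le_trans ?_ hJ2
    apply mul_le_mul_of_nonneg_right _ (by positivity)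
    exact pow_le_pow_right₀ (by norm_num) hj
  have hpow1 : ∀ j : ℕ, (n : ℝ) ≤ 2 ^ j * n := by
    intro j
    exact le_mul_of_one_le_left (by positivity) (one_le_pow₀ (by norm_num))
  have hrj : ∀ j : ℕ, j ≤ J → ra T (2 ^ j * n) ≤ 1 / 100 := by
    intro j hj
    rw [hr, div_le_iff₀ hL0]
    have := hpow j hj
    linarith
  -- bad heights
  have hBvol : ∀ j : ℕ, j ≤ J → volume (BB η T (2 ^ j * n)) ≤
      ENNReal.ofReal (C1 * T * Real.exp (-(c1 * (2 ^ j * n)))) := by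
    intro j hj
    refine le_trans (measure_mono ?_) (hsc1 T (2 ^ j * n) hTT1 (hna1.trans (hpow1 j)) (hpow j hj))
    intro t0 ht0
    refine ⟨ht0.1, ht0.2.1, fun hG => ht0.2.2 ?_⟩
    exact hsc2' T (2 ^ j * n) t0 hTT2 (hna2.trans (hpow1 j)) (hpow j hj) ht0.1 ht0.2.1 hG
  -- the clustered zeros
  set A1 := A.filter (fun γ => max 1 (C4 * n) <
    ((A.filter (fun γ' => |γ' - γ| ≤ R / L)).card : ℝ)) with hA1
  set S : Finset ℂ := A1.image (fun γ : ℝ => I * (γ : ℂ)) with hS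
  have hSA : ∀ s ∈ S, ∃ γ ∈ A1, s = I * (γ : ℂ) ∧ s.im = γ := by
    intro s hs
    obtain ⟨γ, hγ, rfl⟩ := Finset.mem_image.1 hs
    exact ⟨γ, hγ, rfl, by simp⟩
  have hnot0 : ∀ γ ∈ A1, ¬ GJ η T n 0 γ := by
    intro γ hγ hG
    obtain ⟨t', ht1, ht2⟩ := hG
    rw [hA1, Finset.mem_filter] at hγ
    have h1 : ((A.filter (fun γ' => |γ' - γ| ≤ R / L)).card : ℝ) ≤ C4 * (2 ^ 0 * n) := by
      apply near_count hcount T t' (2 ^ 0 * n) (hn1'.trans (hpow1 0)) (hrpos 0) ht2
      intro γ' hγ'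
      rw [Finset.mem_filter] at hγ'
      refine ⟨by linarith [(hA γ' hγ'.1).1], (hA γ' hγ'.1).2.2, ?_⟩
      have h2 : |γ' - t'| ≤ |γ' - γ| + |γ - t'| := abs_sub_le _ _ _
      have h3 : R / L ≤ ra T (2 ^ 0 * n) / 2 := by
        rw [hr 0, pow_zero, one_mul, div_div, div_le_div_iff₀ hL0 (by positivity)]
        nlinarith
      have h4 : 0 < ra T (2 ^ 0 * n) := hrpos 0
      have h5 : |γ' - γ| ≤ R / L := hγ'.2
      have h6 : |γ - t'| ≤ ra T (2 ^ 0 * n) / 100 := ht1
      exact arith_aux _ _ _ _ _ h2 h5 h3 h6 h4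
    rw [pow_zero, one_mul] at h1
    have h5 := hγ.2
    have h6 : C4 * n ≤ max 1 (C4 * n) := le_max_right _ _
    linarith
  have hcov : ∀ s ∈ S, ¬ GJ η T n J s.im ∨ False ∨
      ∃ i < J, ¬ GJ η T n i s.im ∧ GJ η T n (i + 1) s.im := by
    intro s hs
    obtain ⟨γ, hγ, -, him⟩ := hSA s hs
    by_cases hc : GJ η T n J s.im
    swap
    · exact Or.inl hc
    right; right
    have h0 : ¬ GJ η T n 0 s.im := by rw [him]; exact hnot0 γ hγ
    set i := Nat.findGreatest (fun j => ¬ GJ η T n j s.im) J with hi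
    have hi1 : ¬ GJ η T n i s.im :=
      Nat.findGreatest_spec (P := fun j => ¬ GJ η T n j s.im) (Nat.zero_le J) h0
    have hi2 : i ≤ J := Nat.findGreatest_le J
    have hi3 : i < J := by
      rcases hi2.lt_or_eq with h | h
      · exact h
      · rw [h] at hi1; exact absurd hc hi1
    refine ⟨i, hi3, hi1, ?_⟩
    by_contra hcon
    have := Nat.le_findGreatest (P := fun j => ¬ GJ η T n j s.im) (show i + 1 ≤ J from hi3) hcon
    rw [← hi] at this
    omega
  have hsplit := split3 (fun _ => (1 : ℝ)) (fun _ => zero_le_one) S (fun s => ¬ GJ η T n J s.im)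
    (fun _ => False) (fun i s => ¬ GJ η T n i s.im ∧ GJ η T n (i + 1) s.im) J hcov
  have hTS : ∀ s ∈ S, T < s.im ∧ s.im ≤ 2 * T := by
    intro s hs
    obtain ⟨γ, hγ, -, him⟩ := hSA s hs
    rw [hA1, Finset.mem_filter] at hγ
    rw [him]
    exact ⟨(hA γ hγ.1).1, (hA γ hγ.1).2.1⟩
  -- counting subsets of `S`
  have hsub : ∀ (S' : Finset ℂ) (hS' : S' ⊆ S) (s0 δ : ℝ) (W : ℝ)
      (hW : ((A.filter (fun γ => |γ - s0| ≤ 2 * δ)).card : ℝ) ≤ W),
      ∑ _s ∈ S'.filter (fun s' => |s'.im - s0| ≤ 2 * δ), (1 : ℝ) ≤ W := by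
    intro S' hS' s0 δ W hW
    refine le_trans ?_ hW
    rw [Finset.sum_const, nsmul_eq_mul, mul_one]
    have h1 : (S'.filter (fun s' => |s'.im - s0| ≤ 2 * δ)).card ≤
        (A.filter (fun γ => |γ - s0| ≤ 2 * δ)).card := by
      apply Finset.card_le_card_of_injOn (fun s => s.im)
      · intro s hs
        rw [Finset.mem_coe, Finset.mem_filter] at hs
        obtain ⟨γ, hγ, -, him⟩ := hSA s (hS' hs.1)
        rw [hA1, Finset.mem_filter] at hγ
        rw [Finset.mem_coe, Finset.mem_filter]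
        refine ⟨?_, hs.2⟩
        show s.im ∈ A
        rw [him]; exact hγ.1
      · intro s hs s' hs' hss
        rw [Finset.mem_coe, Finset.mem_filter] at hs hs'
        obtain ⟨γ, -, h1, him⟩ := hSA s (hS' hs.1)
        obtain ⟨γ', -, h1', him'⟩ := hSA s' (hS' hs'.1)
        dsimp only at hss
        rw [h1, h1', ← him, ← him', hss]
    exact_mod_cast h1
  -- the class (c)
  have hbc : ∑ _s ∈ S.filter (fun s => ¬ GJ η T n J s.im), (1 : ℝ) ≤
      20000 * C5 * C1 * T * Real.exp (-(c1 * n)) * L := by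
    have hδ0 : 0 < ra T (2 ^ J * n) / 100 := by have := hrpos J; positivity
    have h10 := cover (fun _ => (1 : ℝ)) (fun _ => zero_le_one) (fun s => s.im)
      (ra T (2 ^ J * n) / 100) (2 * C5 * L)
      hδ0 (by positivity) (S.filter (fun s => ¬ GJ η T n J s.im))
      (BB η T (2 ^ J * n)) (C1 * T * Real.exp (-(c1 * (2 ^ J * n)))) (by positivity)
      (by
        intro s hs
        rw [Finset.mem_filter] at hs
        obtain ⟨hs1, hs2⟩ := hTS s hs.1
        exact int_sub_B (by linarith) hs1 hs2 rfl (by linarith) hs.2)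
      (hBvol J le_rfl)
      (by
        intro s0 hs0
        apply hsub _ (Finset.filter_subset _ _)
        have h11 := hdens (s0.im - 2 * (ra T (2 ^ J * n) / 100))
        have h12 : C5 * Real.log (2 * T) ≤ 2 * C5 * L := by
          calc C5 * Real.log (2 * T) ≤ C5 * (2 * L) := mul_le_mul_of_nonneg_left hlog2 hC5.le
            _ = _ := by ring
        refine le_trans ?_ (h11.trans h12)
        have h13 : (A.filter (fun γ => |γ - s0.im| ≤ 2 * (ra T (2 ^ J * n) / 100))) ⊆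
            (A.filter (fun a => s0.im - 2 * (ra T (2 ^ J * n) / 100) ≤ a ∧
              a < s0.im - 2 * (ra T (2 ^ J * n) / 100) + 1)) := by
          intro γ hγ
          rw [Finset.mem_filter] at hγ ⊢
          have := abs_le.1 hγ.2
          exact ⟨hγ.1, by linarith, by linarith⟩
        exact_mod_cast Finset.card_le_card h13)
    refine h10.trans ?_
    rw [div_le_iff₀ (by positivity)]
    have h14 : Real.exp (-(c1 * (2 ^ J * n))) ≤ Real.exp (-(c1 * n)) := by
      apply Real.exp_le_exp.2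
      have := mul_le_mul_of_nonneg_left (hpow1 J) hc1.le
      linarith
    have h15 : (1 : ℝ) / 10000 ≤ 2 * (ra T (2 ^ J * n) / 100) := by linarith
    have h16 : 0 ≤ 20000 * C5 * C1 * T * Real.exp (-(c1 * n)) * L := by positivity
    calc 2 * C5 * L * (C1 * T * Real.exp (-(c1 * (2 ^ J * n))))
        ≤ 2 * C5 * L * (C1 * T * Real.exp (-(c1 * n))) := by gcongr
      _ = 20000 * C5 * C1 * T * Real.exp (-(c1 * n)) * L * (1 / 10000) := by ring
      _ ≤ _ := mul_le_mul_of_nonneg_left h15 h16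
  -- the classes (b)
  have hbi : ∀ i ∈ Finset.range J, ∑ _s ∈ S.filter (fun s => ¬ GJ η T n i s.im ∧
      GJ η T n (i + 1) s.im), (1 : ℝ) ≤
      50 * C4 * C1 * T * L * Real.exp (-(c1 * (2 ^ i * n))) := by
    intro i hi
    rw [Finset.mem_range] at hi
    have hri := hrpos i
    have hri1 := hrpos (i + 1)
    have hdouble : ra T (2 ^ (i + 1) * n) = 2 * ra T (2 ^ i * n) := by
      rw [hr, hr, pow_succ]; ring
    have hδ0 : 0 < ra T (2 ^ i * n) / 100 := by positivity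
    have h10 := cover (fun _ => (1 : ℝ)) (fun _ => zero_le_one) (fun s => s.im)
      (ra T (2 ^ i * n) / 100)
      (C4 * (2 ^ (i + 1) * n)) hδ0 (by positivity)
      (S.filter (fun s => ¬ GJ η T n i s.im ∧ GJ η T n (i + 1) s.im))
      (BB η T (2 ^ i * n)) (C1 * T * Real.exp (-(c1 * (2 ^ i * n)))) (by positivity)
      (by
        intro s hs
        rw [Finset.mem_filter] at hs
        obtain ⟨hs1, hs2⟩ := hTS s hs.1
        exact int_sub_B (by linarith) hs1 hs2 rfl (by linarith [hrj i hi.le]) hs.2.1)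
      (hBvol i hi.le)
      (by
        intro s0 hs0
        rw [Finset.mem_filter] at hs0
        obtain ⟨hs0S, -, ⟨t', ht1, ht2⟩⟩ := hs0
        apply hsub _ (Finset.filter_subset _ _)
        apply near_count hcount T t' (2 ^ (i + 1) * n) (hn1'.trans (hpow1 _)) hri1 ht2
        intro γ hγ
        rw [Finset.mem_filter] at hγ
        refine ⟨by linarith [(hA γ hγ.1).1], (hA γ hγ.1).2.2, ?_⟩
        have h15 : |γ - t'| ≤ |γ - s0.im| + |s0.im - t'| := abs_sub_le _ _ _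
        linarith [hγ.2])
    refine h10.trans (le_of_eq ?_)
    rw [hr i, pow_succ]
    field_simp
    ring
  have hbb : ∑ i ∈ Finset.range J, ∑ _s ∈ S.filter (fun s => ¬ GJ η T n i s.im ∧
      GJ η T n (i + 1) s.im), (1 : ℝ) ≤
      50 * C4 * C1 * Q * T * Real.exp (-(c1 * n)) * L := by
    refine (Finset.sum_le_sum hbi).trans ?_
    rw [← Finset.mul_sum]
    calc 50 * C4 * C1 * T * L * ∑ i ∈ Finset.range J, Real.exp (-(c1 * (2 ^ i * n)))
        ≤ 50 * C4 * C1 * T * L * (Real.exp (-(c1 * n)) * Q) :=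
          mul_le_mul_of_nonneg_left (geo c1 hc1 n J hn1) (by positivity)
      _ = _ := by ring
  have hcard : (A1.card : ℝ) = ∑ _s ∈ S, (1 : ℝ) := by
    rw [Finset.sum_const, nsmul_eq_mul, mul_one, hS, Finset.card_image_of_injective _ emb_inj]
  rw [hcard]
  have hF : ∑ _s ∈ S.filter (fun _ => False), (1 : ℝ) = 0 := by simp
  have h20 : ∑ _s ∈ S, (1 : ℝ) ≤ 20000 * C5 * C1 * T * Real.exp (-(c1 * n)) * L +
      50 * C4 * C1 * Q * T * Real.exp (-(c1 * n)) * L := by
    linarith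
  refine h20.trans ?_
  calc 20000 * C5 * C1 * T * Real.exp (-(c1 * n)) * L + 50 * C4 * C1 * Q * T * Real.exp (-(c1 * n)) * L
      = (E0 * Real.exp (-(c1 * n))) * (T * L) := by rw [hE0]; ring
    _ ≤ ε * (T * L) := mul_le_mul_of_nonneg_right hexp (by positivity)
    _ = ε * T * L := by ring

end Pool.Agent.TH801.TU
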