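import Pool.Agent.W186.SD.MainD
import Pool.Agent.W655.SD.SC2

set_option autoImplicit false

/-!
# The mollified zeta function at discrete points near the critical line

Consequences of the mollified mean square of the zeta function (starting library H24R2.DZ, W186.SD):
a discrete mean value theorem.
-/

namespace Pool.Agent.TH801.TU

open Complex Filter Topology MeasureTheory Set
open Pool.Agent.H24R2.JP (XX HH Om)
open Pool.Agent.H24R2.DZ

/-- the mollifier -/
noncomputable def Mo (X : ℝ) (s : ℂ) : ℂ := mT (1 / 200) X s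

/-- the mollified zeta function, `s = 1/2 + z` -/
noncomputable def FF (X : ℝ) (z : ℂ) : ℂ := riemannZeta (1 / 2 + z) * Mo X (1 / 2 + z)

noncomputable def gg (X x y : ℝ) : ℝ :=
  ‖riemannZeta (1 / 2 + x + ((max y 1 : ℝ) : ℂ) * I)‖ ^ 2 *
    (‖Mo X (1 / 2 + x + y * I)‖ ^ 2 + ‖Mo X (1 / 2 - x + y * I)‖ ^ 2)

lemma Mo_diff (X : ℝ) : Differentiable ℂ (Mo X) := Pool.Agent.W655.SD.mT_diff _ _

lemma gg_nonneg (X x y : ℝ) : 0 ≤ gg X x y := by unfold gg; positivity

lemma gg_cont (X : ℝ) : Continuous (fun p : ℝ × ℝ => gg X p.1 p.2) := by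
  unfold gg
  have h1 : Continuous (fun p : ℝ × ℝ =>
      riemannZeta (1 / 2 + (p.1 : ℂ) + ((max p.2 1 : ℝ) : ℂ) * I)) := by
    rw [continuous_iff_continuousAt]
    intro p
    have hne : (1 / 2 + (p.1 : ℂ) + ((max p.2 1 : ℝ) : ℂ) * I) ≠ 1 := by
      intro h
      have := congrArg Complex.im h
      simp at this
      have h2 : (1 : ℝ) ≤ max p.2 1 := le_max_right _ _
      linarith
    have h3 : Continuous (fun p : ℝ × ℝ => (1 / 2 + (p.1 : ℂ) + ((max p.2 1 : ℝ) : ℂ) * I)) := by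
      fun_prop
    exact ContinuousAt.comp (f := fun p : ℝ × ℝ => (1 / 2 + (p.1 : ℂ) + ((max p.2 1 : ℝ) : ℂ) * I))
      (differentiableAt_riemannZeta hne).continuousAt h3.continuousAt
  have h2 : Continuous (fun p : ℝ × ℝ => Mo X (1 / 2 + (p.1 : ℂ) + (p.2 : ℂ) * I)) :=
    (Mo_diff X).continuous.comp (by fun_prop)
  have h3 : Continuous (fun p : ℝ × ℝ => Mo X (1 / 2 - (p.1 : ℂ) + (p.2 : ℂ) * I)) :=
    (Mo_diff X).continuous.comp (by fun_prop)
  fun_prop

lemma gg_cont' (X x : ℝ) : Continuous (gg X x) :=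
  (gg_cont X).comp (Continuous.prodMk_right x)

/-- the mean square, uniformly in `x` -/
theorem int_gg : ∃ C T0 : ℝ, 0 < C ∧ 8 ≤ T0 ∧ ∀ X : ℝ, T0 ≤ X → ∀ x : ℝ, 0 ≤ x →
    x ≤ 1 / Real.log X → ∫ y in (X / 4)..(4 * X), gg X x y ≤ C * X := by
  obtain ⟨C, T0, hC, hT0, h⟩ := Pool.Agent.W186.SD.smv2 (1 / 200) (by norm_num) le_rfl
  refine ⟨2 * (C * 3 ^ (20 : ℕ) * Real.exp 1), max T0 (Real.exp 10), by positivity, ?_, ?_⟩
  · have : (8 : ℝ) ≤ Real.exp 10 := by
      have := Real.add_one_le_exp (10 : ℝ)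
      linarith
    exact this.trans (le_max_right _ _)
  intro X hX x hx0 hx1
  have hXT : T0 ≤ X := (le_max_left _ _).trans hX
  have hX10 : Real.exp 10 ≤ X := (le_max_right _ _).trans hX
  have hX0 : 0 < X := (Real.exp_pos _).trans_le hX10
  have hL : 10 ≤ Real.log X := (Real.le_log_iff_exp_le hX0).2 hX10
  set L := Real.log X with hLdef
  have hL0 : 0 < L := by linarith
  have hX8 : 8 ≤ X := by
    have := Real.add_one_le_exp (10 : ℝ)
    linarith
  have hxL : x * L ≤ 1 := by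
    rw [le_div_iff₀ hL0] at hx1
    exact hx1
  have hx10 : x ≤ 1 / 10 := hx1.trans (by
    rw [div_le_div_iff₀ hL0 (by norm_num)]; linarith)
  -- split
  have e1 : ∀ y ∈ Set.uIcc (X / 4) (4 * X), gg X x y =
      ‖riemannZeta (((1 / 2 + x : ℝ) : ℂ) + y * I) *
        mT (1 / 200) X (((1 / 2 + x : ℝ) : ℂ) + y * I + ((0 : ℝ) : ℂ))‖ ^ 2 +
      ‖riemannZeta (((1 / 2 + x : ℝ) : ℂ) + y * I) *
        mT (1 / 200) X (((1 / 2 + x : ℝ) : ℂ) + y * I + ((-(2 * x) : ℝ) : ℂ))‖ ^ 2 := by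
    intro y hy
    rw [uIcc_of_le (by linarith)] at hy
    have hy1 : max y 1 = y := max_eq_left (by linarith [hy.1])
    unfold gg Mo
    rw [hy1, norm_mul, norm_mul, mul_pow, mul_pow, ← mul_add]
    have a1 : (1 / 2 + (x : ℂ) + (y : ℂ) * I) = (((1 / 2 + x : ℝ) : ℂ) + y * I) := by
      push_cast; ring
    have a2 : (1 / 2 - (x : ℂ) + (y : ℂ) * I) =
        (((1 / 2 + x : ℝ) : ℂ) + y * I + ((-(2 * x) : ℝ) : ℂ)) := by
      push_cast; ring
    rw [a1, a2]
    simp
  rw [intervalIntegral.integral_congr e1]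
  have hc : ∀ β : ℂ, IntervalIntegrable (fun y : ℝ =>
      ‖riemannZeta (((1 / 2 + x : ℝ) : ℂ) + y * I) *
        mT (1 / 200) X (((1 / 2 + x : ℝ) : ℂ) + y * I + β)‖ ^ 2) volume (X / 4) (4 * X) := by
    intro β
    apply ContinuousOn.intervalIntegrable
    intro y hy
    rw [uIcc_of_le (by linarith)] at hy
    apply ContinuousAt.continuousWithinAt
    have hne : (((1 / 2 + x : ℝ) : ℂ) + y * I) ≠ 1 := by
      intro h
      have := congrArg Complex.im h
      simp at this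
      linarith [hy.1]
    have h1 : ContinuousAt (fun y : ℝ => riemannZeta (((1 / 2 + x : ℝ) : ℂ) + y * I)) y :=
      ContinuousAt.comp (f := fun y : ℝ => (((1 / 2 + x : ℝ) : ℂ) + y * I))
        (differentiableAt_riemannZeta hne).continuousAt (by fun_prop)
    have h2 : Continuous (fun y : ℝ => mT (1 / 200) X (((1 / 2 + x : ℝ) : ℂ) + y * I + β)) :=
      (Pool.Agent.W655.SD.mT_diff _ _).continuous.comp (by fun_prop)
    exact ((h1.mul h2.continuousAt).norm).pow 2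
  rw [intervalIntegral.integral_add (hc _) (hc _)]
  have b1 := h X (1 / 2 + x) ((0 : ℝ) : ℂ) hXT (by linarith) (by linarith) (by simp)
  have b2 := h X (1 / 2 + x) ((-(2 * x) : ℝ) : ℂ) hXT (by linarith) (by linarith) (by
    rw [Complex.norm_real, Real.norm_eq_abs, abs_neg, abs_of_nonneg (by linarith)]; linarith)
  have n2 : ‖((-(2 * x) : ℝ) : ℂ)‖ = 2 * x := by
    rw [Complex.norm_real, Real.norm_eq_abs, abs_neg, abs_of_nonneg (by linarith)]
  have n1 : ‖((0 : ℝ) : ℂ)‖ = 0 := by simp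
  rw [n1] at b1
  rw [n2] at b2
  rw [← hLdef] at b1 b2
  have c1 : C * X * (1 + L * 0) ^ 20 * Real.exp (2 * (1 / 200) * L * 0) ≤
      C * X * 3 ^ (20 : ℕ) * Real.exp 1 := by
    rw [mul_zero, mul_zero, add_zero, one_pow, Real.exp_zero, mul_one, mul_one]
    have h3 : (1 : ℝ) ≤ 3 ^ (20 : ℕ) * Real.exp 1 := by
      have h4 : (1 : ℝ) ≤ 3 ^ (20 : ℕ) := by norm_num
      have h5 : (1 : ℝ) ≤ Real.exp 1 := Real.one_le_exp (by norm_num)
      nlinarith
    have h6 : 0 < C * X := by positivity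
    calc C * X = C * X * 1 := by ring
      _ ≤ C * X * (3 ^ (20 : ℕ) * Real.exp 1) := by gcongr
      _ = _ := by ring
  have c2 : C * X * (1 + L * (2 * x)) ^ 20 * Real.exp (2 * (1 / 200) * L * (2 * x)) ≤
      C * X * 3 ^ (20 : ℕ) * Real.exp 1 := by
    have h3 : 1 + L * (2 * x) ≤ 3 := by nlinarith
    have h4 : 0 ≤ L * x := by positivity
    have h5 : 2 * (1 / 200) * L * (2 * x) ≤ 1 := by nlinarith
    gcongr
  linarith

end Pool.Agent.TH801.TU
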