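import Pool.Agent.H24R2.DZ.Spec
import Pool.Agent.Helper240.ZU.Defs
import Pool.Agent.H452R4.LI.MV
import Pool.Agent.H452R4.LI.SCH
import Pool.Agent.H452R4.LI.GAU
import Pool.Agent.H510R2.Div

set_option autoImplicit false

/-!
# Coefficients of the mollified Dirichlet polynomial, and the bilinear sum

The product of `∑_{l ≤ N} l^{-s}` with a mollifier, and its sum over a product set of ordinates.
-/

namespace Pool.Agent.TH801.TU

open Complex Filter Topology MeasureTheory Set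
open Pool.Agent.H24R2.DZ
open Pool.Agent.H452R4.LI

noncomputable def cN (N y : ℕ) (b : ℕ → ℂ) (n : ℕ) : ℂ :=
  ∑ p ∈ (Finset.Icc 1 N ×ˢ Finset.Icc 1 y).filter (fun p => p.1 * p.2 = n), b p.2

lemma prod_eq (N y : ℕ) (b : ℕ → ℂ) (s : ℂ) :
    ZU.DN N s * MM y b s = ∑ n ∈ Finset.Icc 1 (N * y), cN N y b n * (n : ℂ) ^ (-s) := by
  unfold ZU.DN MM
  rw [Finset.sum_mul_sum, ← Finset.sum_product']
  rw [← Finset.sum_fiberwise_of_maps_to (s := Finset.Icc 1 N ×ˢ Finset.Icc 1 y)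
    (t := Finset.Icc 1 (N * y)) (g := fun p => p.1 * p.2)]
  · refine Finset.sum_congr rfl fun n _ => ?_
    unfold cN
    rw [Finset.sum_mul]
    refine Finset.sum_congr rfl fun p hp => ?_
    rw [Finset.mem_filter] at hp
    rw [← hp.2]
    push_cast
    rw [Complex.natCast_mul_natCast_cpow]
    ring
  · intro p hp
    rw [Finset.mem_product, Finset.mem_Icc, Finset.mem_Icc] at hp
    rw [Finset.mem_Icc]
    exact ⟨Nat.one_le_iff_ne_zero.2 (Nat.mul_ne_zero (by omega) (by omega)),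
      Nat.mul_le_mul hp.1.2 hp.2.2⟩

lemma cN_norm (N y : ℕ) (b : ℕ → ℂ) (hb : ∀ h, ‖b h‖ ≤ 1) (n : ℕ) :
    ‖cN N y b n‖ ≤ (n.divisors.card : ℝ) := by
  unfold cN
  have h1 : ‖∑ p ∈ (Finset.Icc 1 N ×ˢ Finset.Icc 1 y).filter (fun p => p.1 * p.2 = n), b p.2‖ ≤
      ∑ p ∈ (Finset.Icc 1 N ×ˢ Finset.Icc 1 y).filter (fun p => p.1 * p.2 = n), (1 : ℝ) :=
    norm_sum_le_of_le _ fun p _ => hb p.2
  refine h1.trans ?_
  rw [Finset.sum_const, nsmul_eq_mul, mul_one]
  have h2 : ((Finset.Icc 1 N ×ˢ Finset.Icc 1 y).filter (fun p => p.1 * p.2 = n)).card ≤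
      n.divisors.card := by
    apply Finset.card_le_card_of_injOn (fun p => p.2)
    · intro p hp
      rw [Finset.mem_coe, Finset.mem_filter, Finset.mem_product, Finset.mem_Icc,
        Finset.mem_Icc] at hp
      rw [Finset.mem_coe, Nat.mem_divisors]
      refine ⟨⟨p.1, by rw [← hp.2, mul_comm]⟩, ?_⟩
      rw [← hp.2]
      exact Nat.mul_ne_zero (by omega) (by omega)
    · intro p hp q hq hpq
      rw [Finset.mem_coe, Finset.mem_filter, Finset.mem_product, Finset.mem_Icc,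
        Finset.mem_Icc] at hp hq
      dsimp only at hpq
      have h3 : p.1 * p.2 = q.1 * p.2 := by rw [hp.2, hpq, hq.2]
      exact Prod.ext (Nat.eq_of_mul_eq_mul_right (by omega) h3) hpq
  exact_mod_cast h2

lemma cN_small (N y Z : ℕ) (b : ℕ → ℂ) (hN : Z ≤ N) (hy : Z ≤ y)
    (hb : ∀ h, 1 ≤ h → h ≤ Z → b h = ((ArithmeticFunction.moebius h : ℤ) : ℂ)) (n : ℕ) (hn : 1 ≤ n)
    (hnZ : n ≤ Z) : cN N y b n = if n = 1 then 1 else 0 := by
  have h1 : cN N y b n = ∑ h ∈ n.divisors, b h := by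
    unfold cN
    refine Finset.sum_nbij' (fun p => p.2) (fun h => (n / h, h)) ?_ ?_ ?_ ?_ ?_
    · intro p hp
      rw [Finset.mem_filter, Finset.mem_product, Finset.mem_Icc, Finset.mem_Icc] at hp
      rw [Nat.mem_divisors]
      exact ⟨⟨p.1, by rw [← hp.2, mul_comm]⟩, by omega⟩
    · intro h hh
      rw [Nat.mem_divisors] at hh
      rw [Finset.mem_filter, Finset.mem_product, Finset.mem_Icc, Finset.mem_Icc]
      have h2 : 1 ≤ h := Nat.pos_of_dvd_of_pos hh.1 (by omega)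
      have h3 : h ≤ n := Nat.le_of_dvd (by omega) hh.1
      have h4 : n / h * h = n := Nat.div_mul_cancel hh.1
      have h5 : n / h ≤ n := Nat.div_le_self _ _
      refine ⟨⟨⟨?_, by dsimp only; omega⟩, h2, by dsimp only; omega⟩, h4⟩
      dsimp only
      rw [Nat.one_le_div_iff (by omega)]
      exact h3
    · intro p hp
      rw [Finset.mem_filter, Finset.mem_product, Finset.mem_Icc, Finset.mem_Icc] at hp
      refine Prod.ext ?_ rfl
      dsimp only
      rw [← hp.2]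
      exact Nat.mul_div_cancel _ (by omega)
    · intro h _
      rfl
    · intro p _
      rfl
  rw [h1]
  have h2 : ∑ h ∈ n.divisors, b h = ((∑ h ∈ n.divisors, ArithmeticFunction.moebius h : ℤ) : ℂ) := by
    push_cast
    refine Finset.sum_congr rfl fun h hh => ?_
    rw [Nat.mem_divisors] at hh
    have h2 : 1 ≤ h := Nat.pos_of_dvd_of_pos hh.1 (by omega)
    have h3 : h ≤ n := Nat.le_of_dvd (by omega) hh.1
    exact hb h h2 (by omega)
  rw [h2, ← ArithmeticFunction.coe_mul_zeta_apply, ArithmeticFunction.moebius_mul_coe_zeta,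
    ArithmeticFunction.one_apply]
  split_ifs <;> simp

/-- dyadic summation -/
lemma dyadic (f : ℕ → ℝ) (hf : ∀ n, 0 ≤ f n) (T W α : ℝ) (hα : 0 ≤ α)
    (h : ∀ D : ℕ, 1 ≤ D → ∑ n ∈ Finset.Ioc D (2 * D), f n ≤ (D + T) * W) (Z : ℕ) (hZ : 1 ≤ Z)
    (k : ℕ) : ∑ n ∈ Finset.Ioc Z (2 ^ k * Z), f n * (n : ℝ) ^ (-α) ≤
      ∑ j ∈ Finset.range k, (((2 ^ j * Z : ℕ) : ℝ)) ^ (-α) * ((((2 ^ j * Z : ℕ) : ℝ) + T) * W) := by
  induction k with
  | zero => simp
  | succ k ih =>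
    rw [Finset.sum_range_succ]
    have h0 : 2 ^ (k + 1) * Z = 2 * (2 ^ k * Z) := by ring
    have h1 : Finset.Ioc Z (2 ^ (k + 1) * Z) =
        Finset.Ioc Z (2 ^ k * Z) ∪ Finset.Ioc (2 ^ k * Z) (2 * (2 ^ k * Z)) := by
      rw [h0, Finset.Ioc_union_Ioc_eq_Ioc]
      · have : 1 ≤ 2 ^ k := Nat.one_le_two_pow
        nlinarith
      · omega
    rw [h1, Finset.sum_union]
    · refine add_le_add ih ?_
      have hD : 1 ≤ 2 ^ k * Z := Nat.one_le_iff_ne_zero.2 (Nat.mul_ne_zero (by positivity) (by omega))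
      have hD0 : (0 : ℝ) < ((2 ^ k * Z : ℕ) : ℝ) := by exact_mod_cast hD
      calc ∑ n ∈ Finset.Ioc (2 ^ k * Z) (2 * (2 ^ k * Z)), f n * (n : ℝ) ^ (-α)
          ≤ ∑ n ∈ Finset.Ioc (2 ^ k * Z) (2 * (2 ^ k * Z)),
            f n * (((2 ^ k * Z : ℕ) : ℝ)) ^ (-α) := by
            apply Finset.sum_le_sum
            intro n hn
            rw [Finset.mem_Ioc] at hn
            apply mul_le_mul_of_nonneg_left _ (hf n)
            apply Real.rpow_le_rpow_of_nonpos hD0 _ (by linarith)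
            exact_mod_cast hn.1.le
        _ = (((2 ^ k * Z : ℕ) : ℝ)) ^ (-α) *
            ∑ n ∈ Finset.Ioc (2 ^ k * Z) (2 * (2 ^ k * Z)), f n := by
            rw [← Finset.sum_mul, mul_comm]
        _ ≤ _ := mul_le_mul_of_nonneg_left (h _ hD) (Real.rpow_nonneg hD0.le _)
    · rw [Finset.disjoint_left]
      intro n hn hn'
      rw [Finset.mem_Ioc] at hn hn'
      omega

/-- Cauchy-Schwarz for the block sums -/
lemma block : ∃ C : ℝ, 0 < C ∧ ∀ (A B : Finset ℝ) (T w : ℝ) (D : ℕ), 1 ≤ T → 1 ≤ D →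
    (∀ a ∈ A, |a| ≤ T) → (∀ b ∈ B, |b| ≤ T) → dens A w → dens B w →
    ∑ n ∈ Finset.Ioc D (2 * D), EE A n * EE B n ≤
      (D + T) * (C * w * Real.sqrt (A.card * B.card)) := by
  obtain ⟨C, hC, h⟩ := mv sch gau
  refine ⟨C, hC, ?_⟩
  intro A B T w D hT hD hA hB dA dB
  have h1 := h A T w D hT hD hA dA
  have h2 := h B T w D hT hD hB dB
  have hw : 0 ≤ w := le_trans (Nat.cast_nonneg _) (dA 0)
  have hDT : 0 ≤ (D : ℝ) + T := by positivity
  calc ∑ n ∈ Finset.Ioc D (2 * D), EE A n * EE B n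
      ≤ Real.sqrt (∑ n ∈ Finset.Ioc D (2 * D), EE A n ^ 2) *
        Real.sqrt (∑ n ∈ Finset.Ioc D (2 * D), EE B n ^ 2) := Real.sum_mul_le_sqrt_mul_sqrt _ _ _
    _ ≤ Real.sqrt (C * (D + T) * A.card * w) * Real.sqrt (C * (D + T) * B.card * w) :=
        mul_le_mul (Real.sqrt_le_sqrt h1) (Real.sqrt_le_sqrt h2) (Real.sqrt_nonneg _)
          (Real.sqrt_nonneg _)
    _ = (D + T) * (C * w * Real.sqrt (A.card * B.card)) := by
        rw [← Real.sqrt_mul (by positivity)]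
        have e : C * (D + T) * A.card * w * (C * (D + T) * B.card * w) =
            ((D + T) * (C * w)) ^ 2 * (A.card * B.card) := by ring
        rw [e, Real.sqrt_mul (by positivity), Real.sqrt_sq (by positivity)]
        ring

/-- the sum over a product set of a Dirichlet polynomial, `n`-th term -/
lemma term_eq (A B : Finset ℝ) (u : ℝ) (n : ℕ) (hn : 1 ≤ n) :
    ‖∑ a ∈ A, ∑ b ∈ B, (n : ℂ) ^ (-(1 / 2 + I * ((a + b + u : ℝ) : ℂ)))‖ =
      (n : ℝ) ^ (-(1 / 2) : ℝ) * (EE A n * EE B n) := by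
  have hn0 : (n : ℂ) ≠ 0 := by exact_mod_cast (by omega : n ≠ 0)
  have hnpos : (0 : ℝ) < n := by exact_mod_cast hn
  have h1 : ∀ a b : ℝ, (n : ℂ) ^ (-(1 / 2 + I * ((a + b + u : ℝ) : ℂ))) =
      (n : ℂ) ^ (-(1 / 2 + I * (u : ℂ))) *
        (Complex.exp (-(Complex.I * ((a * Real.log n : ℝ) : ℂ))) *
          Complex.exp (-(Complex.I * ((b * Real.log n : ℝ) : ℂ)))) := by
    intro a b
    rw [Complex.cpow_def_of_ne_zero hn0, Complex.cpow_def_of_ne_zero hn0, ← Complex.exp_add,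
      ← Complex.exp_add, ← Complex.natCast_log]
    congr 1
    push_cast
    ring
  simp only [h1]
  have h2 : ∑ a ∈ A, ∑ b ∈ B, (n : ℂ) ^ (-(1 / 2 + I * (u : ℂ))) *
        (Complex.exp (-(Complex.I * ((a * Real.log n : ℝ) : ℂ))) *
          Complex.exp (-(Complex.I * ((b * Real.log n : ℝ) : ℂ)))) =
      (n : ℂ) ^ (-(1 / 2 + I * (u : ℂ))) *
        ((∑ a ∈ A, Complex.exp (-(Complex.I * ((a * Real.log n : ℝ) : ℂ)))) *
          ∑ b ∈ B, Complex.exp (-(Complex.I * ((b * Real.log n : ℝ) : ℂ)))) := by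
    rw [Finset.sum_mul_sum, Finset.mul_sum]
    refine Finset.sum_congr rfl fun a _ => ?_
    rw [Finset.mul_sum]
  rw [h2, norm_mul, norm_mul]
  have h3 : ‖(n : ℂ) ^ (-(1 / 2 + I * (u : ℂ)))‖ = (n : ℝ) ^ (-(1 / 2) : ℝ) := by
    rw [Complex.norm_natCast_cpow_of_pos hn]
    congr 1
    simp
  rw [h3]
  rfl

end Pool.Agent.TH801.TU
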