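import Pool.Agent.TH801.TU.Disc
import Pool.Agent.TH801.TU.FirstA
import Pool.Agent.H401R2.EM

set_option autoImplicit false

/-!
# The mean value of the mollified zeta function over a sumset
-/

namespace Pool.Agent.TH801.TU

open Complex Filter Topology MeasureTheory Set
open Pool.Agent.H24R2.DZ
open Pool.Agent.H452R4.LI

lemma zeta_DN (X x : ℝ) (hX : 8 ≤ X) (hx1 : X ≤ x) (hx2 : x ≤ 3 * X) (N : ℕ)
    (hN1 : X ^ (3 / 2 : ℝ) ≤ N) (hN2 : (N : ℝ) ≤ 2 * X ^ (3 / 2 : ℝ)) :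
    ‖riemannZeta (1 / 2 + I * (x : ℂ)) - ZU.DN N (1 / 2 + I * (x : ℂ))‖ ≤
      7 * X ^ (-(1 / 4) : ℝ) := by
  have hX0 : 0 < X := by linarith
  set s : ℂ := 1 / 2 + I * (x : ℂ) with hs
  have hre : s.re = 1 / 2 := by simp [hs]
  have him : s.im = x := by simp [hs]
  set p := X ^ (1 / 4 : ℝ) with hp
  have hp0 : 0 < p := Real.rpow_pos_of_pos hX0 _
  have hp4 : p ^ 4 = X := by
    rw [hp, ← Real.rpow_natCast, ← Real.rpow_mul hX0.le]; norm_num
  have hp6 : X ^ (3 / 2 : ℝ) = p ^ 6 := by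
    rw [hp, ← Real.rpow_natCast, ← Real.rpow_mul hX0.le]; norm_num
  have hpm : X ^ (-(1 / 4) : ℝ) = 1 / p := by
    rw [hp, Real.rpow_neg hX0.le]; exact (one_div _).symm
  have hp1 : 1 ≤ p := Real.one_le_rpow (by linarith) (by norm_num)
  rw [hp6] at hN1 hN2
  rw [hpm]
  have hp62 : 2 ≤ p ^ 6 := by
    have h1 : p ^ 6 = X * p ^ 2 := by rw [← hp4]; ring
    have h2 : 1 ≤ p ^ 2 := one_le_pow₀ hp1
    rw [h1]; nlinarith
  have hN2' : (2 : ℝ) ≤ N := hp62.trans hN1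
  have hN : 2 ≤ N := by exact_mod_cast hN2'
  have hNpos : 0 < N := by omega
  have hN0 : (0 : ℝ) < N := by linarith
  have hs1 : s ≠ 1 := by
    intro h
    have := congrArg Complex.im h
    rw [him] at this
    simp at this
    linarith
  have hz := Pool.Agent.H401R2.zeta_em N hN s (by rw [hre]; norm_num) hs1
  unfold Pool.Agent.H401R2.emE at hz
  set q := Real.sqrt N with hq
  have hq0 : 0 < q := Real.sqrt_pos.2 hN0
  have hq2 : q ^ 2 = N := Real.sq_sqrt hN0.le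
  have hqp : p ^ 3 ≤ q := by
    rw [hq]
    apply Real.le_sqrt_of_sq_le
    calc (p ^ 3) ^ 2 = p ^ 6 := by ring
      _ ≤ (N : ℝ) := hN1
  have hqp2 : q ≤ 2 * p ^ 3 := by
    rw [hq]
    apply Real.sqrt_le_iff.2
    refine ⟨by positivity, hN2.trans ?_⟩
    have : 0 < p ^ 6 := by positivity
    nlinarith
  have n1 : ‖(N : ℂ) ^ (-s)‖ = 1 / q := by
    rw [Complex.norm_natCast_cpow_of_pos hNpos, Complex.neg_re, hre, Real.rpow_neg hN0.le, hq,
      Real.sqrt_eq_rpow]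
    exact (one_div _).symm
  have n2 : ‖(N : ℂ) ^ (1 - s)‖ = q := by
    rw [Complex.norm_natCast_cpow_of_pos hNpos, Complex.sub_re, hre, hq, Real.sqrt_eq_rpow]
    norm_num
  have n3 : ‖(N : ℂ) ^ (-s - 1)‖ = 1 / (q * N) := by
    rw [Complex.norm_natCast_cpow_of_pos hNpos, Complex.sub_re, Complex.neg_re, hre, hq,
      Real.sqrt_eq_rpow]
    have e : (-(1 / 2) - (1 : ℂ).re : ℝ) = -(1 / 2 + 1) := by simp; norm_num
    rw [e, Real.rpow_neg hN0.le, Real.rpow_add hN0, Real.rpow_one]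
    exact (one_div _).symm
  have hsn : ‖s‖ ≤ 4 * X := by
    have h1 := Complex.norm_le_abs_re_add_abs_im s
    rw [hre, him, abs_of_pos (by linarith : (0 : ℝ) < x)] at h1
    have h2 : |(1 / 2 : ℝ)| = 1 / 2 := abs_of_pos (by norm_num)
    rw [h2] at h1
    linarith
  have hs1n : X ≤ ‖s - 1‖ := by
    have h1 := Complex.abs_im_le_norm (s - 1)
    have h2 : (s - 1).im = x := by rw [Complex.sub_im, him]; simp
    rw [h2, abs_of_pos (by linarith : (0 : ℝ) < x)] at h1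
    linarith
  have hpq : 1 / q ≤ 1 / p := by
    apply one_div_le_one_div_of_le hp0
    refine le_trans ?_ hqp
    have : 1 ≤ p ^ 2 := one_le_pow₀ hp1
    nlinarith
  have b1 : ‖(N : ℂ) ^ (-s) / 2‖ ≤ 1 / p := by
    rw [norm_div, n1]
    have h2 : ‖(2 : ℂ)‖ = 2 := by simp
    rw [h2]
    have h3 : 0 ≤ 1 / q := by positivity
    linarith
  have b2 : ‖(N : ℂ) ^ (1 - s) / (s - 1)‖ ≤ 2 / p := by
    rw [norm_div, n2, div_le_div_iff₀ (by linarith) hp0]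
    calc q * p ≤ 2 * p ^ 3 * p := by gcongr
      _ = 2 * X := by rw [← hp4]; ring
      _ ≤ 2 * ‖s - 1‖ := by linarith
  have b3 : ‖s * (N : ℂ) ^ (-s - 1) / 12‖ ≤ 1 / p := by
    rw [norm_div, norm_mul, n3]
    have h2 : ‖(12 : ℂ)‖ = 12 := by simp
    rw [h2]
    have h3 : 1 / (q * N) ≤ 1 / p ^ 9 := by
      apply one_div_le_one_div_of_le (by positivity)
      calc p ^ 9 = p ^ 3 * p ^ 6 := by ring
        _ ≤ q * N := by gcongr
    calc ‖s‖ * (1 / (q * N)) / 12 ≤ (4 * X) * (1 / p ^ 9) / 12 := by gcongr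
      _ = (1 / 3) * (1 / p ^ 5) := by rw [← hp4]; field_simp; ring
      _ ≤ 1 / p ^ 5 := by
        have : 0 < 1 / p ^ 5 := by positivity
        linarith
      _ ≤ 1 / p := by
        apply one_div_le_one_div_of_le hp0
        have : 1 ≤ p ^ 4 := one_le_pow₀ hp1
        nlinarith
  have b4 : ‖s * (s + 1) * (s + 2) * (s + 3)‖ / 720 * (N : ℝ) ^ (-s.re) *
      (1 / (3 * ((N : ℝ) - 1) ^ 3)) ≤ 3 / p := by
    have e1 : (N : ℝ) ^ (-s.re) = 1 / q := by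
      rw [hre, Real.rpow_neg hN0.le, hq, Real.sqrt_eq_rpow]
      exact (one_div _).symm
    rw [e1]
    have hb : ∀ c : ℂ, ‖c‖ ≤ 3 → ‖s + c‖ ≤ 5 * X := by
      intro c hc
      refine (norm_add_le _ _).trans ?_
      linarith
    have h1 : ‖s * (s + 1) * (s + 2) * (s + 3)‖ ≤ 5 * X * (5 * X) * (5 * X) * (5 * X) := by
      rw [norm_mul, norm_mul, norm_mul]
      have c1 := hb 1 (by simp)
      have c2 := hb 2 (by simp; norm_num)
      have c3 := hb 3 (by simp)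
      have c0 : ‖s‖ ≤ 5 * X := by linarith
      gcongr
    have h2 : p ^ 6 / 2 ≤ (N : ℝ) - 1 := by linarith
    have h3 : 1 / (3 * ((N : ℝ) - 1) ^ 3) ≤ 1 / (3 * (p ^ 6 / 2) ^ 3) := by
      apply one_div_le_one_div_of_le (by positivity)
      gcongr
    have h4 : 1 / q ≤ 1 / p ^ 3 := one_div_le_one_div_of_le (by positivity) hqp
    calc ‖s * (s + 1) * (s + 2) * (s + 3)‖ / 720 * (1 / q) * (1 / (3 * ((N : ℝ) - 1) ^ 3))
        ≤ (5 * X * (5 * X) * (5 * X) * (5 * X)) / 720 * (1 / p ^ 3) *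
          (1 / (3 * (p ^ 6 / 2) ^ 3)) := by
          gcongr
          have : 0 < (N : ℝ) - 1 := by linarith
          positivity
      _ = (625 * 8 / (720 * 3)) * (1 / p ^ 5) := by rw [← hp4]; field_simp; ring
      _ ≤ 3 * (1 / p) := by
        have h5 : 1 / p ^ 5 ≤ 1 / p := by
          apply one_div_le_one_div_of_le hp0
          have : 1 ≤ p ^ 4 := one_le_pow₀ hp1
          nlinarith
        have h6 : 0 < 1 / p ^ 5 := by positivity
        nlinarith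
      _ = 3 / p := by ring
  have e : riemannZeta s - ZU.DN N s =
      (riemannZeta s - (ZU.DN N s - (N : ℂ) ^ (-s) / 2 + (N : ℂ) ^ (1 - s) / (s - 1) +
        s * (N : ℂ) ^ (-s - 1) / 12)) - (N : ℂ) ^ (-s) / 2 + (N : ℂ) ^ (1 - s) / (s - 1) +
        s * (N : ℂ) ^ (-s - 1) / 12 := by ring
  rw [e]
  have t1 := norm_add_le ((riemannZeta s - (ZU.DN N s - (N : ℂ) ^ (-s) / 2 +
    (N : ℂ) ^ (1 - s) / (s - 1) + s * (N : ℂ) ^ (-s - 1) / 12)) - (N : ℂ) ^ (-s) / 2 +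
      (N : ℂ) ^ (1 - s) / (s - 1)) (s * (N : ℂ) ^ (-s - 1) / 12)
  have t2 := norm_add_le ((riemannZeta s - (ZU.DN N s - (N : ℂ) ^ (-s) / 2 +
    (N : ℂ) ^ (1 - s) / (s - 1) + s * (N : ℂ) ^ (-s - 1) / 12)) - (N : ℂ) ^ (-s) / 2)
      ((N : ℂ) ^ (1 - s) / (s - 1))
  have t3 := norm_sub_le (riemannZeta s - (ZU.DN N s - (N : ℂ) ^ (-s) / 2 +
    (N : ℂ) ^ (1 - s) / (s - 1) + s * (N : ℂ) ^ (-s - 1) / 12)) ((N : ℂ) ^ (-s) / 2)
  have e7 : 7 * (1 / p) = 3 / p + 1 / p + 2 / p + 1 / p := by ring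
  rw [e7]
  linarith

lemma ph_bound (u : ℝ) : |ph u| ≤ 1 := by
  unfold ph
  rw [abs_of_nonneg (Real.smoothTransition.nonneg _)]
  exact Real.smoothTransition.le_one _

lemma bb_norm (θ L : ℝ) (h : ℕ) : ‖bb θ L 0 h‖ ≤ 1 := by
  unfold bb mo
  rw [neg_zero, Complex.cpow_zero, mul_one, Complex.norm_real, Real.norm_eq_abs, abs_mul]
  have h1 : |((ArithmeticFunction.moebius h : ℤ) : ℝ)| ≤ 1 := by
    exact_mod_cast ArithmeticFunction.abs_moebius_le_one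
  calc |((ArithmeticFunction.moebius h : ℤ) : ℝ)| * |ph (Real.log h / (θ * L))| ≤ 1 * 1 :=
        mul_le_mul h1 (ph_bound _) (abs_nonneg _) zero_le_one
    _ = 1 := one_mul 1

lemma bb_small (θ L : ℝ) (h : ℕ) (hh : Real.log h / (θ * L) ≤ 1 / 2) :
    bb θ L 0 h = ((ArithmeticFunction.moebius h : ℤ) : ℂ) := by
  unfold bb mo ph
  rw [neg_zero, Complex.cpow_zero, mul_one, Real.smoothTransition.one_of_one_le (by linarith)]
  simp

lemma MM_norm (y : ℕ) (b : ℕ → ℂ) (hb : ∀ h, ‖b h‖ ≤ 1) (s : ℂ) (hs : s.re = 1 / 2) :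
    ‖MM y b s‖ ≤ y := by
  unfold MM
  have h1 : ‖∑ h ∈ Finset.Icc 1 y, b h * (h : ℂ) ^ (-s)‖ ≤ ∑ h ∈ Finset.Icc 1 y, (1 : ℝ) := by
    apply norm_sum_le_of_le
    intro h hh
    rw [Finset.mem_Icc] at hh
    rw [norm_mul, Complex.norm_natCast_cpow_of_pos (by omega), Complex.neg_re, hs]
    have h2 : (h : ℝ) ^ (-(1 / 2) : ℝ) ≤ 1 :=
      Real.rpow_le_one_of_one_le_of_nonpos (by exact_mod_cast hh.1) (by norm_num)
    calc ‖b h‖ * (h : ℝ) ^ (-(1 / 2) : ℝ) ≤ 1 * 1 :=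
          mul_le_mul (hb h) h2 (Real.rpow_nonneg (Nat.cast_nonneg _) _) zero_le_one
      _ = 1 := one_mul 1
  refine h1.trans ?_
  simp

/-- the tail of the Dirichlet polynomial -/
lemma tail (K : ℝ) (hK : 1 ≤ K) : ∃ C X0 : ℝ, 0 < C ∧ ∀ X : ℝ, X0 ≤ X → ∀ (A B : Finset ℝ) (M Z : ℕ),
    (∀ a ∈ A, |a| ≤ K * X) → (∀ b ∈ B, |b| ≤ K * X) →
    dens A (K * Real.log X) → dens B (K * Real.log X) →
    1 ≤ Z → X ^ (1 / 400 : ℝ) / 2 ≤ Z → (Z : ℝ) ≤ X ^ (1 / 400 : ℝ) →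
    1 ≤ M → (M : ℝ) ≤ 4 * X ^ (301 / 200 : ℝ) →
    ∑ n ∈ Finset.Ioc Z M, (n.divisors.card : ℝ) * ((n : ℝ) ^ (-(1 / 2) : ℝ) * (EE A n * EE B n)) ≤
      C * X ^ (7991 / 8000 : ℝ) * Real.log X ^ 2 * Real.sqrt (A.card * B.card) := by
  obtain ⟨C1, hC1, hdiv⟩ := Pool.Agent.H510R2.divisor_bound (1 / 20) (by norm_num)
  obtain ⟨C2, hC2, hbl⟩ := block
  refine ⟨C1 * (5 * (4 + 2 * K)) * (C2 * K), Real.exp 10, by positivity, ?_⟩
  intro X hX A B M Z hA hB dA dB hZ hZ1 hZ2 hM hM2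
  have hX0 : 0 < X := (Real.exp_pos _).trans_le hX
  have hL : 10 ≤ Real.log X := (Real.le_log_iff_exp_le hX0).2 hX
  have hX8 : 8 ≤ X := by
    have := Real.add_one_le_exp (10 : ℝ)
    linarith
  have hX1 : 1 ≤ X := by linarith
  set L := Real.log X with hLdef
  have hKX : 1 ≤ K * X := by nlinarith
  set W := C2 * (K * L) * Real.sqrt (A.card * B.card) with hW
  have hW0 : 0 ≤ W := by positivity
  set k := Nat.log 2 M + 1 with hk
  have hMk : M ≤ 2 ^ k * Z := by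
    have h1 : M < 2 ^ k := Nat.lt_pow_succ_log_self (by norm_num) M
    nlinarith
  have hEE : ∀ n, 0 ≤ EE A n * EE B n := fun n => mul_nonneg (norm_nonneg _) (norm_nonneg _)
  have step1 : ∑ n ∈ Finset.Ioc Z M,
      (n.divisors.card : ℝ) * ((n : ℝ) ^ (-(1 / 2) : ℝ) * (EE A n * EE B n)) ≤
      C1 * ∑ n ∈ Finset.Ioc Z (2 ^ k * Z), (EE A n * EE B n) * (n : ℝ) ^ (-(9 / 20) : ℝ) := by
    have h1 : ∑ n ∈ Finset.Ioc Z M,
        (n.divisors.card : ℝ) * ((n : ℝ) ^ (-(1 / 2) : ℝ) * (EE A n * EE B n)) ≤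
        ∑ n ∈ Finset.Ioc Z M, C1 * ((EE A n * EE B n) * (n : ℝ) ^ (-(9 / 20) : ℝ)) := by
      apply Finset.sum_le_sum
      intro n hn
      rw [Finset.mem_Ioc] at hn
      have hn1 : 1 ≤ n := by omega
      have hn0 : (0 : ℝ) < n := by exact_mod_cast hn1
      have h2 := hdiv n hn1
      have h3 : (n : ℝ) ^ (-(9 / 20) : ℝ) = (n : ℝ) ^ (1 / 20 : ℝ) * (n : ℝ) ^ (-(1 / 2) : ℝ) := by
        rw [← Real.rpow_add hn0]; norm_num
      rw [h3]
      calc (n.divisors.card : ℝ) * ((n : ℝ) ^ (-(1 / 2) : ℝ) * (EE A n * EE B n))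
          ≤ (C1 * (n : ℝ) ^ (1 / 20 : ℝ)) * ((n : ℝ) ^ (-(1 / 2) : ℝ) * (EE A n * EE B n)) := by
            apply mul_le_mul_of_nonneg_right h2
            exact mul_nonneg (Real.rpow_nonneg hn0.le _) (hEE n)
        _ = _ := by ring
    refine h1.trans ?_
    rw [← Finset.mul_sum]
    apply mul_le_mul_of_nonneg_left _ hC1.le
    apply Finset.sum_le_sum_of_subset_of_nonneg
    · exact Finset.Ioc_subset_Ioc_right hMk
    · intro n _ _
      exact mul_nonneg (hEE n) (Real.rpow_nonneg (Nat.cast_nonneg _) _)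
  have step2 := dyadic (fun n => EE A n * EE B n) hEE (K * X) W (9 / 20) (by norm_num)
    (fun D hD => hbl A B (K * X) (K * L) D hKX hD hA hB dA dB) Z hZ k
  have step3 : ∀ j ∈ Finset.range k, (((2 ^ j * Z : ℕ) : ℝ)) ^ (-(9 / 20) : ℝ) *
      ((((2 ^ j * Z : ℕ) : ℝ) + K * X) * W) ≤ (4 + 2 * K) * X ^ (7991 / 8000 : ℝ) * W := by
    intro j hj
    rw [Finset.mem_range] at hj
    set D : ℝ := ((2 ^ j * Z : ℕ) : ℝ) with hD
    have hZ0 : (0 : ℝ) < Z := by exact_mod_cast hZ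
    have hM0 : (0 : ℝ) < M := by exact_mod_cast hM
    have h2j : (1 : ℝ) ≤ 2 ^ j := one_le_pow₀ (by norm_num)
    have hDZ : (Z : ℝ) ≤ D := by
      rw [hD]; push_cast; nlinarith
    have hDM : D ≤ M * Z := by
      rw [hD]
      have h1 : 2 ^ j ≤ M := by
        calc 2 ^ j ≤ 2 ^ (Nat.log 2 M) := Nat.pow_le_pow_right (by norm_num) (by omega)
          _ ≤ M := Nat.pow_log_le_self 2 (by omega)
      exact_mod_cast Nat.mul_le_mul_right Z h1
    have hD0 : 0 < D := hZ0.trans_le hDZ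
    have hD1 : D ≤ 4 * X ^ (603 / 400 : ℝ) := by
      calc D ≤ M * Z := hDM
        _ ≤ (4 * X ^ (301 / 200 : ℝ)) * X ^ (1 / 400 : ℝ) := by gcongr
        _ = 4 * X ^ (603 / 400 : ℝ) := by
          rw [mul_assoc, ← Real.rpow_add hX0]; norm_num
    have t1 : D ^ (-(9 / 20) : ℝ) * D ≤ 4 * X ^ (7991 / 8000 : ℝ) := by
      have e1 : D ^ (-(9 / 20) : ℝ) * D = D ^ (11 / 20 : ℝ) := by
        nth_rewrite 2 [← Real.rpow_one D]
        rw [← Real.rpow_add hD0]; norm_num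
      rw [e1]
      calc D ^ (11 / 20 : ℝ) ≤ (4 * X ^ (603 / 400 : ℝ)) ^ (11 / 20 : ℝ) :=
            Real.rpow_le_rpow hD0.le hD1 (by norm_num)
        _ = 4 ^ (11 / 20 : ℝ) * (X ^ (603 / 400 : ℝ)) ^ (11 / 20 : ℝ) :=
            Real.mul_rpow (by norm_num) (Real.rpow_nonneg hX0.le _)
        _ ≤ 4 * X ^ (7991 / 8000 : ℝ) := by
            apply mul_le_mul
            · calc (4 : ℝ) ^ (11 / 20 : ℝ) ≤ 4 ^ (1 : ℝ) :=
                  Real.rpow_le_rpow_of_exponent_le (by norm_num) (by norm_num)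
                _ = 4 := Real.rpow_one 4
            · rw [← Real.rpow_mul hX0.le]
              exact Real.rpow_le_rpow_of_exponent_le hX1 (by norm_num)
            · exact Real.rpow_nonneg (Real.rpow_nonneg hX0.le _) _
            · norm_num
    have t2 : D ^ (-(9 / 20) : ℝ) * (K * X) ≤ 2 * K * X ^ (7991 / 8000 : ℝ) := by
      have hx4 : 0 < X ^ (1 / 400 : ℝ) := Real.rpow_pos_of_pos hX0 _
      have e1 : D ^ (-(9 / 20) : ℝ) ≤ (X ^ (1 / 400 : ℝ) / 2) ^ (-(9 / 20) : ℝ) :=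
        Real.rpow_le_rpow_of_nonpos (by positivity) (hZ1.trans hDZ) (by norm_num)
      have e2 : (X ^ (1 / 400 : ℝ) / 2) ^ (-(9 / 20) : ℝ) ≤ 2 * X ^ (-(9 / 8000) : ℝ) := by
        rw [Real.div_rpow hx4.le (by norm_num), ← Real.rpow_mul hX0.le]
        have e3 : (2 : ℝ) ^ (-(9 / 20) : ℝ) = (2 ^ (9 / 20 : ℝ))⁻¹ := Real.rpow_neg (by norm_num) _
        rw [e3, div_inv_eq_mul, mul_comm]
        have e4 : (2 : ℝ) ^ (9 / 20 : ℝ) ≤ 2 := by
          calc (2 : ℝ) ^ (9 / 20 : ℝ) ≤ 2 ^ (1 : ℝ) :=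
                Real.rpow_le_rpow_of_exponent_le (by norm_num) (by norm_num)
            _ = 2 := Real.rpow_one 2
        have e5 : (1 / 400 * -(9 / 20) : ℝ) = -(9 / 8000) := by norm_num
        rw [e5]
        exact mul_le_mul_of_nonneg_right e4 (Real.rpow_nonneg hX0.le _)
      have e6 : X ^ (-(9 / 8000) : ℝ) * X = X ^ (7991 / 8000 : ℝ) := by
        nth_rewrite 2 [← Real.rpow_one X]
        rw [← Real.rpow_add hX0]; norm_num
      calc D ^ (-(9 / 20) : ℝ) * (K * X) ≤ (2 * X ^ (-(9 / 8000) : ℝ)) * (K * X) := by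
            apply mul_le_mul_of_nonneg_right (e1.trans e2) (by positivity)
        _ = 2 * K * (X ^ (-(9 / 8000) : ℝ) * X) := by ring
        _ = _ := by rw [e6]
    calc D ^ (-(9 / 20) : ℝ) * ((D + K * X) * W) =
          (D ^ (-(9 / 20) : ℝ) * D + D ^ (-(9 / 20) : ℝ) * (K * X)) * W := by ring
      _ ≤ (4 * X ^ (7991 / 8000 : ℝ) + 2 * K * X ^ (7991 / 8000 : ℝ)) * W :=
          mul_le_mul_of_nonneg_right (add_le_add t1 t2) hW0
      _ = _ := by ring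
  have step4 := step2.trans (Finset.sum_le_sum step3)
  rw [Finset.sum_const, Finset.card_range, nsmul_eq_mul] at step4
  have hkL : (k : ℝ) ≤ 5 * L := by
    have h1 : ((2 : ℝ) ^ (Nat.log 2 M)) ≤ M := by
      exact_mod_cast Nat.pow_log_le_self 2 (by omega : M ≠ 0)
    have h2 : Real.log ((2 : ℝ) ^ (Nat.log 2 M)) ≤ Real.log (4 * X ^ (301 / 200 : ℝ)) :=
      Real.log_le_log (by positivity) (h1.trans hM2)
    rw [Real.log_pow, Real.log_mul (by norm_num) (Real.rpow_pos_of_pos hX0 _).ne',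
      Real.log_rpow hX0] at h2
    have h3 := Real.log_two_gt_d9
    have h4 : Real.log 4 ≤ 3 := by
      have := Real.log_le_sub_one_of_pos (show (0 : ℝ) < 4 by norm_num)
      linarith
    rw [hk]
    push_cast
    have h5 : (0 : ℝ) ≤ (Nat.log 2 M : ℝ) := Nat.cast_nonneg _
    have h6 : (Nat.log 2 M : ℝ) * (1 / 2) ≤ (Nat.log 2 M : ℝ) * Real.log 2 := by
      apply mul_le_mul_of_nonneg_left _ h5
      linarith
    linarith
  calc ∑ n ∈ Finset.Ioc Z M,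
      (n.divisors.card : ℝ) * ((n : ℝ) ^ (-(1 / 2) : ℝ) * (EE A n * EE B n))
      ≤ C1 * ∑ n ∈ Finset.Ioc Z (2 ^ k * Z), (EE A n * EE B n) * (n : ℝ) ^ (-(9 / 20) : ℝ) := step1
    _ ≤ C1 * ((k : ℝ) * ((4 + 2 * K) * X ^ (7991 / 8000 : ℝ) * W)) :=
        mul_le_mul_of_nonneg_left step4 hC1.le
    _ ≤ C1 * ((5 * L) * ((4 + 2 * K) * X ^ (7991 / 8000 : ℝ) * W)) := by
        have : 0 ≤ (4 + 2 * K) * X ^ (7991 / 8000 : ℝ) * W := by positivity
        gcongr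
    _ = _ := by rw [hW]; ring

theorem first (K η ε : ℝ) (hK : 1 ≤ K) (hη : 0 < η) (hε : 0 < ε) : ∃ X1 : ℝ, ∀ X : ℝ, X1 ≤ X →
    ∀ (A B : Finset ℝ) (u : ℝ),
    (∀ a ∈ A, |a| ≤ K * X) → (∀ b ∈ B, |b| ≤ K * X) →
    dens A (K * Real.log X) → dens B (K * Real.log X) →
    X ^ (4989 / 5000 : ℝ) ≤ A.card → η * X * Real.log X ≤ B.card →
    (∀ a ∈ A, ∀ b ∈ B, X ≤ a + b + u ∧ a + b + u ≤ 3 * X) →
    ‖∑ a ∈ A, ∑ b ∈ B, FF X (I * ((a + b + u : ℝ) : ℂ)) - (A.card : ℂ) * B.card‖ ≤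
      ε * (A.card * B.card) := by
  obtain ⟨C, X0, hC, htail⟩ := tail K hK
  have hsη : 0 < Real.sqrt η := Real.sqrt_pos.2 hη
  have ev1 : ∀ᶠ X : ℝ in atTop, C * Real.log X ^ 2 ≤ (ε / 2) * Real.sqrt η * X ^ (1 / 40000 : ℝ) := by
    have h1 := (isLittleO_log_rpow_atTop (r := 1 / 80000) (by norm_num)).bound
      (c := Real.sqrt ((ε / 2) * Real.sqrt η / C)) (by positivity)
    filter_upwards [h1, eventually_ge_atTop 1] with X hX hX1
    have hX0 : 0 < X := by linarith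
    rw [Real.norm_eq_abs, Real.norm_eq_abs, abs_of_nonneg (Real.log_nonneg hX1),
      abs_of_nonneg (Real.rpow_nonneg (by linarith) _)] at hX
    have h2 := pow_le_pow_left₀ (Real.log_nonneg hX1) hX 2
    rw [mul_pow, Real.sq_sqrt (by positivity), ← Real.rpow_natCast (X ^ (1 / 80000 : ℝ)),
      ← Real.rpow_mul hX0.le] at h2
    have h3 : (1 / 80000 * ((2 : ℕ) : ℝ) : ℝ) = 1 / 40000 := by norm_num
    rw [h3] at h2
    calc C * Real.log X ^ 2 ≤ C * ((ε / 2) * Real.sqrt η / C * X ^ (1 / 40000 : ℝ)) := by gcongr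
      _ = _ := by field_simp
  have ev2 : ∀ᶠ X : ℝ in atTop, 14 * X ^ (-(1 / 5) : ℝ) ≤ ε / 2 := by
    have h1 := (tendsto_rpow_neg_atTop (y := 1 / 5) (by norm_num)).const_mul 14
    rw [mul_zero] at h1
    exact h1.eventually (eventually_le_nhds (by positivity))
  obtain ⟨X1, hX1⟩ := eventually_atTop.1 (ev1.and ev2)
  refine ⟨max X0 (max X1 (Real.exp 10)), ?_⟩
  intro X hX A B u hA hB dA dB cA cB hAB
  have hXX0 : X0 ≤ X := (le_max_left _ _).trans hX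
  have hXX1 : X1 ≤ X := (le_max_left _ _).trans ((le_max_right _ _).trans hX)
  have hXe : Real.exp 10 ≤ X := (le_max_right _ _).trans ((le_max_right _ _).trans hX)
  obtain ⟨e1, e2⟩ := hX1 X hXX1
  have hX0 : 0 < X := (Real.exp_pos _).trans_le hXe
  have hL : 10 ≤ Real.log X := (Real.le_log_iff_exp_le hX0).2 hXe
  have hX8 : 8 ≤ X := by
    have := Real.add_one_le_exp (10 : ℝ)
    linarith
  have hX1' : 1 ≤ X := by linarith
  obtain ⟨N, hN⟩ : ∃ N : ℕ, N = ⌈X ^ (3 / 2 : ℝ)⌉₊ := ⟨_, rfl⟩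
  obtain ⟨y, hy⟩ : ∃ y : ℕ, y = yy (1 / 200) X := ⟨_, rfl⟩
  obtain ⟨Z, hZ⟩ : ∃ Z : ℕ, Z = ⌊X ^ (1 / 400 : ℝ)⌋₊ := ⟨_, rfl⟩
  have p1 : 1 ≤ X ^ (3 / 2 : ℝ) := Real.one_le_rpow hX1' (by norm_num)
  have p2 : 1 ≤ X ^ (1 / 200 : ℝ) := Real.one_le_rpow hX1' (by norm_num)
  have p3 : 1 ≤ X ^ (1 / 400 : ℝ) := Real.one_le_rpow hX1' (by norm_num)
  have hN1 : X ^ (3 / 2 : ℝ) ≤ N := by rw [hN]; exact Nat.le_ceil _
  have hN2 : (N : ℝ) ≤ 2 * X ^ (3 / 2 : ℝ) := by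
    rw [hN]
    have := Nat.ceil_lt_add_one (show 0 ≤ X ^ (3 / 2 : ℝ) by linarith)
    linarith
  have hy1 : X ^ (1 / 200 : ℝ) ≤ y := by rw [hy]; exact Nat.le_ceil _
  have hy2 : (y : ℝ) ≤ 2 * X ^ (1 / 200 : ℝ) := by
    rw [hy]
    have := Nat.ceil_lt_add_one (show 0 ≤ X ^ (1 / 200 : ℝ) by linarith)
    unfold yy
    linarith
  have hZ1 : 1 ≤ Z := by rw [hZ]; exact Nat.le_floor (by rw [Nat.cast_one]; exact p3)
  have hZ2 : (Z : ℝ) ≤ X ^ (1 / 400 : ℝ) := by rw [hZ]; exact Nat.floor_le (by linarith)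
  have hZ3 : X ^ (1 / 400 : ℝ) / 2 ≤ Z := by
    have h1 := Nat.lt_floor_add_one (X ^ (1 / 400 : ℝ))
    rw [← hZ] at h1
    have h2 : (1 : ℝ) ≤ Z := by exact_mod_cast hZ1
    linarith
  have hZy : Z ≤ y := by
    have h1 : (Z : ℝ) ≤ y := by
      refine hZ2.trans (le_trans ?_ hy1)
      exact Real.rpow_le_rpow_of_exponent_le hX1' (by norm_num)
    exact_mod_cast h1
  have hZN : Z ≤ N := by
    have h1 : (Z : ℝ) ≤ N := by
      refine hZ2.trans (le_trans ?_ hN1)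
      exact Real.rpow_le_rpow_of_exponent_le hX1' (by norm_num)
    exact_mod_cast h1
  obtain ⟨M, hM⟩ : ∃ M : ℕ, M = N * y := ⟨_, rfl⟩
  have hZM : Z ≤ M := by rw [hM]; nlinarith
  have hM1 : 1 ≤ M := hZ1.trans hZM
  have hM2 : (M : ℝ) ≤ 4 * X ^ (301 / 200 : ℝ) := by
    rw [hM]; push_cast
    calc (N : ℝ) * y ≤ (2 * X ^ (3 / 2 : ℝ)) * (2 * X ^ (1 / 200 : ℝ)) := by gcongr
      _ = 4 * (X ^ (3 / 2 : ℝ) * X ^ (1 / 200 : ℝ)) := by ring
      _ = _ := by rw [← Real.rpow_add hX0]; norm_num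
  set b0 : ℕ → ℂ := bb (1 / 200) (Real.log X) 0 with hb0
  have hb1 : ∀ h, ‖b0 h‖ ≤ 1 := fun h => bb_norm _ _ h
  have hb2 : ∀ h, 1 ≤ h → h ≤ Z → b0 h = ((ArithmeticFunction.moebius h : ℤ) : ℂ) := by
    intro h hh1 hh2
    apply bb_small
    have h1 : Real.log h ≤ Real.log (X ^ (1 / 400 : ℝ)) := by
      apply Real.log_le_log (by exact_mod_cast hh1)
      exact le_trans (by exact_mod_cast hh2) hZ2
    rw [Real.log_rpow hX0] at h1
    rw [div_le_iff₀ (by positivity)]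
    linarith
  have hFF : ∀ x : ℝ, FF X (I * (x : ℂ)) =
      riemannZeta (1 / 2 + I * (x : ℂ)) * MM y b0 (1 / 2 + I * (x : ℂ)) := by
    intro x
    unfold FF Mo mT
    rw [hy]
  have hP : ∀ x : ℝ, X ≤ x → x ≤ 3 * X →
      ‖FF X (I * (x : ℂ)) - ∑ n ∈ Finset.Icc 1 M, cN N y b0 n * (n : ℂ) ^ (-(1 / 2 + I * (x : ℂ)))‖ ≤
        ε / 2 := by
    intro x hx1 hx2
    rw [hM, ← prod_eq, hFF, ← sub_mul, norm_mul]
    have h1 := zeta_DN X x hX8 hx1 hx2 N hN1 hN2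
    have h2 := MM_norm y b0 hb1 (1 / 2 + I * (x : ℂ)) (by simp)
    calc ‖riemannZeta (1 / 2 + I * (x : ℂ)) - ZU.DN N (1 / 2 + I * (x : ℂ))‖ *
          ‖MM y b0 (1 / 2 + I * (x : ℂ))‖
        ≤ (7 * X ^ (-(1 / 4) : ℝ)) * (2 * X ^ (1 / 200 : ℝ)) := by
          apply mul_le_mul h1 (h2.trans hy2) (norm_nonneg _) (by positivity)
      _ = 14 * (X ^ (-(1 / 4) : ℝ) * X ^ (1 / 200 : ℝ)) := by ring
      _ = 14 * X ^ (-(49 / 200) : ℝ) := by rw [← Real.rpow_add hX0]; norm_num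
      _ ≤ 14 * X ^ (-(1 / 5) : ℝ) := by
          have := Real.rpow_le_rpow_of_exponent_le hX1' (show (-(49 / 200) : ℝ) ≤ -(1 / 5) by norm_num)
          linarith
      _ ≤ ε / 2 := e2
  set G : ℕ → ℂ := fun n => ∑ a ∈ A, ∑ b ∈ B, (n : ℂ) ^ (-(1 / 2 + I * ((a + b + u : ℝ) : ℂ))) with hG
  have hswap : ∑ a ∈ A, ∑ b ∈ B, ∑ n ∈ Finset.Icc 1 M,
      cN N y b0 n * (n : ℂ) ^ (-(1 / 2 + I * ((a + b + u : ℝ) : ℂ))) =
      ∑ n ∈ Finset.Icc 1 M, cN N y b0 n * G n := by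
    have h1 : ∀ a ∈ A, ∑ b ∈ B, ∑ n ∈ Finset.Icc 1 M,
        cN N y b0 n * (n : ℂ) ^ (-(1 / 2 + I * ((a + b + u : ℝ) : ℂ))) =
        ∑ n ∈ Finset.Icc 1 M, ∑ b ∈ B,
          cN N y b0 n * (n : ℂ) ^ (-(1 / 2 + I * ((a + b + u : ℝ) : ℂ))) :=
      fun a _ => Finset.sum_comm
    rw [Finset.sum_congr rfl h1, Finset.sum_comm]
    refine Finset.sum_congr rfl fun n _ => ?_
    simp only [hG, Finset.mul_sum]
  have hsplit : ∑ n ∈ Finset.Icc 1 M, cN N y b0 n * G n =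
      (A.card : ℂ) * B.card + ∑ n ∈ Finset.Ioc Z M, cN N y b0 n * G n := by
    have h1 : Finset.Icc 1 M = Finset.Icc 1 Z ∪ Finset.Ioc Z M := by
      ext n; simp only [Finset.mem_union, Finset.mem_Icc, Finset.mem_Ioc]; omega
    rw [h1, Finset.sum_union]
    · congr 1
      rw [Finset.sum_eq_single 1]
      · rw [cN_small N y Z b0 hZN hZy hb2 1 le_rfl hZ1, if_pos rfl, one_mul]
        simp only [hG, Nat.cast_one, Complex.one_cpow, Finset.sum_const, nsmul_eq_mul, mul_one]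
      · intro n hn hn1
        rw [Finset.mem_Icc] at hn
        rw [cN_small N y Z b0 hZN hZy hb2 n hn.1 hn.2, if_neg hn1, zero_mul]
      · intro h
        exact absurd (Finset.mem_Icc.2 ⟨le_rfl, hZ1⟩) h
    · rw [Finset.disjoint_left]
      intro n hn hn'
      rw [Finset.mem_Icc] at hn
      rw [Finset.mem_Ioc] at hn'
      omega
  have htl : ‖∑ n ∈ Finset.Ioc Z M, cN N y b0 n * G n‖ ≤ ε / 2 * (A.card * B.card) := by
    have h1 : ‖∑ n ∈ Finset.Ioc Z M, cN N y b0 n * G n‖ ≤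
        ∑ n ∈ Finset.Ioc Z M, (n.divisors.card : ℝ) *
          ((n : ℝ) ^ (-(1 / 2) : ℝ) * (EE A n * EE B n)) := by
      apply norm_sum_le_of_le
      intro n hn
      rw [Finset.mem_Ioc] at hn
      rw [norm_mul, ← term_eq A B u n (by omega)]
      exact mul_le_mul_of_nonneg_right (cN_norm N y b0 hb1 n) (norm_nonneg _)
    refine h1.trans ?_
    refine (htail X hXX0 A B M Z hA hB dA dB hZ1 hZ3 hZ2 hM1 hM2).trans ?_
    set R := Real.sqrt ((A.card : ℝ) * B.card) with hR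
    have hR2 : (A.card : ℝ) * B.card = R * R := (Real.mul_self_sqrt (by positivity)).symm
    have hR0 : 0 ≤ R := Real.sqrt_nonneg _
    have hR1 : Real.sqrt η * X ^ (9989 / 10000 : ℝ) ≤ R := by
      apply Real.le_sqrt_of_sq_le
      rw [mul_pow, Real.sq_sqrt hη.le, ← Real.rpow_natCast (X ^ (9989 / 10000 : ℝ)),
        ← Real.rpow_mul hX0.le]
      have e3 : (9989 / 10000 * ((2 : ℕ) : ℝ) : ℝ) = 4989 / 5000 + 1 := by norm_num
      rw [e3, Real.rpow_add hX0, Real.rpow_one]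
      calc η * (X ^ (4989 / 5000 : ℝ) * X) = X ^ (4989 / 5000 : ℝ) * (η * X * 1) := by ring
        _ ≤ X ^ (4989 / 5000 : ℝ) * (η * X * Real.log X) := by
          apply mul_le_mul_of_nonneg_left _ (Real.rpow_nonneg hX0.le _)
          apply mul_le_mul_of_nonneg_left _ (mul_nonneg hη.le hX0.le)
          linarith
        _ ≤ A.card * B.card := mul_le_mul cA cB
          (mul_nonneg (mul_nonneg hη.le hX0.le) (by linarith)) (Nat.cast_nonneg _)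
    rw [hR2]
    have h3 : C * X ^ (7991 / 8000 : ℝ) * Real.log X ^ 2 ≤
        ε / 2 * (Real.sqrt η * X ^ (9989 / 10000 : ℝ)) := by
      have h4 : X ^ (7991 / 8000 : ℝ) * X ^ (1 / 40000 : ℝ) = X ^ (9989 / 10000 : ℝ) := by
        rw [← Real.rpow_add hX0]; norm_num
      calc C * X ^ (7991 / 8000 : ℝ) * Real.log X ^ 2 =
            (C * Real.log X ^ 2) * X ^ (7991 / 8000 : ℝ) := by ring
        _ ≤ ((ε / 2) * Real.sqrt η * X ^ (1 / 40000 : ℝ)) * X ^ (7991 / 8000 : ℝ) :=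
            mul_le_mul_of_nonneg_right e1 (Real.rpow_nonneg hX0.le _)
        _ = (ε / 2) * Real.sqrt η * (X ^ (7991 / 8000 : ℝ) * X ^ (1 / 40000 : ℝ)) := by ring
        _ = _ := by rw [h4]; ring
    calc C * X ^ (7991 / 8000 : ℝ) * Real.log X ^ 2 * R ≤
          ε / 2 * (Real.sqrt η * X ^ (9989 / 10000 : ℝ)) * R :=
          mul_le_mul_of_nonneg_right h3 hR0
      _ ≤ ε / 2 * R * R := by
          apply mul_le_mul_of_nonneg_right _ hR0
          exact mul_le_mul_of_nonneg_left hR1 (by linarith)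
      _ = _ := by ring
  have hd : ∑ a ∈ A, ∑ b ∈ B, FF X (I * ((a + b + u : ℝ) : ℂ)) - (A.card : ℂ) * B.card =
      ∑ a ∈ A, ∑ b ∈ B, (FF X (I * ((a + b + u : ℝ) : ℂ)) -
        ∑ n ∈ Finset.Icc 1 M, cN N y b0 n * (n : ℂ) ^ (-(1 / 2 + I * ((a + b + u : ℝ) : ℂ)))) +
      ∑ n ∈ Finset.Ioc Z M, cN N y b0 n * G n := by
    simp only [Finset.sum_sub_distrib]
    rw [hswap, hsplit]
    ring
  rw [hd]
  have hf : ‖∑ a ∈ A, ∑ b ∈ B, (FF X (I * ((a + b + u : ℝ) : ℂ)) -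
        ∑ n ∈ Finset.Icc 1 M, cN N y b0 n * (n : ℂ) ^ (-(1 / 2 + I * ((a + b + u : ℝ) : ℂ))))‖ ≤
      ε / 2 * (A.card * B.card) := by
    have h1 : ∀ a ∈ A, ‖∑ b ∈ B, (FF X (I * ((a + b + u : ℝ) : ℂ)) -
        ∑ n ∈ Finset.Icc 1 M, cN N y b0 n * (n : ℂ) ^ (-(1 / 2 + I * ((a + b + u : ℝ) : ℂ))))‖ ≤
        ε / 2 * B.card := by
      intro a ha
      have h2 := norm_sum_le_of_le B (f := fun b => FF X (I * ((a + b + u : ℝ) : ℂ)) -
        ∑ n ∈ Finset.Icc 1 M, cN N y b0 n * (n : ℂ) ^ (-(1 / 2 + I * ((a + b + u : ℝ) : ℂ))))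
        (n := fun _ => ε / 2) (fun b hb => hP (a + b + u) (hAB a ha b hb).1 (hAB a ha b hb).2)
      rw [Finset.sum_const, nsmul_eq_mul] at h2
      linarith
    have h3 := norm_sum_le_of_le A h1
    rw [Finset.sum_const, nsmul_eq_mul] at h3
    linarith
  refine (norm_add_le _ _).trans ?_
  linarith

end Pool.Agent.TH801.TU
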