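import Pool.Agent.TH801.TU.Pair
import Pool.Agent.TH801.TU.Block

set_option autoImplicit false

/-!
# The theorem for two sets of reals
-/

namespace Pool.Agent.TH801.TU

open Complex Filter Topology MeasureTheory Set
open Pool.Agent.H452R4.LI
open Pool.Agent.H452R4.LI.CORaux

lemma Far_anti {δ δ' x : ℝ} (h : δ ≤ δ') (hF : Far δ' x) : Far δ x := fun ρ hρ => h.trans (hF ρ hρ)

lemma Far_neg {δ x : ℝ} (hδ : δ ≤ 1 / 2) (h : Far δ x) : Far δ (-x) := by
  intro ρ hρ
  by_cases hn : ∃ n : ℕ, ρ = -(n : ℂ)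
  · obtain ⟨n, rfl⟩ := hn
    have h1 := Complex.abs_re_le_norm (-(n : ℂ) - (1 / 2 + I * ((-x : ℝ) : ℂ)))
    have h2 : (-(n : ℂ) - (1 / 2 + I * ((-x : ℝ) : ℂ))).re = -((n : ℝ) + 1 / 2) := by
      simp; ring
    rw [h2, abs_neg, abs_of_pos (by positivity)] at h1
    have h3 : (0 : ℝ) ≤ n := Nat.cast_nonneg n
    linarith
  · push Not at hn
    have hρ1 : ρ ≠ 1 := by
      rintro rfl
      exact riemannZeta_one_ne_zero hρ
    have h1 : riemannZeta (1 - ρ) = 0 := by
      rw [riemannZeta_one_sub hn hρ1, hρ, mul_zero]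
    have h2 := h (1 - ρ) h1
    have h3 : (1 - ρ) - (1 / 2 + I * (x : ℂ)) = -(ρ - (1 / 2 + I * ((-x : ℝ) : ℂ))) := by
      push_cast; ring
    rwa [h3, norm_neg] at h2

/-- two blocks -/
theorem gen0 (K κ K1 η1 η2 s : ℝ) (hK : 1 ≤ K) (hκ0 : 0 < κ) (hK1 : 1 ≤ K1) (hη1 : 0 < η1)
    (hη2 : 0 < η2) (hs : s ≠ 0) : ∃ c T1 : ℝ, 0 < c ∧ c ≤ 1 ∧
    ∀ T : ℝ, T1 ≤ T → ∀ (A1 B1 : Finset ℝ) (u α β : ℝ), (∀ a ∈ A1, |a| ≤ K * T) →
    dens A1 (K * Real.log T) → η2 * T ^ (9979 / 10000 : ℝ) ≤ A1.card →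
    (∀ b ∈ B1, 0 < b ∧ b ≤ K * T ∧ riemannZeta (1 / 2 + I * (b : ℂ)) = 0) →
    η1 * T * Real.log T ≤ B1.card → |u| ≤ K * T →
    (∀ a ∈ A1, |a - α| ≤ κ * T) → (∀ b ∈ B1, |s * b - β| ≤ κ * T) →
    (∀ a ∈ A1, 10 * κ * T ≤ |a + (β + u)|) →
    (∀ X : ℝ, κ * T ≤ X → ∀ y : ℝ,
      ((B1.filter (fun b => |s * b - y| ≤ 1 / Real.log X)).card : ℝ) ≤ K1) →
    ∀ G : Finset (ℝ × ℝ),
      (∀ p ∈ A1 ×ˢ B1, Far (c / Real.log T) (p.1 + s * p.2 + u) → p ∈ G) →
    c * (A1.card * B1.card) ≤ (G.card : ℝ) := by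
  classical
  have hK0 : 0 < K := by linarith
  have hs0 : 0 < |s| := abs_pos.2 hs
  obtain ⟨C5, hC5, hzc⟩ := Pool.Agent.H452R4.LI.zc
  obtain ⟨K4, hK4⟩ : ∃ K4 : ℝ, K4 = 2 * K + |s| * K := ⟨_, rfl⟩
  have hK41 : 1 ≤ K4 := by rw [hK4]; have : 0 < |s| * K := by positivity
                           linarith
  obtain ⟨K', hK'⟩ : ∃ K' : ℝ, K' = K / (5 * κ) + |s| * K / (5 * κ) + 4 * K +
    4 * C5 * (1 / |s| + 1) + K1 := ⟨_, rfl⟩
  have q1 : 0 < K / (5 * κ) := by positivity
  have q2 : 0 < |s| * K / (5 * κ) := by positivity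
  have q3 : 0 < 4 * C5 * (1 / |s| + 1) := by positivity
  have hK'1 : 1 ≤ K' := by rw [hK']; linarith
  obtain ⟨η', hη'⟩ : ∃ η' : ℝ, η' = η1 / (2 * K4) := ⟨_, rfl⟩
  have hη'0 : 0 < η' := by rw [hη']; positivity
  obtain ⟨c0, X1, hc0, hc01, hpair⟩ := pair K' η' hK'1 hη'0
  obtain ⟨T2, hT2⟩ : ∃ T2 : ℝ, ∀ T : ℝ, T2 ≤ T → K4 / η2 ≤ T ^ (1 / 10000 : ℝ) := by
    have h1 := (tendsto_rpow_atTop (y := 1 / 10000) (by norm_num)).eventually_ge_atTop (K4 / η2)
    exact eventually_atTop.1 h1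
  refine ⟨c0 / 2, max (max T2 (max K 3))
    (max (max K4 (X1 / (5 * κ))) (max (1 / κ ^ 2) (Real.exp 10 / κ))), by positivity,
    by linarith, ?_⟩
  intro T hT A1 B1 u α β hAK dA cA1 hBK cB1 hu hα hβ hA1v hB1cl G hG
  have hTT2 : T2 ≤ T := (le_max_left _ _).trans ((le_max_left _ _).trans hT)
  have hTK : K ≤ T := (le_max_left _ _).trans ((le_max_right _ _).trans ((le_max_left _ _).trans hT))
  have hT3 : 3 ≤ T := (le_max_right _ _).trans ((le_max_right _ _).trans ((le_max_left _ _).trans hT))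
  have hTK4 : K4 ≤ T := (le_max_left _ _).trans ((le_max_left _ _).trans ((le_max_right _ _).trans hT))
  have hTX1 : X1 / (5 * κ) ≤ T :=
    (le_max_right _ _).trans ((le_max_left _ _).trans ((le_max_right _ _).trans hT))
  have hTκ : 1 / κ ^ 2 ≤ T :=
    (le_max_left _ _).trans ((le_max_right _ _).trans ((le_max_right _ _).trans hT))
  have hTe : Real.exp 10 / κ ≤ T :=
    (le_max_right _ _).trans ((le_max_right _ _).trans ((le_max_right _ _).trans hT))
  have hT0 : 0 < T := by linarith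
  have hT1 : 1 ≤ T := by linarith
  have hKT3 : 3 ≤ K * T := hT3.trans (le_mul_of_one_le_left hT0.le hK)
  have hκT : Real.exp 10 ≤ κ * T := by
    rw [div_le_iff₀ hκ0] at hTe; linarith
  have hκT0 : 0 < κ * T := by positivity
  have hL1 : 1 ≤ Real.log T := by
    rw [Real.le_log_iff_exp_le hT0]
    have := Real.exp_one_lt_d9
    linarith
  obtain ⟨L, hL⟩ : ∃ L : ℝ, L = Real.log T := ⟨_, rfl⟩
  rw [← hL] at dA cB1 hL1 hG
  have hL0 : 0 < L := by linarith
  obtain ⟨c, hc⟩ : ∃ c : ℝ, c = c0 / 2 := ⟨_, rfl⟩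
  rw [← hc] at hG ⊢
  have hcc : c ≤ c0 / 2 := hc.le
  have hcpos : 0 < c := by rw [hc]; positivity
  have hTp : 0 < T ^ (9979 / 10000 : ℝ) := Real.rpow_pos_of_pos hT0 _
  have hA1pos : 0 < (A1.card : ℝ) := lt_of_lt_of_le (by positivity) cA1
  have hB1pos : 0 < (B1.card : ℝ) := lt_of_lt_of_le (by positivity) cB1
  obtain ⟨a0, ha0⟩ : A1.Nonempty := Finset.card_pos.1 (by exact_mod_cast hA1pos)
  obtain ⟨b0, hb0⟩ : B1.Nonempty := Finset.card_pos.1 (by exact_mod_cast hB1pos)
  obtain ⟨x0, hx0⟩ : ∃ x0 : ℝ, x0 = a0 + s * b0 + u := ⟨_, rfl⟩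
  have hx0l : 9 * κ * T ≤ |x0| := by
    have h1 := hA1v a0 ha0
    have h2 := hβ b0 hb0
    have h3 : a0 + (β + u) = x0 - (s * b0 - β) := by rw [hx0]; ring
    rw [h3] at h1
    have h4 : |x0 - (s * b0 - β)| ≤ |x0| + |s * b0 - β| := by
      have := norm_sub_le x0 (s * b0 - β)
      simpa [Real.norm_eq_abs] using this
    linarith
  have hx0u : |x0| ≤ K4 * T := by
    have h1 := hAK a0 ha0
    have h2 := hBK b0 hb0
    have h3 : |x0| ≤ |a0| + |s * b0| + |u| := by
      rw [hx0]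
      exact (abs_add_le _ _).trans (add_le_add (abs_add_le _ _) le_rfl)
    have h4 : |s * b0| ≤ |s| * (K * T) := by
      rw [abs_mul, abs_of_pos h2.1]
      exact mul_le_mul_of_nonneg_left h2.2.1 hs0.le
    rw [hK4]
    linarith
  obtain ⟨σ, hσ1, hσ2⟩ : ∃ σ : ℝ, (σ = 1 ∨ σ = -1) ∧ σ * x0 = |x0| := by
    rcases le_total 0 x0 with h | h
    · exact ⟨1, Or.inl rfl, by rw [abs_of_nonneg h, one_mul]⟩
    · exact ⟨-1, Or.inr rfl, by rw [abs_of_nonpos h]; ring⟩
  have hσσ : σ * σ = 1 := by rcases hσ1 with h | h <;> rw [h] <;> norm_num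
  have hσabs : |σ| = 1 := by rcases hσ1 with h | h <;> rw [h] <;> norm_num
  have hσ0 : σ ≠ 0 := by rcases hσ1 with h | h <;> rw [h] <;> norm_num
  obtain ⟨X, hX⟩ : ∃ X : ℝ, X = |x0| - 4 * κ * T := ⟨_, rfl⟩
  have hXl : 5 * κ * T ≤ X := by rw [hX]; linarith
  have hXu : X ≤ K4 * T := by rw [hX]; linarith
  have hXκ : κ * T ≤ X := by linarith
  have hXe : Real.exp 10 ≤ X := hκT.trans hXκ
  have hX0 : 0 < X := hκT0.trans_le hXκ
  have hXX1 : X1 ≤ X := by
    rw [div_le_iff₀ (by positivity)] at hTX1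
    linarith
  have hlX : 10 ≤ Real.log X := (Real.le_log_iff_exp_le hX0).2 hXe
  have hTX : T ≤ X / (5 * κ) := by
    rw [le_div_iff₀ (by positivity)]; linarith
  have hlogX1 : Real.log X ≤ 2 * L := by
    rw [hL]
    exact (Real.log_le_log hX0 hXu).trans (log_two_mul K4 hK41 T hTK4)
  have hlogX2 : L ≤ 2 * Real.log X := by
    have h1 : Real.log (κ * T) ≤ Real.log X := Real.log_le_log hκT0 hXκ
    rw [Real.log_mul hκ0.ne' hT0.ne', ← hL] at h1
    have h2 : Real.log (1 / κ ^ 2) ≤ Real.log T := Real.log_le_log (by positivity) hTκ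
    rw [one_div, Real.log_inv, Real.log_pow, ← hL] at h2
    push_cast at h2
    linarith
  have hlX0 : 0 < Real.log X := by linarith
  -- the scaled sets
  have injA : Function.Injective (fun a : ℝ => σ * a) := mul_right_injective₀ hσ0
  have hσs : σ * s ≠ 0 := mul_ne_zero hσ0 hs
  have injB : Function.Injective (fun b : ℝ => σ * s * b) := mul_right_injective₀ hσs
  have hσsabs : |σ * s| = |s| := by rw [abs_mul, hσabs, one_mul]
  have key := hpair X hXX1 (A1.image (fun a => σ * a)) (B1.image (fun b => σ * s * b)) (σ * u)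
    (by
      intro a' ha'
      obtain ⟨a, ha, rfl⟩ := Finset.mem_image.1 ha'
      rw [abs_mul, hσabs, one_mul]
      refine (hAK a ha).trans ?_
      calc K * T ≤ K * (X / (5 * κ)) := mul_le_mul_of_nonneg_left hTX hK0.le
        _ = K / (5 * κ) * X := by ring
        _ ≤ K' * X := by
          apply mul_le_mul_of_nonneg_right _ hX0.le
          rw [hK']; linarith)
    (by
      intro b' hb'
      obtain ⟨b, hb, rfl⟩ := Finset.mem_image.1 hb'
      have h2 := hBK b hb
      rw [abs_mul, hσsabs, abs_of_pos h2.1]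
      calc |s| * b ≤ |s| * (K * T) := mul_le_mul_of_nonneg_left h2.2.1 hs0.le
        _ ≤ |s| * (K * (X / (5 * κ))) := by gcongr
        _ = |s| * K / (5 * κ) * X := by ring
        _ ≤ K' * X := by
          apply mul_le_mul_of_nonneg_right _ hX0.le
          rw [hK']; linarith)
    (by
      refine dens_mono (dens_image dA hσ0) ?_
      rw [hσabs]
      calc K * L * (1 / 1 + 1) ≤ K * (2 * Real.log X) * 2 := by
            have : (1 : ℝ) / 1 + 1 = 2 := by norm_num
            rw [this]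
            gcongr
        _ = (4 * K) * Real.log X := by ring
        _ ≤ K' * Real.log X := by
          apply mul_le_mul_of_nonneg_right _ hlX0.le
          rw [hK']; linarith)
    (by
      have h1 := hzc (K * T) B1 hKT3 hBK
      have h3 : Real.log (K * T) ≤ 2 * L := by rw [hL]; exact log_two_mul K hK T hTK
      refine dens_mono (dens_image h1 hσs) ?_
      rw [hσsabs]
      calc C5 * Real.log (K * T) * (1 / |s| + 1) ≤ C5 * (2 * (2 * Real.log X)) * (1 / |s| + 1) := by
            have : Real.log (K * T) ≤ 2 * (2 * Real.log X) := by linarith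
            gcongr
        _ = (4 * C5 * (1 / |s| + 1)) * Real.log X := by ring
        _ ≤ K' * Real.log X := by
          apply mul_le_mul_of_nonneg_right _ hlX0.le
          rw [hK']; linarith)
    (by
      rw [Finset.card_image_of_injective _ injA]
      refine le_trans ?_ cA1
      have e1 := hT2 T hTT2
      rw [div_le_iff₀ hη2] at e1
      have e2 : K4 ^ (4989 / 5000 : ℝ) ≤ K4 := by
        calc K4 ^ (4989 / 5000 : ℝ) ≤ K4 ^ (1 : ℝ) :=
              Real.rpow_le_rpow_of_exponent_le hK41 (by norm_num)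
          _ = K4 := Real.rpow_one K4
      have e3 : T ^ (1 / 10000 : ℝ) * T ^ (4989 / 5000 : ℝ) = T ^ (9979 / 10000 : ℝ) := by
        rw [← Real.rpow_add hT0]; norm_num
      calc X ^ (4989 / 5000 : ℝ) ≤ (K4 * T) ^ (4989 / 5000 : ℝ) :=
            Real.rpow_le_rpow hX0.le hXu (by norm_num)
        _ = K4 ^ (4989 / 5000 : ℝ) * T ^ (4989 / 5000 : ℝ) :=
            Real.mul_rpow (by linarith) hT0.le
        _ ≤ K4 * T ^ (4989 / 5000 : ℝ) :=
            mul_le_mul_of_nonneg_right e2 (Real.rpow_nonneg hT0.le _)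
        _ ≤ (T ^ (1 / 10000 : ℝ) * η2) * T ^ (4989 / 5000 : ℝ) :=
            mul_le_mul_of_nonneg_right e1 (Real.rpow_nonneg hT0.le _)
        _ = η2 * (T ^ (1 / 10000 : ℝ) * T ^ (4989 / 5000 : ℝ)) := by ring
        _ = η2 * T ^ (9979 / 10000 : ℝ) := by rw [e3])
    (by
      rw [Finset.card_image_of_injective _ injB]
      refine le_trans ?_ cB1
      calc η' * X * Real.log X ≤ η' * (K4 * T) * (2 * L) := by gcongr
        _ = η1 * T * L := by rw [hη']; field_simp)
    (by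
      intro a' ha' b' hb'
      obtain ⟨a, ha, rfl⟩ := Finset.mem_image.1 ha'
      obtain ⟨b, hb, rfl⟩ := Finset.mem_image.1 hb'
      have h1 : σ * a + σ * s * b + σ * u = |x0| + σ * ((a - a0) + (s * b - s * b0)) := by
        rw [← hσ2, hx0]; ring
      have h2 : |a - a0| ≤ 2 * (κ * T) := by
        have e : a - a0 = (a - α) - (a0 - α) := by ring
        rw [e]
        refine (abs_sub _ _).trans ?_
        linarith [hα a ha, hα a0 ha0]
      have h3 : |s * b - s * b0| ≤ 2 * (κ * T) := by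
        have e : s * b - s * b0 = (s * b - β) - (s * b0 - β) := by ring
        rw [e]
        refine (abs_sub _ _).trans ?_
        linarith [hβ b hb, hβ b0 hb0]
      have h4 : |σ * ((a - a0) + (s * b - s * b0))| ≤ 4 * (κ * T) := by
        rw [abs_mul, hσabs, one_mul]
        refine (abs_add_le _ _).trans ?_
        linarith
      rw [h1]
      have h5 := abs_le.1 h4
      rw [hX]
      constructor
      · linarith [h5.1]
      · linarith [h5.2])
    (by
      intro y
      have h1 := hB1cl X hXκ (σ * y)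
      have h2 : ((B1.image (fun b => σ * s * b)).filter (fun b => |b - y| ≤ 1 / Real.log X)) ⊆
          (B1.filter (fun b => |s * b - σ * y| ≤ 1 / Real.log X)).image (fun b => σ * s * b) := by
        intro b' hb'
        rw [Finset.mem_filter] at hb'
        obtain ⟨hb1, hb2⟩ := hb'
        obtain ⟨b, hb, rfl⟩ := Finset.mem_image.1 hb1
        rw [Finset.mem_image]
        refine ⟨b, ?_, rfl⟩
        rw [Finset.mem_filter]
        refine ⟨hb, ?_⟩
        have h3 : s * b - σ * y = σ * (σ * s * b - y) := by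
          have : σ * (σ * s * b - y) = (σ * σ) * (s * b) - σ * y := by ring
          rw [this, hσσ, one_mul]
        rw [h3, abs_mul, hσabs, one_mul]
        exact hb2
      have h4 := (Finset.card_le_card h2).trans Finset.card_image_le
      have h5 : ((((B1.image (fun b => σ * s * b)).filter
          (fun b => |b - y| ≤ 1 / Real.log X)).card : ℕ) : ℝ) ≤ K1 :=
        le_trans (by exact_mod_cast h4) h1
      refine h5.trans ?_
      rw [hK']; linarith)
    (G.image (fun p : ℝ × ℝ => (σ * p.1, σ * s * p.2)))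
    (by
      intro p' hp' hF
      rw [Finset.mem_product] at hp'
      obtain ⟨a, ha, ha'⟩ := Finset.mem_image.1 hp'.1
      obtain ⟨b, hb, hb'⟩ := Finset.mem_image.1 hp'.2
      rw [Finset.mem_image]
      refine ⟨(a, b), ?_, ?_⟩
      · apply hG (a, b) (Finset.mem_product.2 ⟨ha, hb⟩)
        have h1 : p'.1 + p'.2 + σ * u = σ * (a + s * b + u) := by
          rw [← ha', ← hb']; ring
        rw [h1] at hF
        have h2 : c / L ≤ c0 / Real.log X := by
          rw [div_le_div_iff₀ hL0 hlX0]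
          calc c * Real.log X ≤ (c0 / 2) * (2 * L) := by gcongr
            _ = c0 * L := by ring
        have h3 : Far (c / L) (σ * (a + s * b + u)) := Far_anti h2 hF
        have h4 : c / L ≤ 1 / 2 := by
          rw [div_le_iff₀ hL0]
          linarith
        dsimp only
        rcases hσ1 with h | h
        · rw [h, one_mul] at h3
          exact h3
        · rw [h] at h3
          have h5 := Far_neg h4 h3
          have h6 : -(-1 * (a + s * b + u)) = a + s * b + u := by ring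
          rwa [h6] at h5
      · dsimp only
        exact Prod.ext ha' hb')
  rw [Finset.card_image_of_injective _ injA, Finset.card_image_of_injective _ injB] at key
  have hGc : ((G.image (fun p : ℝ × ℝ => (σ * p.1, σ * s * p.2))).card : ℝ) ≤ G.card := by
    exact_mod_cast Finset.card_image_le
  calc c * (A1.card * B1.card) ≤ c0 * (A1.card * B1.card) := by
        apply mul_le_mul_of_nonneg_right _ (by positivity)
        linarith
    _ ≤ G.card := key.trans hGc

/-- the theorem for two sets -/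
theorem gen (K η s : ℝ) (hK : 1 ≤ K) (hη : 0 < η) (hs : s ≠ 0) : ∃ c T1 : ℝ, 0 < c ∧
    ∀ T : ℝ, T1 ≤ T → ∀ (A B : Finset ℝ) (u : ℝ), (∀ a ∈ A, |a| ≤ K * T) →
    dens A (K * Real.log T) → T ^ (9979 / 10000 : ℝ) ≤ A.card →
    (∀ b ∈ B, 0 < b ∧ b ≤ K * T ∧ riemannZeta (1 / 2 + I * (b : ℂ)) = 0) →
    η * T * Real.log T ≤ B.card → |u| ≤ K * T →
    ∀ G : Finset (ℝ × ℝ),
      (∀ p ∈ A ×ˢ B, Far (c / Real.log T) (p.1 + s * p.2 + u) → p ∈ G) →
    c * (A.card * B.card) < (G.card : ℝ) := by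
  classical
  have hK0 : 0 < K := by linarith
  obtain ⟨C5, hC5, hzc⟩ := Pool.Agent.H452R4.LI.zc
  obtain ⟨κ, K1, η1, T1, hκ0, hK1, hη1, hB⟩ := blockBB K η s hK hη hs
  obtain ⟨η2, hη2, hA⟩ := blockA K κ hK hκ0
  obtain ⟨c0, T2, hc0, hc01, h0⟩ := gen0 K κ K1 η1 η2 s hK hκ0 hK1 hη1 hη2 hs
  obtain ⟨D, hD⟩ : ∃ D : ℝ, D = 4 * C5 * K := ⟨_, rfl⟩
  have hD0 : 0 < D := by rw [hD]; positivity
  refine ⟨min c0 (c0 * (η1 * η2) / (2 * D)), max (max T1 T2) (max K 3), ?_, ?_⟩
  · apply lt_min <;> positivity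
  intro T hT A B u hAK dA cA hBK cB hu G hG
  have hTT1 : T1 ≤ T := (le_max_left _ _).trans ((le_max_left _ _).trans hT)
  have hTT2 : T2 ≤ T := (le_max_right _ _).trans ((le_max_left _ _).trans hT)
  have hTK : K ≤ T := (le_max_left _ _).trans ((le_max_right _ _).trans hT)
  have hT3 : 3 ≤ T := (le_max_right _ _).trans ((le_max_right _ _).trans hT)
  have hT0 : 0 < T := by linarith
  have hKT3 : 3 ≤ K * T := hT3.trans (le_mul_of_one_le_left hT0.le hK)
  have hL0 : 0 < Real.log T := Real.log_pos (by linarith)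
  obtain ⟨c, hc⟩ : ∃ c : ℝ, c = min c0 (c0 * (η1 * η2) / (2 * D)) := ⟨_, rfl⟩
  rw [← hc] at hG ⊢
  have hcc : c ≤ c0 := by rw [hc]; exact min_le_left _ _
  have hcc2 : c ≤ c0 * (η1 * η2) / (2 * D) := by rw [hc]; exact min_le_right _ _
  have hcpos : 0 < c := by rw [hc]; apply lt_min <;> positivity
  obtain ⟨β1, β2, hββ, hblock⟩ := hB T hTT1 B hBK cB
  obtain ⟨A1, hA1A, α, hα, hor, cA1⟩ := hA T hT0 A hAK (β1 + u) (β2 + u) (by
    have : β1 + u - (β2 + u) = β1 - β2 := by ring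
    rw [this]; exact hββ)
  have hTp : 0 < T ^ (9979 / 10000 : ℝ) := Real.rpow_pos_of_pos hT0 _
  have hApos : 0 < (A.card : ℝ) := hTp.trans_le cA
  have hmain : ∀ β : ℝ, (β = β1 ∨ β = β2) → (∀ a ∈ A1, 10 * κ * T ≤ |a + (β + u)|) →
      c0 * ((η2 * A.card) * (η1 * T * Real.log T)) ≤ G.card := by
    intro β hβ hA1v
    obtain ⟨B1, hB1B, hβ1, cB1, hcl⟩ := hblock β hβ
    have dA1 : dens A1 (K * Real.log T) := by
      intro x
      refine le_trans ?_ (dA x)
      exact_mod_cast Finset.card_le_card (Finset.filter_subset_filter _ hA1A)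
    have h1 := h0 T hTT2 A1 B1 u α β (fun a ha => hAK a (hA1A ha)) dA1
      (le_trans (mul_le_mul_of_nonneg_left cA hη2.le) cA1)
      (fun b hb => hBK b (hB1B hb)) cB1 hu hα hβ1 hA1v hcl G (by
        intro p hp hF
        rw [Finset.mem_product] at hp
        apply hG p (Finset.mem_product.2 ⟨hA1A hp.1, hB1B hp.2⟩)
        exact Far_anti (div_le_div_of_nonneg_right hcc hL0.le) hF)
    refine le_trans ?_ h1
    gcongr
  have hfin : c0 * ((η2 * A.card) * (η1 * T * Real.log T)) ≤ G.card := by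
    rcases hor with h | h
    · exact hmain β1 (Or.inl rfl) h
    · exact hmain β2 (Or.inr rfl) h
  have hBc : (B.card : ℝ) ≤ D * (T * Real.log T) := by
    have h0 := hzc (K * T) B hKT3 hBK
    have h1 := dens_interval h0 0 (K * T) (by positivity)
    have h2 : B.filter (fun a => 0 ≤ a ∧ a ≤ 0 + K * T) = B := by
      apply Finset.filter_true_of_mem
      intro b hb
      have := hBK b hb
      exact ⟨this.1.le, by linarith [this.2.1]⟩
    rw [h2] at h1
    refine h1.trans ?_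
    have h3 : 1 ≤ K * T := by linarith
    have h4 : Real.log (K * T) ≤ 2 * Real.log T := log_two_mul K hK T hTK
    calc C5 * Real.log (K * T) * (K * T + 1) ≤ C5 * (2 * Real.log T) * (K * T + K * T) := by gcongr
      _ = _ := by rw [hD]; ring
  have hTL : 0 < T * Real.log T := by positivity
  have hX : 0 < c0 * ((η2 * A.card) * (η1 * T * Real.log T)) := by positivity
  calc c * (A.card * B.card) ≤ (c0 * (η1 * η2) / (2 * D)) * (A.card * (D * (T * Real.log T))) := by
        gcongr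
    _ = (c0 * ((η2 * A.card) * (η1 * T * Real.log T))) / 2 := by field_simp
    _ < c0 * ((η2 * A.card) * (η1 * T * Real.log T)) := by linarith
    _ ≤ G.card := hfin

end Pool.Agent.TH801.TU
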