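import Pool.Agent.TH801.TU.Gen

set_option autoImplicit false

/-!
# The exceptional set, and the theorem for tuples
-/

namespace Pool.Agent.TH801.TU

open Complex Filter Topology MeasureTheory Set
open Pool.Agent.H452R4.LI
open Pool.Agent.H452R4.LI.CORaux

/-- one representative in every interval `[k, k + 1)` -/
lemma reps (A : Finset ℝ) (w : ℝ) (hd : dens A w) : ∃ A' ⊆ A, dens A' 2 ∧
    (A.card : ℝ) ≤ w * A'.card := by
  classical
  have hch : ∀ k : ℤ, ∃ a : ℝ, k ∈ A.image (fun a => ⌊a⌋) → a ∈ A ∧ ⌊a⌋ = k := by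
    intro k
    by_cases h : k ∈ A.image (fun a => ⌊a⌋)
    · obtain ⟨a, ha, hk⟩ := Finset.mem_image.1 h
      exact ⟨a, fun _ => ⟨ha, hk⟩⟩
    · exact ⟨0, fun h' => absurd h' h⟩
  choose rep hrep using hch
  obtain ⟨S, hS⟩ : ∃ S : Finset ℤ, S = A.image (fun a => ⌊a⌋) := ⟨_, rfl⟩
  rw [← hS] at hrep
  have hinj : Set.InjOn rep (S : Set ℤ) := by
    intro k hk l hl h
    rw [← (hrep k hk).2, ← (hrep l hl).2, h]
  refine ⟨S.image rep, ?_, ?_, ?_⟩
  · intro a ha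
    obtain ⟨k, hk, rfl⟩ := Finset.mem_image.1 ha
    exact (hrep k hk).1
  · intro x
    have h1 : (((S.image rep).filter (fun a => x ≤ a ∧ a < x + 1)).card) ≤
        ({⌊x⌋, ⌊x⌋ + 1} : Finset ℤ).card := by
      apply Finset.card_le_card_of_injOn (fun a => ⌊a⌋)
      · intro a ha
        rw [Finset.mem_coe, Finset.mem_filter] at ha
        obtain ⟨-, h2, h3⟩ := ha
        have h4 : ⌊x⌋ ≤ ⌊a⌋ := Int.floor_le_floor h2
        have h5 : ⌊a⌋ ≤ ⌊x⌋ + 1 := by
          have h6 : ⌊a⌋ ≤ ⌊x + 1⌋ := Int.floor_le_floor h3.le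
          rwa [Int.floor_add_one] at h6
        rw [Finset.mem_coe, Finset.mem_insert, Finset.mem_singleton]
        show ⌊a⌋ = ⌊x⌋ ∨ ⌊a⌋ = ⌊x⌋ + 1
        omega
      · intro a ha b hb hab
        rw [Finset.mem_coe, Finset.mem_filter] at ha hb
        obtain ⟨k, hk, rfl⟩ := Finset.mem_image.1 ha.1
        obtain ⟨l, hl, rfl⟩ := Finset.mem_image.1 hb.1
        dsimp only at hab
        rw [(hrep k hk).2, (hrep l hl).2] at hab
        rw [hab]
    have h2 : ({⌊x⌋, ⌊x⌋ + 1} : Finset ℤ).card ≤ 2 := Finset.card_le_two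
    exact_mod_cast h1.trans h2
  · rw [Finset.card_image_of_injOn hinj]
    have h1 : ∀ a ∈ A, ⌊a⌋ ∈ S := fun a ha => by
      rw [hS]; exact Finset.mem_image_of_mem _ ha
    rw [Finset.card_eq_sum_card_fiberwise h1]
    push_cast
    calc ∑ k ∈ S, ((A.filter (fun a => ⌊a⌋ = k)).card : ℝ) ≤ ∑ _k ∈ S, w := by
          apply Finset.sum_le_sum
          intro k _
          refine le_trans ?_ (hd (k : ℝ))
          have h2 : A.filter (fun a => ⌊a⌋ = k) ⊆ A.filter (fun a => (k : ℝ) ≤ a ∧ a < k + 1) := by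
            intro a ha
            rw [Finset.mem_filter] at ha ⊢
            refine ⟨ha.1, ?_⟩
            rw [← ha.2]
            exact ⟨Int.floor_le a, Int.lt_floor_add_one a⟩
          exact_mod_cast Finset.card_le_card h2
      _ = w * S.card := by rw [Finset.sum_const, nsmul_eq_mul, mul_comm]

theorem exc (K η s : ℝ) (hK : 1 ≤ K) (hη : 0 < η) (hs : s ≠ 0) : ∃ c T1 : ℝ, 0 < c ∧
    ∀ T : ℝ, T1 ≤ T → ∀ B : Finset ℝ,
    (∀ b ∈ B, 0 < b ∧ b ≤ K * T ∧ riemannZeta (1 / 2 + I * (b : ℂ)) = 0) →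
    η * T * Real.log T ≤ B.card →
    ∀ (A : Finset ℝ) (w : ℝ), (∀ a ∈ A, |a| ≤ K * T) → dens A w →
    (∀ a ∈ A, ({γ : ℝ | γ ∈ B ∧ Far (c / Real.log T) (s * γ + a)}.ncard : ℝ) < c * B.card) →
    (A.card : ℝ) ≤ w * T ^ (9979 / 10000 : ℝ) := by
  classical
  obtain ⟨c, T1, hc, hgen⟩ := gen K η s hK hη hs
  refine ⟨c, max T1 (Real.exp 2), hc, ?_⟩
  intro T hT B hB cB A w hA hd hbad
  have hTT1 : T1 ≤ T := (le_max_left _ _).trans hT
  have hTe : Real.exp 2 ≤ T := (le_max_right _ _).trans hT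
  have hT0 : 0 < T := (Real.exp_pos _).trans_le hTe
  have hL : 2 ≤ Real.log T := (Real.le_log_iff_exp_le hT0).2 hTe
  have hw : 0 ≤ w := dens_nonneg hd
  obtain ⟨A', hA'A, hd', hc'⟩ := reps A w hd
  refine hc'.trans (mul_le_mul_of_nonneg_left ?_ hw)
  by_contra hcon
  push Not at hcon
  have h1 := hgen T hTT1 A' B 0 (fun a ha => hA a (hA'A ha))
    (dens_mono hd' (by
      calc (2 : ℝ) ≤ 1 * Real.log T := by linarith
        _ ≤ K * Real.log T := by gcongr)) hcon.le hB cB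
    (by rw [abs_zero]; positivity)
    ((A' ×ˢ B).filter (fun p : ℝ × ℝ => Far (c / Real.log T) (p.1 + s * p.2 + 0)))
    (fun p hp hF => Finset.mem_filter.2 ⟨hp, hF⟩)
  have h2 : (((A' ×ˢ B).filter (fun p : ℝ × ℝ =>
      Far (c / Real.log T) (p.1 + s * p.2 + 0))).card : ℝ) =
      ∑ a ∈ A', ({γ : ℝ | γ ∈ B ∧ Far (c / Real.log T) (s * γ + a)}.ncard : ℝ) := by
    rw [← Finset.sum_boole, Finset.sum_product]
    refine Finset.sum_congr rfl fun a _ => ?_
    rw [Finset.sum_boole]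
    have h3 : {γ : ℝ | γ ∈ B ∧ Far (c / Real.log T) (s * γ + a)} =
        ((B.filter (fun γ => Far (c / Real.log T) (a + s * γ + 0)) : Finset ℝ) : Set ℝ) := by
      ext γ
      rw [Finset.mem_coe, Finset.mem_filter, add_zero, add_comm a]
      rfl
    rw [h3, Set.ncard_coe_finset]
  rw [h2] at h1
  have h3 : ∑ a ∈ A', ({γ : ℝ | γ ∈ B ∧ Far (c / Real.log T) (s * γ + a)}.ncard : ℝ) ≤
      ∑ _a ∈ A', c * (B.card : ℝ) := Finset.sum_le_sum fun a ha => (hbad a (hA'A ha)).le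
  rw [Finset.sum_const, nsmul_eq_mul] at h3
  have h4 : c * ((A'.card : ℝ) * B.card) = A'.card * (c * B.card) := by ring
  linarith

lemma dens_translate {A : Finset ℝ} {w : ℝ} (h : dens A w) (u : ℝ) :
    dens (A.image (fun a => a + u)) w := by
  intro x
  have hsub : (A.image (fun a => a + u)).filter (fun a => x ≤ a ∧ a < x + 1) ⊆
      (A.filter (fun a => x - u ≤ a ∧ a < x - u + 1)).image (fun a => a + u) := by
    intro z hz
    rw [Finset.mem_filter, Finset.mem_image] at hz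
    obtain ⟨⟨a, haA, rfl⟩, h1, h2⟩ := hz
    rw [Finset.mem_image]
    refine ⟨a, ?_, rfl⟩
    rw [Finset.mem_filter]
    exact ⟨haA, by linarith, by linarith⟩
  have h1 := (Finset.card_le_card hsub).trans Finset.card_image_le
  exact le_trans (by exact_mod_cast h1) (h (x - u))

theorem main (m : ℕ) (s : ℝ) (r : Fin (m + 1) → ℝ) (hs : s ≠ 0) (hr : r 0 ≠ 0) (K η : ℝ)
    (hη : 0 < η) : ∃ c T1 : ℝ, 0 < c ∧ ∀ T : ℝ, T1 ≤ T → ∀ B : Finset ℝ,
    (∀ γ ∈ B, 0 < γ ∧ γ ≤ K * T ∧ riemannZeta (1 / 2 + I * (γ : ℂ)) = 0) →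
    η * T * Real.log T ≤ B.card →
    ∀ (A : Fin (m + 1) → Finset ℝ) (w : ℝ), (∀ j, ∀ x ∈ A j, |x| ≤ K * T) →
    (∀ y : ℝ, (((A 0).filter (fun a => y ≤ a ∧ a < y + 1)).card : ℝ) ≤ w) →
    ({x : Fin (m + 1) → ℝ | (∀ j, x j ∈ A j) ∧
      ({γ : ℝ | γ ∈ B ∧ ∀ ρ : ℂ, riemannZeta ρ = 0 →
        c / Real.log T ≤ ‖ρ - (1 / 2 + I * ((s * γ + ∑ j, r j * x j : ℝ) : ℂ))‖}.ncard : ℝ) <
        c * B.card}.ncard : ℝ) ≤
      w * T ^ (499 / 500 : ℝ) * ∏ j : Fin m, ((A j.succ).card : ℝ) := by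
  classical
  obtain ⟨K0, hK0⟩ : ∃ K0 : ℝ, K0 = max K 1 := ⟨_, rfl⟩
  have hK01 : 1 ≤ K0 := by rw [hK0]; exact le_max_right _ _
  have hKK0 : K ≤ K0 := by rw [hK0]; exact le_max_left _ _
  obtain ⟨R, hR⟩ : ∃ R : ℝ, R = ∑ i, |r i| := ⟨_, rfl⟩
  have hRi : ∀ i, |r i| ≤ R := fun i => by
    rw [hR]
    exact Finset.single_le_sum (fun j _ => abs_nonneg (r j)) (Finset.mem_univ i)
  have hr0 : 0 < |r 0| := abs_pos.2 hr
  have hR0 : 0 < R := lt_of_lt_of_le hr0 (hRi 0)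
  obtain ⟨Kg, hKg⟩ : ∃ Kg : ℝ, Kg = K0 * (R + 1) := ⟨_, rfl⟩
  have q2 : 0 < K0 * R := by positivity
  have hKg1 : 1 ≤ Kg := by rw [hKg]; linarith
  have hKg2 : K0 ≤ Kg := by rw [hKg]; linarith
  have hKg3 : K0 * R ≤ Kg := by rw [hKg]; linarith
  obtain ⟨c, T1, hc, hexc⟩ := exc Kg η s hKg1 hη hs
  obtain ⟨T2, hT2⟩ : ∃ T2 : ℝ, ∀ T : ℝ, T2 ≤ T → 1 / |r 0| + 1 ≤ T ^ (1 / 10000 : ℝ) := by
    have h1 := (tendsto_rpow_atTop (y := 1 / 10000) (by norm_num)).eventually_ge_atTop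
      (1 / |r 0| + 1)
    exact eventually_atTop.1 h1
  refine ⟨c, max T1 (max T2 3), hc, ?_⟩
  intro T hT B hB cB A w hAK hd
  have hTT1 : T1 ≤ T := (le_max_left _ _).trans hT
  have hTT2 : T2 ≤ T := (le_max_left _ _).trans ((le_max_right _ _).trans hT)
  have hT3 : 3 ≤ T := (le_max_right _ _).trans ((le_max_right _ _).trans hT)
  have hT0 : 0 < T := by linarith
  have hL : 0 < Real.log T := Real.log_pos (by linarith)
  have hAK0 : ∀ i, ∀ x ∈ A i, |x| ≤ K0 * T := fun i x hx =>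
    (hAK i x hx).trans (mul_le_mul_of_nonneg_right hKK0 hT0.le)
  have hw : 0 ≤ w := le_trans (Nat.cast_nonneg _) (hd 0)
  -- the exceptional tuples as a finset
  obtain ⟨E, hE⟩ : ∃ E : Finset (Fin (m + 1) → ℝ), E = (Fintype.piFinset A).filter
      (fun x : Fin (m + 1) → ℝ => ({γ : ℝ | γ ∈ B ∧ Far (c / Real.log T)
        (s * γ + ∑ j, r j * x j)}.ncard : ℝ) < c * B.card) := ⟨_, rfl⟩
  have hset : {x : Fin (m + 1) → ℝ | (∀ j, x j ∈ A j) ∧
      ({γ : ℝ | γ ∈ B ∧ ∀ ρ : ℂ, riemannZeta ρ = 0 →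
        c / Real.log T ≤ ‖ρ - (1 / 2 + I * ((s * γ + ∑ j, r j * x j : ℝ) : ℂ))‖}.ncard : ℝ) <
        c * B.card} = (E : Set (Fin (m + 1) → ℝ)) := by
    ext x
    rw [hE, Finset.mem_coe, Finset.mem_filter, Fintype.mem_piFinset]
    rfl
  rw [hset, Set.ncard_coe_finset]
  have hmaps : ∀ x ∈ E, Fin.tail x ∈ Fintype.piFinset (fun j : Fin m => A j.succ) := by
    intro x hx
    rw [hE, Finset.mem_filter, Fintype.mem_piFinset] at hx
    rw [Fintype.mem_piFinset]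
    intro j
    exact hx.1 j.succ
  rw [Finset.card_eq_sum_card_fiberwise hmaps]
  push_cast
  have hfib : ∀ y ∈ Fintype.piFinset (fun j : Fin m => A j.succ),
      ((E.filter (fun x => Fin.tail x = y)).card : ℝ) ≤ w * T ^ (499 / 500 : ℝ) := by
    intro y hy
    rw [Fintype.mem_piFinset] at hy
    obtain ⟨u, hu⟩ : ∃ u : ℝ, u = ∑ j : Fin m, r j.succ * y j := ⟨_, rfl⟩
    have hsumx : ∀ x ∈ E.filter (fun x => Fin.tail x = y),
        ∑ j, r j * x j = r 0 * x 0 + u := by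
      intro x hx
      rw [Finset.mem_filter] at hx
      rw [Fin.sum_univ_succ, hu]
      congr 1
      refine Finset.sum_congr rfl fun j _ => ?_
      rw [← hx.2]
      rfl
    obtain ⟨A', hA'⟩ : ∃ A' : Finset ℝ, A' = (E.filter (fun x => Fin.tail x = y)).image
      (fun x => r 0 * x 0 + u) := ⟨_, rfl⟩
    have hcard : (E.filter (fun x => Fin.tail x = y)).card = A'.card := by
      rw [hA', Finset.card_image_of_injOn]
      intro x hx x' hx' hxx
      rw [Finset.mem_coe, Finset.mem_filter] at hx hx'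
      dsimp only at hxx
      have h1 : x 0 = x' 0 := by
        have h2 : r 0 * x 0 = r 0 * x' 0 := by linarith
        exact mul_left_cancel₀ hr h2
      have h3 : Fin.cons (x 0) (Fin.tail x) = (Fin.cons (x' 0) (Fin.tail x') : Fin (m + 1) → ℝ) := by
        rw [h1, hx.2, hx'.2]
      rwa [Fin.cons_self_tail, Fin.cons_self_tail] at h3
    have hsubA : A' ⊆ ((A 0).image (fun a => r 0 * a)).image (fun a => a + u) := by
      intro z hz
      rw [hA'] at hz
      obtain ⟨x, hx, rfl⟩ := Finset.mem_image.1 hz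
      rw [Finset.mem_filter, hE, Finset.mem_filter, Fintype.mem_piFinset] at hx
      exact Finset.mem_image_of_mem _ (Finset.mem_image_of_mem _ (hx.1.1 0))
    have hd' : dens A' (w * (1 / |r 0| + 1)) := by
      intro x
      refine le_trans ?_ (dens_translate (dens_image (A := A 0) (w := w) hd hr) u x)
      exact_mod_cast Finset.card_le_card (Finset.filter_subset_filter _ hsubA)
    have h1 := hexc T hTT1 B (by
        intro b hb
        obtain ⟨h2, h3, h4⟩ := hB b hb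
        refine ⟨h2, h3.trans ?_, h4⟩
        exact mul_le_mul_of_nonneg_right (hKK0.trans hKg2) hT0.le) cB A' _ (by
        intro z hz
        rw [hA'] at hz
        obtain ⟨x, hx, rfl⟩ := Finset.mem_image.1 hz
        rw [← hsumx x hx]
        rw [Finset.mem_filter, hE, Finset.mem_filter, Fintype.mem_piFinset] at hx
        calc |∑ j, r j * x j| ≤ ∑ j, |r j * x j| := Finset.abs_sum_le_sum_abs _ _
          _ ≤ ∑ j, |r j| * (K0 * T) := Finset.sum_le_sum (fun j _ => by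
              rw [abs_mul]
              exact mul_le_mul_of_nonneg_left (hAK0 j (x j) (hx.1.1 j)) (abs_nonneg _))
          _ = (K0 * R) * T := by rw [← Finset.sum_mul, ← hR]; ring
          _ ≤ Kg * T := mul_le_mul_of_nonneg_right hKg3 hT0.le) hd' (by
        intro z hz
        rw [hA'] at hz
        obtain ⟨x, hx, rfl⟩ := Finset.mem_image.1 hz
        rw [← hsumx x hx]
        rw [Finset.mem_filter, hE, Finset.mem_filter, Fintype.mem_piFinset] at hx
        exact hx.1.2)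
    rw [hcard]
    have h2 := hT2 T hTT2
    have h3 : T ^ (1 / 10000 : ℝ) * T ^ (9979 / 10000 : ℝ) = T ^ (499 / 500 : ℝ) := by
      rw [← Real.rpow_add hT0]; norm_num
    calc (A'.card : ℝ) ≤ w * (1 / |r 0| + 1) * T ^ (9979 / 10000 : ℝ) := h1
      _ ≤ w * T ^ (1 / 10000 : ℝ) * T ^ (9979 / 10000 : ℝ) := by gcongr
      _ = w * (T ^ (1 / 10000 : ℝ) * T ^ (9979 / 10000 : ℝ)) := by ring
      _ = w * T ^ (499 / 500 : ℝ) := by rw [h3]
  refine (Finset.sum_le_sum hfib).trans (le_of_eq ?_)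
  rw [Finset.sum_const, Fintype.card_piFinset, nsmul_eq_mul]
  push_cast
  ring

end Pool.Agent.TH801.TU
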