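import Pool.Agent.TH801.TU.Pt
import Pool.Agent.TH801.TU.First

set_option autoImplicit false

/-!
# Pairs whose sum is far from all zeros
-/

namespace Pool.Agent.TH801.TU

open Complex Filter Topology MeasureTheory Set
open Pool.Agent.H24R2.DZ
open Pool.Agent.H452R4.LI

/-- the point `1/2 + i x` has distance at least `δ` from every zero of the zeta function -/
def Far (δ x : ℝ) : Prop :=
  ∀ ρ : ℂ, riemannZeta ρ = 0 → δ ≤ ‖ρ - (1 / 2 + I * (x : ℂ))‖

lemma FF_diffAt (X : ℝ) (z : ℂ) (hz : 0 < z.im) : DifferentiableAt ℂ (FF X) z := by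
  have hne : (1 / 2 + z) ≠ 1 := by
    intro h
    have := congrArg Complex.im h
    simp at this
    linarith
  unfold FF
  apply DifferentiableAt.mul
  · exact DifferentiableAt.comp z (differentiableAt_riemannZeta hne) (by fun_prop)
  · exact DifferentiableAt.comp z ((Mo_diff X) _) (by fun_prop)

lemma near_zero : ∃ C T0 : ℝ, 0 < C ∧ 8 ≤ T0 ∧ ∀ X : ℝ, T0 ≤ X → ∀ x0 : ℝ, X ≤ x0 → x0 ≤ 3 * X →
    ‖FF X (I * (x0 : ℂ))‖ ^ 2 ≤ C * QQ X x0 ∧
    ∀ δ : ℝ, 0 < δ → δ ≤ 1 / 4 → ¬ Far (δ / Real.log X) x0 →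
      ‖FF X (I * (x0 : ℂ))‖ ≤ 4 * δ * Real.sqrt (C * QQ X x0) := by
  obtain ⟨C, T0, hC, hT0, h⟩ := pt_bound
  refine ⟨C, max T0 (Real.exp 10), hC, hT0.trans (le_max_left _ _), ?_⟩
  intro X hX x0 hx1 hx2
  have hXT : T0 ≤ X := (le_max_left _ _).trans hX
  have hXe : Real.exp 10 ≤ X := (le_max_right _ _).trans hX
  have hX0 : 0 < X := (Real.exp_pos _).trans_le hXe
  have hL : 10 ≤ Real.log X := (Real.le_log_iff_exp_le hX0).2 hXe
  have hX8 : 8 ≤ X := hT0.trans hXT
  have hp := h X hXT x0 hx1 hx2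
  set L := Real.log X with hLd
  have hL0 : 0 < L := by linarith
  refine ⟨hp (I * (x0 : ℂ)) (by rw [sub_self, norm_zero]; positivity), ?_⟩
  intro δ hδ hδ4 hF
  unfold Far at hF
  push Not at hF
  obtain ⟨ρ, hρ0, hρ⟩ := hF
  set M := Real.sqrt (C * QQ X x0) with hM
  have hM0 : 0 ≤ M := Real.sqrt_nonneg _
  have hb : ∀ z : ℂ, ‖z - I * (x0 : ℂ)‖ ≤ 1 / (2 * L) → ‖FF X z‖ ≤ M := by
    intro z hz
    exact Real.le_sqrt_of_sq_le (hp z hz)
  set r := 1 / (4 * L) with hr
  have hr0 : 0 < r := by positivity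
  have hr2 : 1 / (2 * L) = r + r := by rw [hr]; field_simp; norm_num
  have hr1 : r ≤ 1 := by
    rw [hr, div_le_one (by positivity)]; linarith
  have him : ∀ z : ℂ, ‖z - I * (x0 : ℂ)‖ ≤ r + r → 0 < z.im := by
    intro z hz
    have h1 := Complex.abs_im_le_norm (z - I * (x0 : ℂ))
    have h2 : (z - I * (x0 : ℂ)).im = z.im - x0 := by simp
    rw [h2] at h1
    have h3 := abs_le.1 (h1.trans hz)
    linarith
  have hder : ∀ z ∈ Metric.closedBall (I * (x0 : ℂ)) r, ‖deriv (FF X) z‖ ≤ 4 * L * M := by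
    intro z hz
    rw [mem_closedBall_iff_norm] at hz
    have h1 : ∀ w ∈ Metric.closedBall z r, ‖w - I * (x0 : ℂ)‖ ≤ r + r := by
      intro w hw
      rw [mem_closedBall_iff_norm] at hw
      have : w - I * (x0 : ℂ) = (w - z) + (z - I * (x0 : ℂ)) := by ring
      rw [this]
      exact (norm_add_le _ _).trans (add_le_add hw hz)
    have h2 : DiffContOnCl ℂ (FF X) (Metric.ball z r) := by
      apply DifferentiableOn.diffContOnCl
      intro w hw
      have h3 := Metric.closure_ball_subset_closedBall hw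
      exact (FF_diffAt X w (him w (h1 w h3))).differentiableWithinAt
    have h4 := Complex.norm_deriv_le_of_forall_mem_sphere_norm_le hr0 h2 (C := M) (by
      intro w hw
      apply hb
      rw [hr2]
      exact h1 w (Metric.sphere_subset_closedBall hw))
    refine h4.trans (le_of_eq ?_)
    rw [hr]; field_simp
  have hz0 : FF X (ρ - 1 / 2) = 0 := by
    unfold FF
    have : (1 / 2 + (ρ - 1 / 2) : ℂ) = ρ := by ring
    rw [this, hρ0, zero_mul]
  have hρ' : ‖(ρ - 1 / 2) - I * (x0 : ℂ)‖ < δ / L := by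
    have : (ρ - 1 / 2) - I * (x0 : ℂ) = ρ - (1 / 2 + I * (x0 : ℂ)) := by ring
    rw [this]; exact hρ
  have hδr : δ / L ≤ r := by
    rw [hr, div_le_div_iff₀ hL0 (by positivity)]
    nlinarith
  have hmv := Convex.norm_image_sub_le_of_norm_deriv_le (𝕜 := ℂ) (f := FF X) (C := 4 * L * M)
    (s := Metric.closedBall (I * (x0 : ℂ)) r) (x := ρ - 1 / 2) (y := I * (x0 : ℂ))
    (fun z hz => FF_diffAt X z (him z (by
      rw [mem_closedBall_iff_norm] at hz
      linarith))) hder (convex_closedBall _ _)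
    (by rw [mem_closedBall_iff_norm]; linarith) (Metric.mem_closedBall_self hr0.le)
  rw [hz0, sub_zero, norm_sub_rev] at hmv
  refine hmv.trans ?_
  calc 4 * L * M * ‖(ρ - 1 / 2) - I * (x0 : ℂ)‖ ≤ 4 * L * M * (δ / L) := by
        apply mul_le_mul_of_nonneg_left hρ'.le (by positivity)
    _ = 4 * δ * M := by field_simp

theorem pair (K η : ℝ) (hK : 1 ≤ K) (hη : 0 < η) : ∃ c X1 : ℝ, 0 < c ∧ c ≤ 1 ∧ ∀ X : ℝ, X1 ≤ X →
    ∀ (A B : Finset ℝ) (u : ℝ),
    (∀ a ∈ A, |a| ≤ K * X) → (∀ b ∈ B, |b| ≤ K * X) →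
    dens A (K * Real.log X) → dens B (K * Real.log X) →
    X ^ (4989 / 5000 : ℝ) ≤ A.card → η * X * Real.log X ≤ B.card →
    (∀ a ∈ A, ∀ b ∈ B, X ≤ a + b + u ∧ a + b + u ≤ 3 * X) →
    (∀ y : ℝ, ((B.filter (fun b => |b - y| ≤ 1 / Real.log X)).card : ℝ) ≤ K) →
    ∀ G : Finset (ℝ × ℝ), (∀ p ∈ A ×ˢ B, Far (c / Real.log X) (p.1 + p.2 + u) → p ∈ G) →
    c * (A.card * B.card) ≤ (G.card : ℝ) := by
  classical
  obtain ⟨C1, T1, hC1, hT1, hnear⟩ := near_zero
  obtain ⟨C2, T2, hC2, hT2, hdisc⟩ := disc_bound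
  obtain ⟨X2, hfirst⟩ := first K η (1 / 2) hK hη (by norm_num)
  set D : ℝ := K * C2 / η with hD
  have hD0 : 0 < D := by positivity
  set D' : ℝ := C1 * D + 1 with hD'
  have hD'1 : 1 ≤ D' := by have : 0 < C1 * D := by positivity
                           linarith
  have hD'0 : 0 < D' := by linarith
  refine ⟨1 / (16 * D'), max (max T1 T2) (max X2 (Real.exp 10)), by positivity, ?_, ?_⟩
  · rw [div_le_one (by positivity)]; linarith
  intro X hX A B u hA hB dA dB cA cB hAB hcl G hG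
  have hXT1 : T1 ≤ X := ((le_max_left _ _).trans (le_max_left _ _)).trans hX
  have hXT2 : T2 ≤ X := ((le_max_right _ _).trans (le_max_left _ _)).trans hX
  have hXX2 : X2 ≤ X := ((le_max_left _ _).trans (le_max_right _ _)).trans hX
  have hXe : Real.exp 10 ≤ X := ((le_max_right _ _).trans (le_max_right _ _)).trans hX
  have hX0 : 0 < X := (Real.exp_pos _).trans_le hXe
  have hL : 10 ≤ Real.log X := (Real.le_log_iff_exp_le hX0).2 hXe
  have hf := hfirst X hXX2 A B u hA hB dA dB cA cB hAB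
  have hpos : 0 < η * X * Real.log X := by
    have : 0 < Real.log X := by linarith
    exact mul_pos (mul_pos hη hX0) this
  have hApos : 0 < (A.card : ℝ) := (Real.rpow_pos_of_pos hX0 _).trans_le cA
  have hBpos : 0 < (B.card : ℝ) := hpos.trans_le cB
  set c : ℝ := 1 / (16 * D') with hc
  have hc0 : 0 < c := by positivity
  have hc4 : c ≤ 1 / 4 := by
    rw [hc, div_le_div_iff₀ (by positivity) (by norm_num)]; linarith
  set P : Finset (ℝ × ℝ) := A ×ˢ B with hP
  set n : ℝ := (A.card : ℝ) * B.card with hn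
  have hn0 : 0 < n := mul_pos hApos hBpos
  set q : ℝ × ℝ → ℝ := fun p => QQ X (p.1 + p.2 + u) with hq
  set f : ℝ × ℝ → ℝ := fun p => ‖FF X (I * ((p.1 + p.2 + u : ℝ) : ℂ))‖ with hfd
  have hX1 : 1 ≤ X := by
    have := Real.add_one_le_exp (10 : ℝ)
    linarith
  have hq0 : ∀ p, 0 ≤ q p := fun p => QQ_nonneg _ _ hX1
  have hPmem : ∀ p ∈ P, X ≤ p.1 + p.2 + u ∧ p.1 + p.2 + u ≤ 3 * X := by
    intro p hp
    rw [hP, Finset.mem_product] at hp
    exact hAB p.1 hp.1 p.2 hp.2
  have hcardP : (P.card : ℝ) = n := by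
    rw [hP, Finset.card_product]; push_cast; rfl
  -- (1)
  have s1 : ∑ p ∈ P, q p ≤ D * n := by
    rw [hP, Finset.sum_product]
    have h1 : ∀ a ∈ A, ∑ b ∈ B, q (a, b) ≤ K * (C2 * X * Real.log X) := by
      intro a ha
      have h2 := hdisc X hXT2 B (a + u) K (fun b hb => by
        have := hAB a ha b hb
        constructor <;> linarith [this.1, this.2]) hcl
      refine le_trans (le_of_eq ?_) h2
      refine Finset.sum_congr rfl fun b _ => ?_
      simp only [hq]
      congr 1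
      ring
    refine (Finset.sum_le_sum h1).trans ?_
    rw [Finset.sum_const, nsmul_eq_mul]
    have h3 : X * Real.log X ≤ B.card / η := by
      rw [le_div_iff₀ hη]; linarith
    calc (A.card : ℝ) * (K * (C2 * X * Real.log X)) = A.card * K * C2 * (X * Real.log X) := by ring
      _ ≤ A.card * K * C2 * (B.card / η) := mul_le_mul_of_nonneg_left h3 (by positivity)
      _ = D * n := by rw [hD, hn]; ring
  -- (2)
  have s2 : n / 2 ≤ ∑ p ∈ P, f p := by
    have h1 : ‖∑ a ∈ A, ∑ b ∈ B, FF X (I * ((a + b + u : ℝ) : ℂ))‖ ≤ ∑ p ∈ P, f p := by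
      have e : ∑ a ∈ A, ∑ b ∈ B, FF X (I * ((a + b + u : ℝ) : ℂ)) =
          ∑ p ∈ P, FF X (I * ((p.1 + p.2 + u : ℝ) : ℂ)) := by
        rw [hP, Finset.sum_product]
      rw [e]
      exact norm_sum_le P (fun p : ℝ × ℝ => FF X (I * ((p.1 + p.2 + u : ℝ) : ℂ)))
    have h2 : ‖((A.card : ℂ) * B.card)‖ = n := by
      rw [norm_mul, Complex.norm_natCast, Complex.norm_natCast]
    have h3 := norm_sub_norm_le ((A.card : ℂ) * B.card)
      (∑ a ∈ A, ∑ b ∈ B, FF X (I * ((a + b + u : ℝ) : ℂ)))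
    rw [norm_sub_rev, h2] at h3
    linarith
  -- (3)
  set g : ℝ × ℝ → ℝ := fun p => Real.sqrt (C1 * q p) with hg
  have hg0 : ∀ p, 0 ≤ g p := fun p => Real.sqrt_nonneg _
  have s3 : ∀ p ∈ P, p ∉ G → f p ≤ 4 * c * g p := by
    intro p hp hpG
    have h1 := hPmem p hp
    apply (hnear X hXT1 (p.1 + p.2 + u) h1.1 h1.2).2 c hc0 hc4
    intro hF
    exact hpG (hG p hp hF)
  -- (4)
  have hge : ∑ p ∈ P, g p ^ 2 = C1 * ∑ p ∈ P, q p := by
    rw [Finset.mul_sum]
    exact Finset.sum_congr rfl fun p _ => Real.sq_sqrt (mul_nonneg hC1.le (hq0 p))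
  have s4 : ∑ p ∈ P, g p ≤ D' * n := by
    have h1 : (∑ p ∈ P, g p) ^ 2 ≤ (D' * n) ^ 2 := by
      calc (∑ p ∈ P, g p) ^ 2 ≤ P.card * ∑ p ∈ P, g p ^ 2 := sq_sum_le_card_mul_sum_sq
        _ = n * (C1 * ∑ p ∈ P, q p) := by rw [hcardP, hge]
        _ ≤ n * (C1 * (D * n)) := by gcongr
        _ = (C1 * D) * n ^ 2 := by ring
        _ ≤ D' ^ 2 * n ^ 2 := by
          apply mul_le_mul_of_nonneg_right _ (by positivity)
          have : C1 * D ≤ D' := by rw [hD']; linarith
          nlinarith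
        _ = (D' * n) ^ 2 := by ring
    exact (le_abs_self _).trans (abs_le_of_sq_le_sq h1 (by positivity))
  -- (5)
  have s5 : n / 4 ≤ ∑ p ∈ P.filter (fun p => p ∈ G), f p := by
    have h1 : ∑ p ∈ P, f p = ∑ p ∈ P.filter (fun p => p ∈ G), f p +
        ∑ p ∈ P.filter (fun p => ¬ p ∈ G), f p := by
      rw [Finset.sum_filter_add_sum_filter_not]
    have h2 : ∑ p ∈ P.filter (fun p => ¬ p ∈ G), f p ≤ 4 * c * (D' * n) := by
      calc ∑ p ∈ P.filter (fun p => ¬ p ∈ G), f p ≤
            ∑ p ∈ P.filter (fun p => ¬ p ∈ G), 4 * c * g p := by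
            apply Finset.sum_le_sum
            intro p hp
            rw [Finset.mem_filter] at hp
            exact s3 p hp.1 hp.2
        _ ≤ ∑ p ∈ P, 4 * c * g p := by
            apply Finset.sum_le_sum_of_subset_of_nonneg (Finset.filter_subset _ _)
            intro p _ _
            exact mul_nonneg (by positivity) (hg0 p)
        _ = 4 * c * ∑ p ∈ P, g p := by rw [Finset.mul_sum]
        _ ≤ _ := mul_le_mul_of_nonneg_left s4 (by positivity)
    have h3 : 4 * c * (D' * n) = n / 4 := by rw [hc]; field_simp; norm_num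
    linarith
  -- (6)
  have s6 : (n / 4) ^ 2 ≤ (G.card : ℝ) * (D' * n) := by
    calc (n / 4) ^ 2 ≤ (∑ p ∈ P.filter (fun p => p ∈ G), f p) ^ 2 :=
          pow_le_pow_left₀ (by positivity) s5 2
      _ ≤ (P.filter (fun p => p ∈ G)).card * ∑ p ∈ P.filter (fun p => p ∈ G), f p ^ 2 :=
          sq_sum_le_card_mul_sum_sq
      _ ≤ (G.card : ℝ) * (D' * n) := by
          apply mul_le_mul
          · have : (P.filter (fun p => p ∈ G)).card ≤ G.card :=
              Finset.card_le_card fun p hp => (Finset.mem_filter.1 hp).2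
            exact_mod_cast this
          · calc ∑ p ∈ P.filter (fun p => p ∈ G), f p ^ 2 ≤ ∑ p ∈ P, f p ^ 2 := by
                  apply Finset.sum_le_sum_of_subset_of_nonneg (Finset.filter_subset _ _)
                  intro p _ _
                  positivity
              _ ≤ ∑ p ∈ P, C1 * q p := by
                  apply Finset.sum_le_sum
                  intro p hp
                  have h1 := hPmem p hp
                  exact (hnear X hXT1 (p.1 + p.2 + u) h1.1 h1.2).1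
              _ = C1 * ∑ p ∈ P, q p := by rw [Finset.mul_sum]
              _ ≤ C1 * (D * n) := mul_le_mul_of_nonneg_left s1 hC1.le
              _ ≤ D' * n := by
                  rw [← mul_assoc]
                  apply mul_le_mul_of_nonneg_right _ hn0.le
                  rw [hD']; linarith
          · exact Finset.sum_nonneg fun p _ => by positivity
          · positivity
  have h7 : n * (n / 16) ≤ n * (G.card * D') := by
    calc n * (n / 16) = (n / 4) ^ 2 := by ring
      _ ≤ _ := s6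
      _ = _ := by ring
  have h8 : n / 16 ≤ G.card * D' := le_of_mul_le_mul_left h7 hn0
  rw [hc, div_mul_eq_mul_div, one_mul, div_le_iff₀ (by positivity)]
  linarith

end Pool.Agent.TH801.TU
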