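import Pool.Agent.TH801.TU.Disc

set_option autoImplicit false

/-! # Pointwise bound for the mollified zeta function near the critical line -/

namespace Pool.Agent.TH801.TU

open Complex Filter Topology MeasureTheory Set
open Pool.Agent.H24R2.JP (XX HH Om)
open Pool.Agent.H24R2.DZ

/-- local mean square -/
noncomputable def QQ (X x0 : ℝ) : ℝ := Real.log X ^ 2 *
  ∫ x in (0 : ℝ)..(1 / Real.log X), ∫ y in (x0 - 1 / Real.log X)..(x0 + 1 / Real.log X), gg X x y

lemma QQ_nonneg (X x0 : ℝ) (hX : 1 ≤ X) : 0 ≤ QQ X x0 := by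
  have hL : 0 ≤ Real.log X := Real.log_nonneg hX
  have h1 : 0 ≤ 1 / Real.log X := by positivity
  unfold QQ
  refine mul_nonneg (by positivity) (intervalIntegral.integral_nonneg h1 fun x _ =>
    intervalIntegral.integral_nonneg (by linarith) fun y _ => gg_nonneg _ _ _)

theorem pt_bound : ∃ C T0 : ℝ, 0 < C ∧ 8 ≤ T0 ∧ ∀ X : ℝ, T0 ≤ X → ∀ x0 : ℝ, X ≤ x0 → x0 ≤ 3 * X →
    ∀ z : ℂ, ‖z - I * x0‖ ≤ 1 / (2 * Real.log X) → ‖FF X z‖ ^ 2 ≤ C * QQ X x0 := by
  obtain ⟨C1, hC1, hsq⟩ := Pool.Agent.W261.SD.ssq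
  obtain ⟨K, hK, hHH⟩ := Pool.Agent.H986R2.K4.hh
  obtain ⟨T1, hT1, hHH⟩ := hHH 1 le_rfl
  refine ⟨4 * C1 * Real.exp (1 + K) ^ 4, max T1 (Real.exp 10), by positivity, ?_, ?_⟩
  · have : (8 : ℝ) ≤ Real.exp 10 := by
      have := Real.add_one_le_exp (10 : ℝ)
      linarith
    exact this.trans (le_max_right _ _)
  intro X hX x0 hx1 hx2 z hz
  have hXT : T1 ≤ X := (le_max_left _ _).trans hX
  have hX10 : Real.exp 10 ≤ X := (le_max_right _ _).trans hX
  have hX0 : 0 < X := (Real.exp_pos _).trans_le hX10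
  have hL : 10 ≤ Real.log X := (Real.le_log_iff_exp_le hX0).2 hX10
  unfold QQ
  set L := Real.log X with hLdef
  have hL0 : 0 < L := by linarith
  have hX8 : 8 ≤ X := by
    have := Real.add_one_le_exp (10 : ℝ)
    linarith
  set r := 1 / L with hr
  have hr0 : 0 < r := by positivity
  have hr1 : r ≤ 1 / 10 := by
    rw [hr, div_le_div_iff₀ hL0 (by norm_num)]; linarith
  have hrL : r * L = 1 := by rw [hr]; field_simp
  have hz' : ‖z - I * x0‖ ≤ r / 2 := by
    refine hz.trans (le_of_eq ?_)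
    rw [hr]; field_simp
  set x1 := z.re with hx1d
  set y1 := z.im with hy1d
  have hre : |x1| ≤ r / 2 := by
    have h1 := Complex.abs_re_le_norm (z - I * x0)
    simp at h1
    exact h1.trans hz'
  have him : |y1 - x0| ≤ r / 2 := by
    have h1 := Complex.abs_im_le_norm (z - I * x0)
    simp at h1
    exact h1.trans hz'
  rw [abs_le] at hre him
  have hzeq : z = (x1 : ℂ) + (y1 : ℂ) * I := by
    rw [hx1d, hy1d]; exact (Complex.re_add_im z).symm
  -- logs
  have hlog : Om x0 ≤ L := by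
    unfold Om
    have h1 : Real.log x0 ≤ Real.log (3 * X) := Real.log_le_log (by linarith) hx2
    rw [Real.log_mul (by norm_num) (by linarith)] at h1
    have h2 := Real.log_le_sub_one_of_pos (show (0 : ℝ) < 3 by norm_num)
    linarith
  have hOm0 : 0 ≤ Om x0 := by
    unfold Om
    have := Real.log_nonneg (show (1 : ℝ) ≤ x0 by linarith)
    linarith
  have hexp1 : ∀ x : ℝ, |x| ≤ r → |Om x0 * x| ≤ 1 := by
    intro x hx
    rw [abs_mul, abs_of_nonneg hOm0]
    calc Om x0 * |x| ≤ L * r := by gcongr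
      _ = 1 := by rw [mul_comm]; exact hrL
  set H0 := ‖HH (I * x0)‖ with hH0
  have hHne : HH (I * x0) ≠ 0 := by
    have := (hHH x0 0 (by linarith) (by simp)).2.1
    simpa using this
  have hH0p : 0 < H0 := norm_pos_iff.2 hHne
  -- bounds for HH
  have hHb : ∀ x y : ℝ, |x| ≤ r → |y - x0| ≤ r →
      ‖HH ((x : ℂ) + (y : ℂ) * I)‖ ≤ Real.exp (1 + K) * H0 ∧
      Real.exp (-(1 + K)) * H0 ≤ ‖HH ((x : ℂ) + (y : ℂ) * I)‖ := by
    intro x y hx hy
    have e0 : ((x : ℂ) + (y : ℂ) * I) = I * x0 + ((x : ℂ) + ((y - x0 : ℝ) : ℂ) * I) := by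
      push_cast; ring
    have hu : ‖((x : ℂ) + ((y - x0 : ℝ) : ℂ) * I)‖ ≤ 1 := by
      refine (norm_add_le _ _).trans ?_
      rw [norm_mul, Complex.norm_real, Complex.norm_real, Complex.norm_I, mul_one,
        Real.norm_eq_abs, Real.norm_eq_abs]
      linarith
    have h1 := hHH x0 ((x : ℂ) + ((y - x0 : ℝ) : ℂ) * I) (by linarith) hu
    have hure : ((x : ℂ) + ((y - x0 : ℝ) : ℂ) * I).re = x := by simp
    rw [← e0, hure] at h1
    obtain ⟨_, _, _, h4, h5⟩ := h1
    have h6 := hexp1 x hx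
    rw [abs_le] at h6
    constructor
    · refine h5.trans ?_
      apply mul_le_mul_of_nonneg_right _ hH0p.le
      exact Real.exp_le_exp.2 (by linarith)
    · refine le_trans ?_ h4
      apply mul_le_mul_of_nonneg_right _ hH0p.le
      exact Real.exp_le_exp.2 (by linarith)
  -- the function G
  set G : ℂ → ℂ := fun w => XX w * Mo X (1 / 2 + w) with hG
  have hGd : Differentiable ℂ G := by
    apply Differentiable.mul Pool.Agent.H24R2.JP.B1h.XX_diff
    exact (Mo_diff X).comp (by fun_prop)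
  set f : ℝ → ℝ → ℝ := fun x y => ‖G ((x : ℂ) + (y : ℂ) * I)‖ ^ 2 with hf
  have hfc : Continuous (fun p : ℝ × ℝ => f p.1 p.2) := by
    simp only [hf]
    exact (hGd.continuous.comp (by fun_prop)).norm.pow 2
  have h := hsq G x1 y1 (r / 2) (by positivity) (fun w _ _ => hGd w)
  have e1 : ∫ x in (x1 - r / 2)..(x1 + r / 2), ∫ y in (y1 - r / 2)..(y1 + r / 2), f x y ≤
      ∫ x in (-r)..r, ∫ y in (x0 - r)..(x0 + r), f x y :=
    Pool.Agent.W655.SD.dbl_le_mono f f (by linarith) (by linarith) (by linarith) (by linarith)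
      (by linarith) (by linarith) hfc.continuousOn hfc.continuousOn (fun _ _ _ _ => le_rfl)
      (fun _ _ _ _ => by positivity)
  set Hs : ℝ → ℝ := fun x => ∫ y in (x0 - r)..(x0 + r), f x y with hHs
  have hHsc : Continuous Hs :=
    intervalIntegral.continuous_parametric_intervalIntegral_of_continuous' hfc _ _
  have hHsc' : Continuous (fun x => Hs (-x)) := hHsc.comp continuous_neg
  have e2 : ∫ x in (-r)..r, Hs x = ∫ x in (0 : ℝ)..r, (Hs x + Hs (-x)) := by
    rw [intervalIntegral.integral_add (hHsc.intervalIntegrable _ _)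
      (hHsc'.intervalIntegrable _ _)]
    have h1 := intervalIntegral.integral_comp_neg (a := 0) (b := r) Hs
    rw [h1, neg_zero, ← intervalIntegral.integral_add_adjacent_intervals (b := 0)
      (hHsc.intervalIntegrable _ _) (hHsc.intervalIntegrable _ _)]
    ring
  have hfx : ∀ y : ℝ, Continuous (fun x => f x y) := fun y => by
    simp only [hf]
    exact (hGd.continuous.comp (by fun_prop)).norm.pow 2
  have hfy : ∀ x : ℝ, Continuous (f x) := fun x => by
    simp only [hf]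
    exact (hGd.continuous.comp (by fun_prop)).norm.pow 2
  have e3 : ∀ x ∈ Icc (0 : ℝ) r, Hs x + Hs (-x) ≤
      ∫ y in (x0 - r)..(x0 + r), (Real.exp (1 + K) * H0) ^ 2 * gg X x y := by
    intro x hx
    simp only [hHs]
    rw [← intervalIntegral.integral_add ((hfy x).intervalIntegrable _ _)
      ((hfy (-x)).intervalIntegrable _ _)]
    have k1 : Continuous (fun y => f x y + f (-x) y) := (hfy x).add (hfy (-x))
    have k2 : Continuous (fun y => (Real.exp (1 + K) * H0) ^ 2 * gg X x y) :=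
      continuous_const.mul (gg_cont' X x)
    apply intervalIntegral.integral_mono_on (by linarith)
      (k1.intervalIntegrable _ _) (k2.intervalIntegrable _ _)
    intro y hy
    have hxr : |x| ≤ r := by rw [abs_of_nonneg hx.1]; exact hx.2
    have hyr : |y - x0| ≤ r := by rw [abs_le]; constructor <;> linarith [hy.1, hy.2]
    have hy1 : 1 ≤ y := by linarith [hy.1]
    have s1 : ‖XX (((-x : ℝ) : ℂ) + (y : ℂ) * I)‖ = ‖XX ((x : ℂ) + (y : ℂ) * I)‖ := by
      have : (((-x : ℝ) : ℂ) + (y : ℂ) * I) = -(starRingEnd ℂ ((x : ℂ) + (y : ℂ) * I)) := by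
        simp only [map_add, map_mul, conj_I, conj_ofReal, ofReal_neg]
        ring
      rw [this, Pool.Agent.W655.SD.XX_symm, Complex.norm_conj]
    have s2 : ‖XX ((x : ℂ) + (y : ℂ) * I)‖ =
        ‖HH ((x : ℂ) + (y : ℂ) * I)‖ * ‖riemannZeta (1 / 2 + (x : ℂ) + (y : ℂ) * I)‖ := by
      have him : 0 < ((x : ℂ) + (y : ℂ) * I).im := by simp; linarith
      rw [Pool.Agent.H24R2.JP.zetaS.1 _ him, norm_mul, add_assoc]
    have hy1' : max y 1 = y := max_eq_left hy1
    simp only [hf, hG]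
    rw [norm_mul, norm_mul, s1, s2]
    unfold gg
    rw [hy1']
    have a1 : (1 / 2 + (((-x : ℝ) : ℂ) + (y : ℂ) * I)) = 1 / 2 - (x : ℂ) + (y : ℂ) * I := by
      push_cast; ring
    have a2 : (1 / 2 + ((x : ℂ) + (y : ℂ) * I)) = 1 / 2 + (x : ℂ) + (y : ℂ) * I := by ring
    rw [a1, a2]
    have hb := (hHb x y hxr hyr).1
    have hb2 : ‖HH ((x : ℂ) + (y : ℂ) * I)‖ ^ 2 ≤ (Real.exp (1 + K) * H0) ^ 2 :=
      pow_le_pow_left₀ (norm_nonneg _) hb 2
    calc (‖HH ((x : ℂ) + (y : ℂ) * I)‖ * ‖riemannZeta (1 / 2 + (x : ℂ) + (y : ℂ) * I)‖ *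
          ‖Mo X (1 / 2 + (x : ℂ) + (y : ℂ) * I)‖) ^ 2 +
        (‖HH ((x : ℂ) + (y : ℂ) * I)‖ * ‖riemannZeta (1 / 2 + (x : ℂ) + (y : ℂ) * I)‖ *
          ‖Mo X (1 / 2 - (x : ℂ) + (y : ℂ) * I)‖) ^ 2 =
        ‖HH ((x : ℂ) + (y : ℂ) * I)‖ ^ 2 * (‖riemannZeta (1 / 2 + (x : ℂ) + (y : ℂ) * I)‖ ^ 2 *
          (‖Mo X (1 / 2 + (x : ℂ) + (y : ℂ) * I)‖ ^ 2 +
            ‖Mo X (1 / 2 - (x : ℂ) + (y : ℂ) * I)‖ ^ 2)) := by ring
      _ ≤ _ := mul_le_mul_of_nonneg_right hb2 (by positivity)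
  have hIc0 : Continuous (fun p : ℝ × ℝ => (Real.exp (1 + K) * H0) ^ 2 * gg X p.1 p.2) :=
    continuous_const.mul (gg_cont X)
  have hIc : Continuous fun x => ∫ y in (x0 - r)..(x0 + r), (Real.exp (1 + K) * H0) ^ 2 * gg X x y :=
    intervalIntegral.continuous_parametric_intervalIntegral_of_continuous'
      (f := fun x y => (Real.exp (1 + K) * H0) ^ 2 * gg X x y) hIc0 _ _
  have e4 : ∫ x in (0 : ℝ)..r, (Hs x + Hs (-x)) ≤
      (Real.exp (1 + K) * H0) ^ 2 *
        ∫ x in (0 : ℝ)..r, ∫ y in (x0 - r)..(x0 + r), gg X x y := by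
    rw [← intervalIntegral.integral_const_mul]
    have e5 : ∀ x : ℝ, (Real.exp (1 + K) * H0) ^ 2 * ∫ y in (x0 - r)..(x0 + r), gg X x y =
        ∫ y in (x0 - r)..(x0 + r), (Real.exp (1 + K) * H0) ^ 2 * gg X x y := fun x => by
      rw [intervalIntegral.integral_const_mul]
    simp only [e5]
    exact intervalIntegral.integral_mono_on hr0.le
      ((hHsc.add hHsc').intervalIntegrable _ _)
      (hIc.intervalIntegrable _ _) e3
  -- final
  have hzim : 0 < z.im := by
    rw [← hy1d]; linarith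
  have hXXz : XX z = HH z * riemannZeta (1 / 2 + z) := Pool.Agent.H24R2.JP.zetaS.1 _ hzim
  have hlow := (hHb x1 y1 (by rw [abs_le]; constructor <;> linarith)
    (by rw [abs_le]; constructor <;> linarith)).2
  rw [← hzeq] at hlow
  have hGz : ‖G z‖ = ‖HH z‖ * ‖FF X z‖ := by
    simp only [hG, FF]
    rw [hXXz, norm_mul, norm_mul, norm_mul]
    ring
  have h7 : Real.exp (-(1 + K)) * H0 * ‖FF X z‖ ≤ ‖G z‖ := by
    rw [hGz]
    exact mul_le_mul_of_nonneg_right hlow (norm_nonneg _)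
  set I1 := ∫ x in (0 : ℝ)..r, ∫ y in (x0 - r)..(x0 + r), gg X x y with hI1
  have hI0 : 0 ≤ I1 := intervalIntegral.integral_nonneg hr0.le fun x _ =>
    intervalIntegral.integral_nonneg (by linarith) fun y _ => gg_nonneg _ _ _
  have h8 : ‖G z‖ ^ 2 ≤ C1 / (r / 2) ^ 2 * ((Real.exp (1 + K) * H0) ^ 2 * I1) := by
    rw [hzeq]
    refine h.trans (mul_le_mul_of_nonneg_left ?_ (by positivity))
    calc _ ≤ _ := e1
      _ = _ := e2
      _ ≤ _ := e4
  have h9 : (Real.exp (-(1 + K)) * H0 * ‖FF X z‖) ^ 2 ≤ ‖G z‖ ^ 2 :=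
    pow_le_pow_left₀ (by positivity) h7 2
  have h10 := h9.trans h8
  have hE : Real.exp (-(1 + K)) * Real.exp (1 + K) = 1 := by
    rw [← Real.exp_add]; simp
  have hrr : C1 / (r / 2) ^ 2 = 4 * C1 * L ^ 2 := by
    rw [hr]; field_simp; ring
  rw [hrr] at h10
  set E := Real.exp (1 + K) with hEd
  set E' := Real.exp (-(1 + K)) with hEd'
  have hE0 : 0 < E := Real.exp_pos _
  have h11 : H0 ^ 2 * ‖FF X z‖ ^ 2 ≤ H0 ^ 2 * (4 * C1 * E ^ 4 * (L ^ 2 * I1)) := by
    have h12 : E ^ 2 * (E' * H0 * ‖FF X z‖) ^ 2 ≤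
        E ^ 2 * (4 * C1 * L ^ 2 * ((E * H0) ^ 2 * I1)) :=
      mul_le_mul_of_nonneg_left h10 (by positivity)
    have h13 : E ^ 2 * (E' * H0 * ‖FF X z‖) ^ 2 = (E' * E) ^ 2 * (H0 ^ 2 * ‖FF X z‖ ^ 2) := by ring
    rw [h13, hE, one_pow, one_mul] at h12
    refine h12.trans (le_of_eq ?_)
    ring
  exact le_of_mul_le_mul_left h11 (by positivity)

/-- discrete mean value theorem -/
theorem disc_bound : ∃ C T0 : ℝ, 0 < C ∧ 8 ≤ T0 ∧ ∀ X : ℝ, T0 ≤ X → ∀ (B : Finset ℝ) (v K : ℝ),
    (∀ b ∈ B, X ≤ b + v ∧ b + v ≤ 3 * X) →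
    (∀ y : ℝ, ((B.filter (fun b => |b - y| ≤ 1 / Real.log X)).card : ℝ) ≤ K) →
    ∑ b ∈ B, QQ X (b + v) ≤ K * (C * X * Real.log X) := by
  obtain ⟨C, T0, hC, hT0, h⟩ := int_gg
  refine ⟨C, max T0 (Real.exp 10), hC, hT0.trans (le_max_left _ _), ?_⟩
  intro X hX B v K hB hK
  have hXT : T0 ≤ X := (le_max_left _ _).trans hX
  have hX10 : Real.exp 10 ≤ X := (le_max_right _ _).trans hX
  have hX0 : 0 < X := (Real.exp_pos _).trans_le hX10
  have hL : 10 ≤ Real.log X := (Real.le_log_iff_exp_le hX0).2 hX10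
  have hX8 : 8 ≤ X := hT0.trans hXT
  have hK0 : 0 ≤ K := (Nat.cast_nonneg _).trans (hK 0)
  have hint := h X hXT
  unfold QQ
  set L := Real.log X with hLdef
  have hL0 : 0 < L := by linarith
  set r := 1 / L with hr
  have hr0 : 0 < r := by positivity
  have hr1 : r ≤ 1 / 10 := by
    rw [hr, div_le_div_iff₀ hL0 (by norm_num)]; linarith
  rw [← Finset.mul_sum]
  have hc : ∀ b ∈ B, IntervalIntegrable (fun x => ∫ y in (b + v - r)..(b + v + r), gg X x y)
      volume 0 r := fun b _ =>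
    (intervalIntegral.continuous_parametric_intervalIntegral_of_continuous' (gg_cont X) _ _).intervalIntegrable _ _
  rw [← intervalIntegral.integral_finsetSum hc]
  have key : ∀ x ∈ Icc (0 : ℝ) r, ∑ b ∈ B, ∫ y in (b + v - r)..(b + v + r), gg X x y ≤
      K * (C * X) := by
    intro x hx
    have h1 : ∀ b ∈ B, ∫ y in (b + v - r)..(b + v + r), gg X x y =
        ∫ y in Ioc (X / 4) (4 * X), (Ioc (b + v - r) (b + v + r)).indicator (gg X x) y := by
      intro b hb
      have hb1 := hB b hb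
      rw [intervalIntegral.integral_of_le (by linarith),
        MeasureTheory.setIntegral_indicator measurableSet_Ioc,
        Set.inter_eq_self_of_subset_right]
      exact Set.Ioc_subset_Ioc (by linarith [hb1.1]) (by linarith [hb1.2])
    rw [Finset.sum_congr rfl h1]
    have hio : IntegrableOn (gg X x) (Ioc (X / 4) (4 * X)) :=
      ((gg_cont' X x).integrableOn_Icc).mono_set Set.Ioc_subset_Icc_self
    rw [← MeasureTheory.integral_finsetSum _ fun b _ =>
      (hio.integrable.indicator measurableSet_Ioc)]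
    have h2 : ∫ y in Ioc (X / 4) (4 * X), ∑ b ∈ B,
        (Ioc (b + v - r) (b + v + r)).indicator (gg X x) y ≤
        ∫ y in Ioc (X / 4) (4 * X), K * gg X x y := by
      apply MeasureTheory.integral_mono_of_nonneg
      · filter_upwards with y
        exact Finset.sum_nonneg fun b _ => Set.indicator_nonneg (fun y _ => gg_nonneg _ _ _) _
      · exact hio.integrable.const_mul K
      · filter_upwards with y
        have h3 : ∑ b ∈ B, (Ioc (b + v - r) (b + v + r)).indicator (gg X x) y ≤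
            ∑ b ∈ B.filter (fun b => |b - (y - v)| ≤ r), gg X x y := by
          rw [Finset.sum_filter]
          apply Finset.sum_le_sum
          intro b _
          by_cases hy : y ∈ Ioc (b + v - r) (b + v + r)
          · rw [Set.indicator_of_mem hy, if_pos]
            rw [abs_le]
            constructor <;> linarith [hy.1, hy.2]
          · rw [Set.indicator_of_notMem hy]
            split_ifs
            · exact gg_nonneg _ _ _
            · exact le_rfl
        refine h3.trans ?_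
        rw [Finset.sum_const, nsmul_eq_mul]
        exact mul_le_mul_of_nonneg_right (hK (y - v)) (gg_nonneg _ _ _)
    refine h2.trans ?_
    rw [MeasureTheory.integral_const_mul, ← intervalIntegral.integral_of_le (by linarith)]
    exact mul_le_mul_of_nonneg_left (hint x hx.1 hx.2) hK0
  have h4 : ∫ x in (0 : ℝ)..r, ∑ b ∈ B, ∫ y in (b + v - r)..(b + v + r), gg X x y ≤
      ∫ _x in (0 : ℝ)..r, K * (C * X) := by
    apply intervalIntegral.integral_mono_on hr0.le
    · apply Continuous.intervalIntegrable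
      exact continuous_finsetSum _ fun b _ =>
        intervalIntegral.continuous_parametric_intervalIntegral_of_continuous' (gg_cont X) _ _
    · exact continuous_const.intervalIntegrable _ _
    · exact key
  rw [intervalIntegral.integral_const, smul_eq_mul, sub_zero] at h4
  calc L ^ 2 * ∫ x in (0 : ℝ)..r, ∑ b ∈ B, ∫ y in (b + v - r)..(b + v + r), gg X x y
      ≤ L ^ 2 * (r * (K * (C * X))) := mul_le_mul_of_nonneg_left h4 (by positivity)
    _ = K * (C * X * L) := by rw [hr]; field_simp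

end Pool.Agent.TH801.TU
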